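import Mathlib
set_option autoImplicit false
/-!
TARGET: a homogeneous function of degree -n on ℝⁿ whose integrals over all lines in direction f are ≥ 0 has integral ≥ 0 over the sphere.
-/
namespace Pool.Agent.Helper115_ME.C01

open MeasureTheory Metric Set

abbrev E (n : ℕ) := EuclideanSpace ℝ (Fin n)

abbrev Sph (n : ℕ) := Metric.sphere (0 : E n) 1

section aux

theorem integral_volumeIoiPow (k : ℕ) (h : ℝ → ℝ) :
    ∫ r : Ioi (0 : ℝ), h r ∂(Measure.volumeIoiPow k) = ∫ r in Ioi (0 : ℝ), r ^ k * h r := by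
  simp only [Measure.volumeIoiPow, ENNReal.ofReal]
  rw [integral_withDensity_eq_integral_smul,
        integral_subtype_comap measurableSet_Ioi fun a ↦ Real.toNNReal (a ^ k) • h a,
        setIntegral_congr_fun measurableSet_Ioi fun x hx ↦ ?_]
  · rw [NNReal.smul_def, Real.coe_toNNReal _ (pow_nonneg hx.out.le _), smul_eq_mul]
  · exact (measurable_subtype_coe.pow_const _).real_toNNReal

theorem integrable_volumeIoiPow (k : ℕ) (h : ℝ → ℝ) :
    Integrable (fun r : Ioi (0 : ℝ) => h r) (Measure.volumeIoiPow k) ↔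
      IntegrableOn (fun r => r ^ k * h r) (Ioi (0 : ℝ)) := by
  rw [integrableOn_iff_comap_subtypeVal (by measurability), Measure.volumeIoiPow,
    integrable_withDensity_iff_integrable_smul', integrable_congr]
  · refine .of_forall ?_
    rintro ⟨x, hx : 0 < x⟩
    simp (disch := positivity) [ENNReal.toReal_ofReal]
  · fun_prop
  · simp

theorem integral_N (N : ℝ) (hN : 0 < N) : ∫ r in Ioi (0 : ℝ), N * Real.exp (-(r * N)) = 1 := by
  have h := integral_comp_mul_left_Ioi (fun x => Real.exp (-x)) 0 hN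
  rw [integral_const_mul]
  have h2 : ∫ r in Ioi (0 : ℝ), Real.exp (-(r * N)) = N⁻¹ := by
    have := h
    simp only [mul_zero, integral_exp_neg_Ioi_zero, smul_eq_mul, mul_one] at this
    rw [← this]
    congr 1
    ext x
    ring_nf
  rw [h2]
  field_simp

theorem integrableOn_N (N : ℝ) (hN : 0 < N) :
    IntegrableOn (fun r => N * Real.exp (-(r * N))) (Ioi (0 : ℝ)) := by
  have h := integrableOn_exp_mul_Ioi (a := -N) (by linarith) 0
  refine (Integrable.const_mul h N).congr (.of_forall ?_)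
  intro r
  simp only
  congr 2
  ring

end aux

/-- the distance from the line through `f` -/
noncomputable def Nf {n : ℕ} (f : E n) (x : E n) : ℝ := ‖x - (inner ℝ f x) • f‖

theorem Nf_nonneg {n : ℕ} (f x : E n) : 0 ≤ Nf f x := norm_nonneg _

theorem Nf_smul {n : ℕ} (f x : E n) (c : ℝ) (hc : 0 ≤ c) : Nf f (c • x) = c * Nf f x := by
  unfold Nf
  rw [inner_smul_right, mul_smul, ← smul_sub, norm_smul, Real.norm_of_nonneg hc]

theorem Nf_continuous {n : ℕ} (f : E n) : Continuous (Nf f) := by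
  unfold Nf
  fun_prop

/-- the weighted function -/
noncomputable def Gf {n : ℕ} (f : E n) (F : E n → ℝ) (x : E n) : ℝ :=
  F x * (Nf f x * Real.exp (-(Nf f x)))

theorem Gf_smul {n : ℕ} (hn : 2 ≤ n) (f : E n) (F : E n → ℝ)
    (hhom : ∀ c : ℝ, 0 < c → ∀ x, F (c • x) = (c ^ n)⁻¹ * F x) (x : E n) (r : ℝ) (hr : 0 < r) :
    r ^ (n - 1) * Gf f F (r • x) = F x * (Nf f x * Real.exp (-(r * Nf f x))) := by
  unfold Gf
  rw [hhom r hr, Nf_smul f x r hr.le]
  have h1 : r ^ n = r ^ (n - 1) * r := by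
    rw [← pow_succ]
    congr 1
    omega
  have h2 : r ^ (n - 1) ≠ 0 := pow_ne_zero _ hr.ne'
  rw [h1]
  field_simp

theorem Gf_measurable {n : ℕ} (f : E n) (F : E n → ℝ) (hFm : Measurable F) :
    Measurable (Gf f F) := by
  unfold Gf
  have := (Nf_continuous f).measurable
  fun_prop

open scoped Pointwise in
/-- the set of points of the sphere on the line through `f` is null -/
theorem null_set {n : ℕ} (hn : 2 ≤ n) (f : E n) :
    ((volume : Measure (E n)).toSphere) {v : Sph n | Nf f v = 0} = 0 := by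
  have hm : MeasurableSet {v : Sph n | Nf f v = 0} :=
    (isClosed_eq ((Nf_continuous f).comp continuous_subtype_val) continuous_const).measurableSet
  rw [Measure.toSphere_apply' _ hm]
  have hsub : Ioo (0 : ℝ) 1 • ((fun v : Sph n => (v : E n)) '' {v : Sph n | Nf f v = 0})
      ⊆ (Submodule.span ℝ {f} : Set (E n)) := by
    rintro x ⟨r, hr, y, ⟨v, hv, rfl⟩, rfl⟩
    simp only [SetLike.mem_coe]
    refine Submodule.smul_mem _ _ ?_
    have : (v : E n) - (inner ℝ f (v : E n)) • f = 0 := norm_eq_zero.mp hv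
    rw [sub_eq_zero.mp this]
    exact Submodule.smul_mem _ _ (Submodule.mem_span_singleton_self f)
  have hz : (volume : Measure (E n)) (Submodule.span ℝ {f} : Set (E n)) = 0 := by
    apply Measure.addHaar_submodule
    intro h
    have h1 : Module.finrank ℝ (Submodule.span ℝ {f} : Submodule ℝ (E n)) ≤ 1 :=
      (finrank_span_le_card ({f} : Set (E n))).trans (by simp)
    rw [h, finrank_top, finrank_euclideanSpace, Fintype.card_fin] at h1
    omega
  have := measure_mono_null hsub hz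
  rw [this]
  simp

theorem inner_integral {n : ℕ} (hn : 2 ≤ n) (f : E n) (F : E n → ℝ)
    (hhom : ∀ c : ℝ, 0 < c → ∀ x, F (c • x) = (c ^ n)⁻¹ * F x) (v : E n) (hv : Nf f v ≠ 0) :
    ∫ r : Ioi (0 : ℝ), Gf f F ((r : ℝ) • v) ∂(Measure.volumeIoiPow (n - 1)) = F v := by
  rw [integral_volumeIoiPow (n - 1) (fun r => Gf f F (r • v))]
  rw [setIntegral_congr_fun measurableSet_Ioi fun r hr => Gf_smul hn f F hhom v r hr]
  rw [integral_const_mul, integral_N _ (lt_of_le_of_ne (Nf_nonneg f v) (Ne.symm hv)), mul_one]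

theorem inner_integral_norm {n : ℕ} (hn : 2 ≤ n) (f : E n) (F : E n → ℝ)
    (hhom : ∀ c : ℝ, 0 < c → ∀ x, F (c • x) = (c ^ n)⁻¹ * F x) (v : E n) (hv : Nf f v ≠ 0) :
    ∫ r : Ioi (0 : ℝ), ‖Gf f F ((r : ℝ) • v)‖ ∂(Measure.volumeIoiPow (n - 1)) = |F v| := by
  have key : ∀ x, ‖Gf f F x‖ = Gf f (fun x => |F x|) x := by
    intro x
    unfold Gf
    rw [norm_mul, Real.norm_eq_abs, Real.norm_of_nonneg]
    exact mul_nonneg (Nf_nonneg f x) (Real.exp_pos _).le
  simp_rw [key]
  refine inner_integral hn f (fun x => |F x|) ?_ v hv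
  intro c hc x
  rw [hhom c hc, abs_mul, abs_of_pos (by positivity)]

theorem inner_integrable {n : ℕ} (hn : 2 ≤ n) (f : E n) (F : E n → ℝ)
    (hhom : ∀ c : ℝ, 0 < c → ∀ x, F (c • x) = (c ^ n)⁻¹ * F x) (v : E n) (hv : Nf f v ≠ 0) :
    Integrable (fun r : Ioi (0 : ℝ) => Gf f F ((r : ℝ) • v)) (Measure.volumeIoiPow (n - 1)) := by
  rw [integrable_volumeIoiPow (n - 1) (fun r => Gf f F (r • v))]
  have := (integrableOn_N (Nf f v) (lt_of_le_of_ne (Nf_nonneg f v) (Ne.symm hv))).const_mul (F v)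
  refine IntegrableOn.congr_fun this ?_ measurableSet_Ioi
  intro r hr
  exact (Gf_smul hn f F hhom v r hr).symm

theorem finrank_E (n : ℕ) : Module.finrank ℝ (E n) = n := by
  rw [finrank_euclideanSpace, Fintype.card_fin]

theorem ae_N {n : ℕ} (hn : 2 ≤ n) (f : E n) :
    ∀ᵐ v : Sph n ∂((volume : Measure (E n)).toSphere), Nf f v ≠ 0 := by
  rw [ae_iff]
  simpa using null_set hn f

theorem H_integrable {n : ℕ} (hn : 2 ≤ n) (f : E n) (F : E n → ℝ) (hFm : Measurable F)
    (hhom : ∀ c : ℝ, 0 < c → ∀ x, F (c • x) = (c ^ n)⁻¹ * F x)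
    (hbd : ∃ C, ∀ x, ‖x‖ = 1 → |F x| ≤ C) :
    Integrable (fun p : Sph n × Ioi (0 : ℝ) => Gf f F ((p.2 : ℝ) • (p.1 : E n)))
      (((volume : Measure (E n)).toSphere).prod (Measure.volumeIoiPow (n - 1))) := by
  have hmeas : Measurable (fun p : Sph n × Ioi (0 : ℝ) => Gf f F ((p.2 : ℝ) • (p.1 : E n))) := by
    refine (Gf_measurable f F hFm).comp ?_
    fun_prop
  rw [integrable_prod_iff hmeas.aestronglyMeasurable]
  constructor
  · filter_upwards [ae_N hn f] with v hv
    exact inner_integrable hn f F hhom v hv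
  · obtain ⟨C, hC⟩ := hbd
    have h1 : Integrable (fun v : Sph n => |F v|) ((volume : Measure (E n)).toSphere) := by
      refine Integrable.mono' (integrable_const C) ?_ ?_
      · exact (hFm.comp measurable_subtype_coe).abs.aestronglyMeasurable
      · refine .of_forall fun v => ?_
        rw [Real.norm_eq_abs, abs_abs]
        exact hC v (by simp)
    refine h1.congr ?_
    filter_upwards [ae_N hn f] with v hv
    exact (inner_integral_norm hn f F hhom v hv).symm

theorem polar {n : ℕ} (hn : 2 ≤ n) (f : E n) (F : E n → ℝ) (hFm : Measurable F)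
    (hhom : ∀ c : ℝ, 0 < c → ∀ x, F (c • x) = (c ^ n)⁻¹ * F x)
    (hbd : ∃ C, ∀ x, ‖x‖ = 1 → |F x| ≤ C) :
    ∫ x, Gf f F x = ∫ v : Sph n, F v ∂((volume : Measure (E n)).toSphere) := by
  have hdim : Module.finrank ℝ (E n) = n := finrank_E n
  have mp := (volume : Measure (E n)).measurePreserving_homeomorphUnitSphereProd
  rw [hdim] at mp
  calc ∫ x, Gf f F x = ∫ x : ({(0)}ᶜ : Set (E n)), Gf f F x.1 ∂((volume : Measure (E n)).comap (↑)) := by
        have : Nontrivial (E n) := by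
          apply Module.nontrivial_of_finrank_pos (R := ℝ)
          rw [hdim]; omega
        rw [integral_subtype_comap (measurableSet_singleton _).compl fun x ↦ Gf f F x,
          restrict_compl_singleton]
    _ = ∫ p : Sph n × Ioi (0 : ℝ), Gf f F ((p.2 : ℝ) • (p.1 : E n))
        ∂(((volume : Measure (E n)).toSphere).prod (Measure.volumeIoiPow (n - 1))) := by
        rw [← mp.integral_comp (Homeomorph.measurableEmbedding _)]
        congr 1
        ext x
        congr 1
        have hx : ‖(x : E n)‖ ≠ 0 := norm_ne_zero_iff.mpr x.2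
        simp [smul_smul, hx]
    _ = ∫ v : Sph n, ∫ r : Ioi (0 : ℝ), Gf f F ((r : ℝ) • (v : E n)) ∂(Measure.volumeIoiPow (n - 1))
        ∂((volume : Measure (E n)).toSphere) := by
        rw [integral_prod _ (H_integrable hn f F hFm hhom hbd)]
    _ = ∫ v : Sph n, F v ∂((volume : Measure (E n)).toSphere) := by
        refine integral_congr_ae ?_
        filter_upwards [ae_N hn f] with v hv
        exact inner_integral hn f F hhom v hv

theorem G_integrable {n : ℕ} (hn : 2 ≤ n) (f : E n) (F : E n → ℝ) (hFm : Measurable F)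
    (hhom : ∀ c : ℝ, 0 < c → ∀ x, F (c • x) = (c ^ n)⁻¹ * F x)
    (hbd : ∃ C, ∀ x, ‖x‖ = 1 → |F x| ≤ C) :
    Integrable (Gf f F) := by
  have hdim : Module.finrank ℝ (E n) = n := finrank_E n
  have mp := (volume : Measure (E n)).measurePreserving_homeomorphUnitSphereProd
  rw [hdim] at mp
  have : Nontrivial (E n) := by
    apply Module.nontrivial_of_finrank_pos (R := ℝ)
    rw [hdim]; omega
  have h := (mp.integrable_comp_emb (Homeomorph.measurableEmbedding _)).mpr
    (H_integrable hn f F hFm hhom hbd)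
  rw [← restrict_compl_singleton (μ := (volume : Measure (E n))) 0, ← IntegrableOn,
    integrableOn_iff_comap_subtypeVal (by measurability)]
  refine h.congr (.of_forall ?_)
  intro x
  simp only [Function.comp]
  congr 1
  have hx : ‖(x : E n)‖ ≠ 0 := norm_ne_zero_iff.mpr x.2
  simp [smul_smul, hx]


/-- `y ↦ Σ y_i b_(i+1)` -/
noncomputable def Ymap {m : ℕ} (b : OrthonormalBasis (Fin (m + 1)) ℝ (E (m + 1))) (y : Fin m → ℝ) :
    E (m + 1) := ∑ i, y i • b i.succ

theorem sum_split {m : ℕ} (b : OrthonormalBasis (Fin (m + 1)) ℝ (E (m + 1))) (z : ℝ) (y : Fin m → ℝ) :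
    b.repr.symm (WithLp.toLp 2 (Fin.cons z y : Fin (m + 1) → ℝ)) = z • b 0 + Ymap b y := by
  rw [← b.sum_repr_symm, Fin.sum_univ_succ]
  simp [Ymap]

theorem inner_Ymap {m : ℕ} (b : OrthonormalBasis (Fin (m + 1)) ℝ (E (m + 1))) (y : Fin m → ℝ) :
    inner ℝ (b 0) (Ymap b y) = 0 := by
  unfold Ymap
  rw [inner_sum]
  refine Finset.sum_eq_zero fun i _ => ?_
  rw [inner_smul_right, b.inner_eq_zero (Fin.succ_ne_zero i).symm, mul_zero]

theorem line_nonneg {n : ℕ} (f : E n) (hf : ‖f‖ = 1) (F : E n → ℝ)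
    (hhom : ∀ c : ℝ, 0 < c → ∀ x, F (c • x) = (c ^ n)⁻¹ * F x)
    (hline : ∀ y, inner ℝ f y = 0 → ‖y‖ = 1 → 0 ≤ ∫ z : ℝ, F (y + z • f)) (y : E n)
    (hy : inner ℝ f y = 0) : 0 ≤ ∫ z : ℝ, Gf f F (z • f + y) := by
  have hN : ∀ z : ℝ, Nf f (z • f + y) = ‖y‖ := by
    intro z
    unfold Nf
    rw [inner_add_right, inner_smul_right, hy, real_inner_self_eq_norm_sq, hf]
    congr 1
    simp
  have hG : ∀ z : ℝ, Gf f F (z • f + y) = F (z • f + y) * (‖y‖ * Real.exp (-‖y‖)) := by
    intro z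
    unfold Gf
    rw [hN]
  simp_rw [hG]
  rw [integral_mul_const]
  rcases eq_or_ne y 0 with h0 | h0
  · simp [h0]
  have hc : 0 < ‖y‖ := norm_pos_iff.mpr h0
  refine mul_nonneg ?_ (mul_nonneg hc.le (Real.exp_pos _).le)
  have h1 : ∀ z : ℝ, F (z • f + y) = (‖y‖ ^ n)⁻¹ * F (‖y‖⁻¹ • y + (‖y‖⁻¹ * z) • f) := by
    intro z
    rw [← hhom _ hc]
    congr 1
    rw [smul_add, smul_smul, smul_smul, mul_inv_cancel₀ hc.ne', one_smul, ← mul_assoc,
      mul_inv_cancel₀ hc.ne', one_mul, add_comm]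
  simp_rw [h1]
  rw [integral_const_mul]
  refine mul_nonneg (by positivity) ?_
  have h2 := Measure.integral_comp_mul_left (fun z => F (‖y‖⁻¹ • y + z • f)) (‖y‖⁻¹)
  rw [h2]
  refine mul_nonneg (abs_nonneg _) ?_
  apply hline
  · rw [inner_smul_right, hy, mul_zero]
  · rw [norm_smul, norm_inv, norm_norm, inv_mul_cancel₀ hc.ne']

theorem fubini_nonneg {m : ℕ} (f : E (m + 1)) (hf : ‖f‖ = 1) (F : E (m + 1) → ℝ)
    (hhom : ∀ c : ℝ, 0 < c → ∀ x, F (c • x) = (c ^ (m + 1))⁻¹ * F x)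
    (hline : ∀ y, inner ℝ f y = 0 → ‖y‖ = 1 → 0 ≤ ∫ z : ℝ, F (y + z • f))
    (hint : Integrable (Gf f F)) : 0 ≤ ∫ x, Gf f F x := by
  obtain ⟨b, hb⟩ : ∃ b : OrthonormalBasis (Fin (m + 1)) ℝ (E (m + 1)), b 0 = f := by
    have hv : Orthonormal ℝ (({0} : Set (Fin (m + 1))).domRestrict (fun _ => f)) := by
      constructor
      · intro i; exact hf
      · intro i j hij
        exact absurd (Subsingleton.elim i j) hij
    obtain ⟨b, hb⟩ := hv.exists_orthonormalBasis_extension_of_card_eq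
      (by rw [finrank_E, Fintype.card_fin])
    exact ⟨b, hb 0 rfl⟩
  let T1 := b.repr.symm.toHomeomorph.toMeasurableEquiv
  let T2 := MeasurableEquiv.toLp 2 (Fin (m + 1) → ℝ)
  let T3 := (MeasurableEquiv.piFinSuccAbove (fun _ : Fin (m + 1) => ℝ) 0).symm
  have e1 : MeasurePreserving T1 := b.measurePreserving_repr_symm
  have e2 : MeasurePreserving T2 :=
    (EuclideanSpace.volume_preserving_symm_measurableEquiv_toLp (Fin (m + 1))).symm
  have e3 : MeasurePreserving T3 := (volume_preserving_piFinSuccAbove (fun _ : Fin (m + 1) => ℝ) 0).symm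
  let T := T3.trans (T2.trans T1)
  have eT : MeasurePreserving T := e1.comp (e2.comp e3)
  have hT : ∀ p, T p = p.1 • f + Ymap b p.2 := by
    intro p
    have := sum_split b p.1 p.2
    rw [hb] at this
    rw [← this]
    change b.repr.symm (WithLp.toLp 2 (Fin.insertNth 0 p.1 p.2)) = _
    rw [Fin.insertNth_zero']
  rw [← eT.integral_comp T.measurableEmbedding]
  have hint2 : Integrable (fun p : ℝ × (Fin m → ℝ) => Gf f F (T p)) (volume.prod volume) :=
    (eT.integrable_comp_emb T.measurableEmbedding).mpr hint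
  change 0 ≤ ∫ p : ℝ × (Fin m → ℝ), Gf f F (T p) ∂(volume.prod volume)
  rw [integral_prod_symm _ hint2]
  refine integral_nonneg fun y => ?_
  simp_rw [hT]
  apply line_nonneg f hf F hhom hline
  rw [← hb]
  exact inner_Ymap b y

theorem sphere_nonneg_of_lines {n : ℕ} (hn : 2 ≤ n) (f : E n) (hf : ‖f‖ = 1) (F : E n → ℝ) (hFm : Measurable F)
    (hhom : ∀ c : ℝ, 0 < c → ∀ x, F (c • x) = (c ^ n)⁻¹ * F x)
    (hbd : ∃ C, ∀ x, ‖x‖ = 1 → |F x| ≤ C)
    (hline : ∀ y, inner ℝ f y = 0 → ‖y‖ = 1 → 0 ≤ ∫ z : ℝ, F (y + z • f)) :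
    0 ≤ ∫ v : Sph n, F v ∂((volume : Measure (E n)).toSphere) := by
  rw [← polar hn f F hFm hhom hbd]
  obtain ⟨m, rfl⟩ : ∃ m, n = m + 1 := ⟨n - 1, by omega⟩
  exact fubini_nonneg f hf F hhom hline (G_integrable hn f F hFm hhom hbd)

end Pool.Agent.Helper115_ME.C01

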