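import Mathlib
set_option autoImplicit false
namespace Pool.Agent.Helper115_ME.C02

open MeasureTheory Metric Set

abbrev E (n : ℕ) := EuclideanSpace ℝ (Fin n)

abbrev Sph (n : ℕ) := Metric.sphere (0 : E n) 1

/-- The sum of squares. -/
noncomputable def SS {m : ℕ} (y : Fin m → ℝ) : ℝ := ∑ i, y i ^ 2

lemma SS_nonneg {m : ℕ} (y : Fin m → ℝ) : 0 ≤ SS y := Finset.sum_nonneg fun i _ => sq_nonneg _

lemma SS_meas {m : ℕ} : Measurable (SS (m := m)) := by
  unfold SS
  fun_prop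

lemma SS_cont {m : ℕ} : Continuous (SS (m := m)) := by
  unfold SS
  fun_prop

lemma SS_smul {m : ℕ} (r : ℝ) (y : Fin m → ℝ) : SS (r • y) = r ^ 2 * SS y := by
  unfold SS
  rw [Finset.mul_sum]
  apply Finset.sum_congr rfl
  intro i _
  simp only [Pi.smul_apply, smul_eq_mul]
  ring

lemma SS_eq_zero {m : ℕ} (y : Fin m → ℝ) (h : SS y = 0) : y = 0 := by
  unfold SS at h
  rw [Finset.sum_eq_zero_iff_of_nonneg (fun i _ => sq_nonneg _)] at h
  funext i
  have := h i (Finset.mem_univ i)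
  simpa using this

lemma exists_split {m : ℕ} (u w : E (m + 2)) (h : Orthonormal ℝ ![u, w]) :
    ∃ Ψ : E (m + 2) → (ℝ × ℝ) × (Fin m → ℝ), MeasurePreserving Ψ ∧
      ∀ x, (Ψ x).1 = (inner ℝ u x, inner ℝ w x) ∧
        ‖x‖ ^ 2 = (inner ℝ u x) ^ 2 + (inner ℝ w x) ^ 2 + SS (Ψ x).2 := by
  classical
  let ι := Fin 2 ⊕ Fin m
  let v : ι → E (m + 2) := Sum.elim ![u, w] (fun _ => 0)
  let s : Set ι := range Sum.inl
  have hs : Orthonormal ℝ (s.domRestrict v) := by
    have hinj : Function.Injective (fun i : s => (i.2 : ∃ j, Sum.inl j = (i : ι)).choose) := by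
      intro a b hab
      apply Subtype.ext
      have ha := (a.2 : ∃ j, Sum.inl j = (a : ι)).choose_spec
      have hb := (b.2 : ∃ j, Sum.inl j = (b : ι)).choose_spec
      rw [← ha, ← hb]
      exact congrArg Sum.inl hab
    have h2 := h.comp _ hinj
    convert h2 using 1
    funext i
    have hi := (i.2 : ∃ j, Sum.inl j = (i : ι)).choose_spec
    show v (i : ι) = ![u, w] _
    conv_lhs => rw [← hi]
    rfl
  have hcard : Module.finrank ℝ (E (m + 2)) = Fintype.card ι := by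
    simp [ι, add_comm]
  obtain ⟨b, hb⟩ := hs.exists_orthonormalBasis_extension_of_card_eq hcard
  have hb0 : b (Sum.inl 0) = u := hb (Sum.inl 0) ⟨0, rfl⟩
  have hb1 : b (Sum.inl 1) = w := hb (Sum.inl 1) ⟨1, rfl⟩
  have m1 := b.measurePreserving_repr
  have m2 := PiLp.volume_preserving_ofLp ι
  have m3 := volume_measurePreserving_sumPiEquivProdPi (fun _ : Fin 2 ⊕ Fin m => ℝ)
  have m4 : MeasurePreserving (Prod.map (MeasurableEquiv.finTwoArrow (α := ℝ))
      (id : (Fin m → ℝ) → (Fin m → ℝ))) :=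
    (volume_preserving_finTwoArrow ℝ).prod (MeasurePreserving.id _)
  refine ⟨_, m4.comp (m3.comp (m2.comp m1)), fun x => ?_⟩
  constructor
  · show ((b.repr x) (Sum.inl 0), (b.repr x) (Sum.inl 1)) = _
    rw [b.repr_apply_apply, b.repr_apply_apply, hb0, hb1]
  · have h1 : ‖x‖ ^ 2 = ‖b.repr x‖ ^ 2 := by rw [b.repr.norm_map]
    rw [h1, EuclideanSpace.norm_sq_eq, Fintype.sum_sum_type, Fin.sum_univ_two]
    have e0 : (b.repr x) (Sum.inl 0) = inner ℝ u x := by rw [b.repr_apply_apply, hb0]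
    have e1 : (b.repr x) (Sum.inl 1) = inner ℝ w x := by rw [b.repr_apply_apply, hb1]
    rw [e0, e1]
    simp only [Real.norm_eq_abs, sq_abs]
    rfl

/-- The projective coordinates. -/
noncomputable def lam (p : ℝ × ℝ) : ℝ := √(1 + p.1 ^ 2 + p.2 ^ 2)

noncomputable def Phi (p : ℝ × ℝ) : ℝ × ℝ := (p.1 / lam p, p.2 / lam p)

lemma lam_pos (p : ℝ × ℝ) : 0 < lam p := by
  unfold lam
  positivity

lemma lam_sq (p : ℝ × ℝ) : lam p ^ 2 = 1 + p.1 ^ 2 + p.2 ^ 2 := by
  unfold lam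
  exact Real.sq_sqrt (by positivity)

lemma lam_meas : Measurable lam := by
  unfold lam
  fun_prop

lemma Phi_meas : Measurable Phi := by
  unfold Phi
  exact (measurable_fst.div lam_meas).prodMk (measurable_snd.div lam_meas)

/-- The region in split coordinates. -/
def Reg (m : ℕ) (B : Set (ℝ × ℝ)) : Set ((ℝ × ℝ) × (Fin m → ℝ)) :=
  {z | 0 < z.1.1 ^ 2 + z.1.2 ^ 2 + SS z.2 ∧ z.1.1 ^ 2 + z.1.2 ^ 2 + SS z.2 < 1 ∧
    (z.1.1 / √(z.1.1 ^ 2 + z.1.2 ^ 2 + SS z.2), z.1.2 / √(z.1.1 ^ 2 + z.1.2 ^ 2 + SS z.2)) ∈ B}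

lemma Reg_meas (m : ℕ) {B : Set (ℝ × ℝ)} (hB : MeasurableSet B) : MeasurableSet (Reg m B) := by
  have h1 : Measurable fun z : (ℝ × ℝ) × (Fin m → ℝ) => z.1.1 ^ 2 + z.1.2 ^ 2 + SS z.2 := by
    have h2 : Measurable fun z : (ℝ × ℝ) × (Fin m → ℝ) => SS z.2 := SS_meas.comp measurable_snd
    fun_prop
  unfold Reg
  refine (measurableSet_lt measurable_const h1).inter ((measurableSet_lt h1 measurable_const).inter ?_)
  have h2 : Measurable fun z : (ℝ × ℝ) × (Fin m → ℝ) =>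
      (z.1.1 / √(z.1.1 ^ 2 + z.1.2 ^ 2 + SS z.2), z.1.2 / √(z.1.1 ^ 2 + z.1.2 ^ 2 + SS z.2)) :=
    ((measurable_fst.fst).div h1.sqrt).prodMk ((measurable_fst.snd).div h1.sqrt)
  exact h2 hB

/-- The constant. -/
noncomputable def cc (m : ℕ) : ENNReal :=
  ∫⁻ z : Fin m → ℝ, (if SS z < 1 then ENNReal.ofReal (SS z) else 0)

lemma meas_cc (m : ℕ) (r : ℝ) : Measurable fun z : Fin m → ℝ =>
    (if SS z * r < 1 then ENNReal.ofReal (SS z) else (0 : ENNReal)) := by
  refine Measurable.ite (measurableSet_lt (SS_meas.mul_const r) measurable_const) ?_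
    measurable_const
  exact SS_meas.ennreal_ofReal

lemma inner_scale (m : ℕ) (p : ℝ × ℝ) :
    ∫⁻ y : Fin m → ℝ, (if SS y * (lam p) ^ 2 < 1 then ENNReal.ofReal (SS y) else 0) =
      ENNReal.ofReal ((lam p ^ (m + 2))⁻¹) * cc m := by
  have hl := lam_pos p
  set g : (Fin m → ℝ) → ENNReal := fun z =>
    ENNReal.ofReal ((lam p ^ 2)⁻¹) * (if SS z < 1 then ENNReal.ofReal (SS z) else 0) with hg
  have hgm : Measurable g := by
    have := meas_cc m 1
    simp only [mul_one] at this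
    exact this.const_mul _
  have h1 : ∀ y : Fin m → ℝ, (if SS y * (lam p) ^ 2 < 1 then ENNReal.ofReal (SS y) else 0) =
      g (lam p • y) := by
    intro y
    rw [hg]
    simp only [SS_smul]
    rw [mul_comm (lam p ^ 2) (SS y)]
    split_ifs with hh
    · rw [← ENNReal.ofReal_mul (by positivity)]
      congr 1
      field_simp
    · rw [mul_zero]
  simp only [h1]
  have h2 := Measure.map_addHaar_smul (volume : Measure (Fin m → ℝ)) hl.ne'
  rw [Module.finrank_fin_fun] at h2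
  rw [← lintegral_map hgm (measurable_const_smul (lam p)), h2, lintegral_smul_measure, hg,
    lintegral_const_mul _ (by
      have := meas_cc m 1
      simp only [mul_one] at this
      exact this)]
  unfold cc
  rw [smul_eq_mul, ← mul_assoc, ← ENNReal.ofReal_mul (by positivity)]
  congr 2
  rw [abs_of_pos (by positivity)]
  rw [pow_add, mul_inv]

/-- The measure in projective coordinates. -/
noncomputable def nuu (m : ℕ) (B : Set (ℝ × ℝ)) : ENNReal :=
  ∫⁻ p : ℝ × ℝ, (Phi ⁻¹' B).indicator (fun p => ENNReal.ofReal ((lam p ^ (m + 2))⁻¹)) p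

lemma slice (m : ℕ) {B : Set (ℝ × ℝ)} (hB : MeasurableSet B) (y : Fin m → ℝ) (hy : 0 < SS y) :
    volume ((fun q : ℝ × ℝ => (q, y)) ⁻¹' Reg m B) =
      ∫⁻ p : ℝ × ℝ, (Phi ⁻¹' B).indicator
        (fun p => if SS y * (lam p) ^ 2 < 1 then ENNReal.ofReal (SS y) else 0) p := by
  set ρ := √(SS y) with hρ
  have hρ0 : 0 < ρ := Real.sqrt_pos.2 hy
  have hρ2 : ρ ^ 2 = SS y := Real.sq_sqrt hy.le
  set s := (fun q : ℝ × ℝ => (q, y)) ⁻¹' Reg m B with hs
  have h1 := Measure.addHaar_preimage_smul (volume : Measure (ℝ × ℝ)) hρ0.ne' s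
  have hf : Module.finrank ℝ (ℝ × ℝ) = 2 := by simp
  rw [hf] at h1
  have h2 : volume s = ENNReal.ofReal (ρ ^ 2) * volume ((fun x : ℝ × ℝ => ρ • x) ⁻¹' s) := by
    rw [h1, ← mul_assoc, ← ENNReal.ofReal_mul (by positivity), abs_of_pos (by positivity),
      mul_inv_cancel₀ (by positivity), ENNReal.ofReal_one, one_mul]
  have h3 : (fun x : ℝ × ℝ => ρ • x) ⁻¹' s = {p | SS y * (lam p) ^ 2 < 1 ∧ Phi p ∈ B} := by
    ext p
    have e1 : (ρ * p.1) ^ 2 + (ρ * p.2) ^ 2 + SS y = ρ ^ 2 * lam p ^ 2 := by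
      rw [lam_sq, ← hρ2]
      ring
    have e2 : √((ρ * p.1) ^ 2 + (ρ * p.2) ^ 2 + SS y) = ρ * lam p := by
      rw [e1, ← mul_pow, Real.sqrt_sq (mul_nonneg hρ0.le (lam_pos p).le)]
    have e3 : ρ * p.1 / (ρ * lam p) = p.1 / lam p := mul_div_mul_left _ _ hρ0.ne'
    have e4 : ρ * p.2 / (ρ * lam p) = p.2 / lam p := mul_div_mul_left _ _ hρ0.ne'
    show (0 < (ρ * p.1) ^ 2 + (ρ * p.2) ^ 2 + SS y ∧ (ρ * p.1) ^ 2 + (ρ * p.2) ^ 2 + SS y < 1 ∧
      (ρ * p.1 / √((ρ * p.1) ^ 2 + (ρ * p.2) ^ 2 + SS y),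
        ρ * p.2 / √((ρ * p.1) ^ 2 + (ρ * p.2) ^ 2 + SS y)) ∈ B) ↔ _
    rw [e2, e3, e4, e1, hρ2]
    constructor
    · rintro ⟨-, k1, k2⟩
      exact ⟨k1, k2⟩
    · rintro ⟨k1, k2⟩
      exact ⟨mul_pos hy (pow_pos (lam_pos p) 2), k1, k2⟩
  have h4 : MeasurableSet {p : ℝ × ℝ | SS y * (lam p) ^ 2 < 1 ∧ Phi p ∈ B} :=
    (measurableSet_lt ((lam_meas.pow_const 2).const_mul _) measurable_const).inter
      (Phi_meas hB)
  rw [h2, h3, hρ2, ← lintegral_indicator_one h4, ← lintegral_const_mul]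
  · apply lintegral_congr
    intro p
    by_cases k1 : Phi p ∈ B
    · rw [indicator_of_mem (show p ∈ Phi ⁻¹' B from k1)]
      by_cases k2 : SS y * (lam p) ^ 2 < 1
      · rw [if_pos k2, indicator_of_mem (show p ∈ {p | SS y * (lam p) ^ 2 < 1 ∧ Phi p ∈ B} from
          ⟨k2, k1⟩)]
        simp
      · rw [if_neg k2, indicator_of_notMem (fun h => k2 h.1), mul_zero]
    · rw [indicator_of_notMem (show p ∉ Phi ⁻¹' B from k1),
        indicator_of_notMem (fun h => k1 h.2), mul_zero]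
  · exact measurable_one.indicator h4

lemma vol_Reg (m : ℕ) (hm : 1 ≤ m) {B : Set (ℝ × ℝ)} (hB : MeasurableSet B) :
    volume (Reg m B) = cc m * nuu m B := by
  have h1 : (volume : Measure ((ℝ × ℝ) × (Fin m → ℝ))) =
    (volume : Measure (ℝ × ℝ)).prod volume := rfl
  rw [h1, Measure.prod_apply_symm (Reg_meas m hB)]
  have h2 : ∀ᵐ y : Fin m → ℝ, volume ((fun q : ℝ × ℝ => (q, y)) ⁻¹' Reg m B) =
      ∫⁻ p : ℝ × ℝ, (Phi ⁻¹' B).indicator
        (fun p => if SS y * (lam p) ^ 2 < 1 then ENNReal.ofReal (SS y) else 0) p := by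
    haveI : Nonempty (Fin m) := ⟨⟨0, hm⟩⟩
    have h3 : ∀ᵐ y : Fin m → ℝ, y ≠ 0 := by
      rw [ae_iff]
      simp
    filter_upwards [h3] with y hy
    apply slice m hB y
    exact lt_of_le_of_ne (SS_nonneg y) (fun h => hy (SS_eq_zero y h.symm))
  rw [lintegral_congr_ae h2]
  have hmeas : Measurable (Function.uncurry fun (y : Fin m → ℝ) (p : ℝ × ℝ) =>
      (Phi ⁻¹' B).indicator
        (fun p => if SS y * (lam p) ^ 2 < 1 then ENNReal.ofReal (SS y) else (0 : ENNReal)) p) := by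
    have k1 : Measurable fun z : (Fin m → ℝ) × (ℝ × ℝ) => SS z.1 :=
      SS_meas.comp measurable_fst
    have k2 : Measurable fun z : (Fin m → ℝ) × (ℝ × ℝ) => lam z.2 :=
      lam_meas.comp measurable_snd
    have k3 : Measurable fun z : (Fin m → ℝ) × (ℝ × ℝ) =>
        (if SS z.1 * (lam z.2) ^ 2 < 1 then ENNReal.ofReal (SS z.1) else (0 : ENNReal)) :=
      Measurable.ite (measurableSet_lt (k1.mul (k2.pow_const 2)) measurable_const)
        k1.ennreal_ofReal measurable_const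
    have k4 : MeasurableSet ((fun z : (Fin m → ℝ) × (ℝ × ℝ) => Phi z.2) ⁻¹' B) :=
      (Phi_meas.comp measurable_snd) hB
    have k5 := k3.indicator k4
    convert k5 using 1
    funext z
    rfl
  rw [lintegral_lintegral_swap hmeas.aemeasurable]
  unfold nuu
  rw [← lintegral_const_mul]
  · apply lintegral_congr
    intro p
    by_cases k1 : Phi p ∈ B
    · have e1 : ∀ y : Fin m → ℝ, (Phi ⁻¹' B).indicator
          (fun p => if SS y * (lam p) ^ 2 < 1 then ENNReal.ofReal (SS y) else (0 : ENNReal)) p =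
          (if SS y * (lam p) ^ 2 < 1 then ENNReal.ofReal (SS y) else (0 : ENNReal)) := fun y =>
        indicator_of_mem (show p ∈ Phi ⁻¹' B from k1) _
      simp only [e1]
      rw [indicator_of_mem (show p ∈ Phi ⁻¹' B from k1), inner_scale, mul_comm]
    · have e1 : ∀ y : Fin m → ℝ, (Phi ⁻¹' B).indicator
          (fun p => if SS y * (lam p) ^ 2 < 1 then ENNReal.ofReal (SS y) else (0 : ENNReal)) p =
          0 := fun y => indicator_of_notMem (show p ∉ Phi ⁻¹' B from k1) _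
      simp only [e1]
      rw [indicator_of_notMem (show p ∉ Phi ⁻¹' B from k1)]
      simp
  · exact ((lam_meas.pow_const _).inv.ennreal_ofReal).indicator (Phi_meas hB)

lemma cc_ne_top (m : ℕ) : cc m ≠ ⊤ := by
  have h1 : cc m ≤ ∫⁻ z : Fin m → ℝ, (Metric.closedBall (0 : Fin m → ℝ) 1).indicator 1 z := by
    apply lintegral_mono
    intro z
    by_cases h : SS z < 1
    · have h2 : z ∈ Metric.closedBall (0 : Fin m → ℝ) 1 := by
        rw [mem_closedBall_zero_iff, pi_norm_le_iff_of_nonneg zero_le_one]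
        intro i
        rw [Real.norm_eq_abs, ← sq_le_one_iff_abs_le_one]
        have h3 : z i ^ 2 ≤ SS z :=
          Finset.single_le_sum (f := fun i => z i ^ 2) (fun i _ => sq_nonneg _) (Finset.mem_univ i)
        linarith
      simp only [if_pos h]
      rw [indicator_of_mem h2]
      have := ENNReal.ofReal_le_ofReal h.le
      simpa using this
    · simp only [if_neg h]
      exact bot_le
  rw [lintegral_indicator_one Metric.isClosed_closedBall.measurableSet] at h1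
  exact ne_top_of_le_ne_top measure_closedBall_lt_top.ne h1

lemma cc_ne_zero (m : ℕ) (hm : 1 ≤ m) : cc m ≠ 0 := by
  unfold cc
  have hmeas := meas_cc m 1
  simp only [mul_one] at hmeas
  rw [Ne, lintegral_eq_zero_iff hmeas]
  intro h
  have h1 : volume {z : Fin m → ℝ | 0 < SS z ∧ SS z < 1} = 0 := by
    apply measure_mono_null _ (ae_iff.1 h)
    rintro z ⟨hz1, hz2⟩
    show ¬ (if SS z < 1 then ENNReal.ofReal (SS z) else 0) = (0 : ENNReal)
    rw [if_pos hz2, ENNReal.ofReal_eq_zero, not_le]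
    exact hz1
  have h2 : IsOpen {z : Fin m → ℝ | 0 < SS z ∧ SS z < 1} :=
    (isOpen_lt continuous_const SS_cont).inter (isOpen_lt SS_cont continuous_const)
  have h3 : {z : Fin m → ℝ | 0 < SS z ∧ SS z < 1}.Nonempty := by
    classical
    refine ⟨Pi.single ⟨0, hm⟩ (1 / 2), ?_⟩
    have : SS (Pi.single (⟨0, hm⟩ : Fin m) (1 / 2 : ℝ) : Fin m → ℝ) = 1 / 4 := by
      unfold SS
      rw [Finset.sum_eq_single (⟨0, hm⟩ : Fin m)]
      · rw [Pi.single_eq_same]
        norm_num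
      · intro b _ hb
        rw [Pi.single_eq_of_ne hb]
        norm_num
      · intro h
        exact absurd (Finset.mem_univ _) h
    rw [mem_setOf_eq, this]
    norm_num
  exact (h2.measure_pos volume h3).ne' h1

/-- The two coordinates on the sphere. -/
noncomputable def TT {n : ℕ} (u w : E n) (v : Sph n) : ℝ × ℝ :=
  (inner ℝ u (v : E n), inner ℝ w (v : E n))

lemma TT_meas {n : ℕ} (u w : E n) : Measurable (TT u w) := by
  unfold TT
  fun_prop

open scoped Pointwise in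
lemma sphere_meas (m : ℕ) (hm : 1 ≤ m) (u w : E (m + 2)) (h : Orthonormal ℝ ![u, w])
    {B : Set (ℝ × ℝ)} (hB : MeasurableSet B) :
    (volume : Measure (E (m + 2))).toSphere (TT u w ⁻¹' B) =
      ((m + 2 : ℕ) : ENNReal) * cc m * nuu m B := by
  obtain ⟨Ψ, hΨ, hx⟩ := exists_split u w h
  rw [Measure.toSphere_apply' _ (TT_meas u w hB)]
  have h1 : Ioo (0 : ℝ) 1 • ((↑) '' (TT u w ⁻¹' B) : Set (E (m + 2))) = Ψ ⁻¹' (Reg m B) := by
    ext x
    have hn : √((inner ℝ u x) ^ 2 + (inner ℝ w x) ^ 2 + SS (Ψ x).2) = ‖x‖ := by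
      rw [← (hx x).2, Real.sqrt_sq (norm_nonneg x)]
    have hr : x ∈ Ψ ⁻¹' (Reg m B) ↔ (0 < ‖x‖ ^ 2 ∧ ‖x‖ ^ 2 < 1 ∧
        (inner ℝ u x / ‖x‖, inner ℝ w x / ‖x‖) ∈ B) := by
      show (0 < (Ψ x).1.1 ^ 2 + (Ψ x).1.2 ^ 2 + SS (Ψ x).2 ∧
        (Ψ x).1.1 ^ 2 + (Ψ x).1.2 ^ 2 + SS (Ψ x).2 < 1 ∧
        ((Ψ x).1.1 / √((Ψ x).1.1 ^ 2 + (Ψ x).1.2 ^ 2 + SS (Ψ x).2),
          (Ψ x).1.2 / √((Ψ x).1.1 ^ 2 + (Ψ x).1.2 ^ 2 + SS (Ψ x).2)) ∈ B) ↔ _
      rw [(hx x).1]
      simp only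
      rw [hn, ← (hx x).2]
    rw [hr]
    constructor
    · rintro ⟨r, hr1, v', ⟨v, hv, rfl⟩, rfl⟩
      have hv1 : ‖(v : E (m + 2))‖ = 1 := by
        have := v.2
        rwa [mem_sphere_zero_iff_norm] at this
      have hr0 : 0 < r := hr1.1
      have hr2 : r < 1 := hr1.2
      have hnorm : ‖r • (v : E (m + 2))‖ = r := by
        rw [norm_smul, hv1, mul_one, Real.norm_eq_abs, abs_of_pos hr0]
      simp only
      rw [hnorm, inner_smul_right, inner_smul_right, mul_div_cancel_left₀ _ hr0.ne',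
        mul_div_cancel_left₀ _ hr0.ne']
      refine ⟨by positivity, ?_, hv⟩
      nlinarith
    · rintro ⟨h1, h2, h3⟩
      have hx0 : 0 < ‖x‖ := by
        by_contra hcon
        have : ‖x‖ = 0 := le_antisymm (not_lt.1 hcon) (norm_nonneg _)
        rw [this] at h1
        norm_num at h1
      have hx1 : ‖x‖ < 1 := by
        by_contra hcon
        nlinarith [not_lt.1 hcon]
      have hmem : ‖x‖⁻¹ • x ∈ Metric.sphere (0 : E (m + 2)) 1 := by
        rw [mem_sphere_zero_iff_norm, norm_smul, norm_inv, norm_norm,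
          inv_mul_cancel₀ hx0.ne']
      refine ⟨‖x‖, ⟨hx0, hx1⟩, ‖x‖⁻¹ • x, ⟨⟨‖x‖⁻¹ • x, hmem⟩, ?_, rfl⟩, ?_⟩
      · show TT u w _ ∈ B
        unfold TT
        simp only [inner_smul_right]
        rw [inv_mul_eq_div, inv_mul_eq_div]
        exact h3
      · simp only
        rw [smul_smul, mul_inv_cancel₀ hx0.ne', one_smul]
  rw [h1, hΨ.measure_preimage (Reg_meas m hB).nullMeasurableSet, vol_Reg m hm hB, mul_assoc]
  simp

theorem two_coord {n : ℕ} (hn : 3 ≤ n) : ∃ c : ℝ, 0 < c ∧ ∀ u w : E n, Orthonormal ℝ ![u, w] →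
    ∀ F : ℝ → ℝ → ℝ, Measurable (Function.uncurry F) → (∃ C, ∀ a b, |F a b| ≤ C) →
    ∫ v : Sph n, F (inner ℝ u (v : E n)) (inner ℝ w (v : E n)) ∂((volume : Measure (E n)).toSphere) =
      c * ∫ p : ℝ × ℝ, F (p.1 / √(1 + p.1 ^ 2 + p.2 ^ 2)) (p.2 / √(1 + p.1 ^ 2 + p.2 ^ 2)) *
        ((√(1 + p.1 ^ 2 + p.2 ^ 2)) ^ n)⁻¹ := by
  obtain ⟨m, rfl⟩ : ∃ m, n = m + 2 := ⟨n - 2, by omega⟩
  have hm : 1 ≤ m := by omega
  have hc0 : (((m + 2 : ℕ) : ENNReal) * cc m) ≠ 0 :=
    mul_ne_zero (by exact_mod_cast (by omega : m + 2 ≠ 0)) (cc_ne_zero m hm)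
  have hct : (((m + 2 : ℕ) : ENNReal) * cc m) ≠ ⊤ :=
    ENNReal.mul_ne_top (ENNReal.natCast_ne_top _) (cc_ne_top m)
  refine ⟨(((m + 2 : ℕ) : ENNReal) * cc m).toReal, ENNReal.toReal_pos hc0 hct, ?_⟩
  intro u w h F hF _
  let ν : Measure (ℝ × ℝ) :=
    ((volume : Measure (ℝ × ℝ)).withDensity
      (fun p => ENNReal.ofReal ((lam p ^ (m + 2))⁻¹))).map Phi
  have hden : Measurable fun p : ℝ × ℝ => ENNReal.ofReal ((lam p ^ (m + 2))⁻¹) :=
    (lam_meas.pow_const _).inv.ennreal_ofReal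
  have hν : (volume : Measure (E (m + 2))).toSphere.map (TT u w) =
      (((m + 2 : ℕ) : ENNReal) * cc m) • ν := by
    ext B hB
    rw [Measure.map_apply (TT_meas u w) hB, sphere_meas m hm u w h hB, Measure.smul_apply,
      smul_eq_mul, Measure.map_apply Phi_meas hB, withDensity_apply _ (Phi_meas hB),
      ← lintegral_indicator (Phi_meas hB)]
    rfl
  have h1 : ∫ v : Sph (m + 2), F (inner ℝ u (v : E (m + 2))) (inner ℝ w (v : E (m + 2)))
      ∂((volume : Measure (E (m + 2))).toSphere) =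
      ∫ q, Function.uncurry F q ∂((volume : Measure (E (m + 2))).toSphere.map (TT u w)) := by
    rw [integral_map (TT_meas u w).aemeasurable hF.aestronglyMeasurable]
    rfl
  rw [h1, hν, integral_smul_measure, smul_eq_mul]
  congr 1
  rw [integral_map Phi_meas.aemeasurable hF.aestronglyMeasurable,
    integral_withDensity_eq_integral_toReal_smul hden
      (Filter.Eventually.of_forall fun p => ENNReal.ofReal_lt_top)]
  apply integral_congr_ae
  refine Filter.Eventually.of_forall fun p => ?_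
  simp only
  rw [ENNReal.toReal_ofReal (inv_nonneg.2 (pow_nonneg (lam_pos p).le _)), smul_eq_mul, mul_comm]
  rfl

end Pool.Agent.Helper115_ME.C02

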