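import Mathlib
set_option autoImplicit false
/-!
TARGET: a one-dimensional inequality for convex functions. ρ = √(1+z²), Θ(τ) = ∫_0^1 ψ(τ s) s^n ds.
-/
namespace Pool.Agent.Helper115_ME.C03

open MeasureTheory Set

theorem line_C1_rho_one (z : ℝ) : 1 ≤ √(1 + z ^ 2) := by
  rw [Real.one_le_sqrt]
  nlinarith [sq_nonneg z]

theorem line_C1_rho_pos (z : ℝ) : 0 < √(1 + z ^ 2) := lt_of_lt_of_le one_pos (line_C1_rho_one z)

theorem line_C1_rho_sq (z : ℝ) : √(1 + z ^ 2) ^ 2 = 1 + z ^ 2 :=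
  Real.sq_sqrt (by positivity)

theorem line_C1_rho_deriv (z : ℝ) :
    HasDerivAt (fun z : ℝ => √(1 + z ^ 2)) (z / √(1 + z ^ 2)) z := by
  have h1 : HasDerivAt (fun z : ℝ => 1 + z ^ 2) (2 * z) z := by
    simpa using ((hasDerivAt_id z).pow 2).const_add 1
  have h2 := h1.sqrt (by positivity)
  convert h2 using 1
  field_simp

theorem line_C1_scale (n : ℕ) (ψ : ℝ → ℝ) (τ : ℝ) :
    ∫ r in (0 : ℝ)..τ, ψ r * r ^ n = τ ^ (n + 1) * ∫ s in (0 : ℝ)..1, ψ (τ * s) * s ^ n := by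
  have h := intervalIntegral.mul_integral_comp_mul_left (a := 0) (b := 1) (f := fun r => ψ r * r ^ n) τ
  simp only [mul_zero, mul_one] at h
  rw [← h, pow_succ', mul_assoc]
  congr 1
  rw [← intervalIntegral.integral_const_mul]
  refine intervalIntegral.integral_congr fun s _ => ?_
  change ψ (τ * s) * (τ * s) ^ n = τ ^ n * (ψ (τ * s) * s ^ n)
  rw [mul_pow]
  ring

theorem line_C1_phi_deriv (n : ℕ) (ψ : ℝ → ℝ) (hψ : Continuous ψ) (a z : ℝ) :
    HasDerivAt (fun z : ℝ => ((√(1 + z ^ 2)) ^ (n + 1))⁻¹ *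
      ∫ s in (0 : ℝ)..1, ψ (a / √(1 + z ^ 2) * s) * s ^ n)
      (-(ψ (a / √(1 + z ^ 2)) * z * ((√(1 + z ^ 2)) ^ (n + 3))⁻¹)) z := by
  have hρ := line_C1_rho_deriv z
  have hρ0 := (line_C1_rho_pos z).ne'
  rcases eq_or_ne a 0 with rfl | ha
  · have h1 : (fun z : ℝ => ((√(1 + z ^ 2)) ^ (n + 1))⁻¹ *
        ∫ s in (0 : ℝ)..1, ψ (0 / √(1 + z ^ 2) * s) * s ^ n) =
        fun z : ℝ => ((√(1 + z ^ 2)) ^ (n + 1))⁻¹ * (ψ 0 * (1 / ((n : ℝ) + 1))) := by
      funext z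
      congr 1
      simp only [zero_div, zero_mul]
      rw [intervalIntegral.integral_const_mul, integral_pow]
      simp
    rw [h1]
    have h2 := ((hρ.fun_pow (n + 1)).fun_inv (pow_ne_zero _ hρ0)).mul_const (ψ 0 * (1 / ((n : ℝ) + 1)))
    refine HasDerivAt.congr_deriv h2 ?_
    have hn : ((n : ℝ) + 1) ≠ 0 := by positivity
    simp only [zero_div, Nat.add_sub_cancel]
    push_cast
    field_simp
    ring
  · have h1 : (fun z : ℝ => ((√(1 + z ^ 2)) ^ (n + 1))⁻¹ *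
        ∫ s in (0 : ℝ)..1, ψ (a / √(1 + z ^ 2) * s) * s ^ n) =
        fun z : ℝ => (a ^ (n + 1))⁻¹ * ∫ r in (0 : ℝ)..(a / √(1 + z ^ 2)), ψ r * r ^ n := by
      funext z
      have h0 := (line_C1_rho_pos z).ne'
      rw [line_C1_scale n ψ (a / √(1 + z ^ 2)), ← mul_assoc, div_pow]
      congr 1
      field_simp
    rw [h1]
    have hc : Continuous fun r : ℝ => ψ r * r ^ n := by fun_prop
    have h2 : HasDerivAt (fun t : ℝ => ∫ r in (0 : ℝ)..t, ψ r * r ^ n)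
        (ψ (a / √(1 + z ^ 2)) * (a / √(1 + z ^ 2)) ^ n) (a / √(1 + z ^ 2)) :=
      (hc.integral_hasStrictDerivAt 0 _).hasDerivAt
    have h3 : HasDerivAt (fun z : ℝ => a / √(1 + z ^ 2))
        (-(a * (z / √(1 + z ^ 2))) / √(1 + z ^ 2) ^ 2) z := by
      have h := (hasDerivAt_const z a).fun_div hρ hρ0
      refine HasDerivAt.congr_deriv h ?_
      simp
    have h4 := (h2.comp z h3).const_mul ((a ^ (n + 1))⁻¹)
    refine HasDerivAt.congr_deriv h4 ?_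
    rw [div_pow]
    field_simp
    ring


theorem line_C1_theta_nonneg (n : ℕ) (ψ : ℝ → ℝ) (hψ0 : ∀ t ∈ Icc (-1 : ℝ) 1, 0 ≤ ψ t) (τ : ℝ)
    (hτ : τ ∈ Icc (-1 : ℝ) 1) : 0 ≤ ∫ s in (0 : ℝ)..1, ψ (τ * s) * s ^ n := by
  refine intervalIntegral.integral_nonneg zero_le_one fun s hs => ?_
  refine mul_nonneg (hψ0 _ ?_) (pow_nonneg hs.1 n)
  have h1 : |τ| ≤ 1 := abs_le.2 hτ
  have h2 : |τ * s| ≤ 1 := by
    rw [abs_mul, abs_of_nonneg hs.1]
    exact mul_le_one₀ h1 hs.1 hs.2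
  exact abs_le.1 h2

theorem line_C1_theta_le (n : ℕ) (ψ : ℝ → ℝ) (hψ : Continuous ψ) :
    ∃ C : ℝ, 0 ≤ C ∧ ∀ τ ∈ Icc (-1 : ℝ) 1, |∫ s in (0 : ℝ)..1, ψ (τ * s) * s ^ n| ≤ C := by
  obtain ⟨C, hC⟩ := (isCompact_Icc (a := (-1 : ℝ)) (b := 1)).exists_bound_of_continuousOn hψ.continuousOn
  refine ⟨C, (norm_nonneg _).trans (hC 0 (by simp)), fun τ hτ => ?_⟩
  have h := intervalIntegral.norm_integral_le_of_norm_le_const (a := (0 : ℝ)) (b := 1) (C := C)
    (f := fun s => ψ (τ * s) * s ^ n) (fun s hs => ?_)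
  · simpa using h
  · rw [uIoc_of_le zero_le_one] at hs
    have h1 : |τ| ≤ 1 := abs_le.2 hτ
    have h2 : |τ * s| ≤ 1 := by
      rw [abs_mul, abs_of_nonneg hs.1.le]
      exact mul_le_one₀ h1 hs.1.le hs.2
    have h3 := hC _ (abs_le.1 h2)
    rw [norm_mul, norm_pow, Real.norm_of_nonneg hs.1.le]
    calc ‖ψ (τ * s)‖ * s ^ n ≤ C * 1 := by
          refine mul_le_mul h3 (pow_le_one₀ hs.1.le hs.2) (pow_nonneg hs.1.le n) ?_
          exact (norm_nonneg _).trans h3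
      _ = C := mul_one C

theorem line_C1_interval {n : ℕ} (hn : 2 ≤ n) (κ : ℝ → ℝ) (hκ : ConvexOn ℝ univ κ) (hκd : ContDiff ℝ 1 κ)
    {A : ℝ} (hgrow : ∀ z, |κ z| ≤ A * (1 + |z|)) (φ φ' : ℝ → ℝ) (hφ : ∀ z, HasDerivAt φ (φ' z) z)
    (hφ'c : Continuous φ') (hφ0 : ∀ z, 0 ≤ φ z) (hφe : ∀ z, φ (-z) = φ z) {C : ℝ} (hC : 0 ≤ C)
    (hφC : ∀ z : ℝ, φ z ≤ (√(1 + z ^ 2) ^ (n + 1))⁻¹ * C) (R : ℝ) (hR : 1 ≤ R) :
    ∫ z in (-R)..R, κ z * (φ z + z * φ' z) ≤ 4 * A * C / R := by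
  have hR0 : 0 < R := lt_of_lt_of_le one_pos hR
  have hA : 0 ≤ A := by
    have := (abs_nonneg _).trans (hgrow 0)
    simpa using this
  have hφc : Continuous φ := continuous_iff_continuousAt.2 fun z => (hφ z).continuousAt
  have hκ' : ∀ z, HasDerivAt κ (deriv κ z) z := fun z =>
    (hκd.differentiable (by norm_num) z).hasDerivAt
  have hκ'c : Continuous (deriv κ) := hκd.continuous_deriv le_rfl
  have hW : ∀ z, HasDerivAt (fun z => z * φ z) (φ z + z * φ' z) z := fun z => by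
    have := (hasDerivAt_id z).fun_mul (hφ z)
    simpa using this
  have hmono : Monotone (deriv κ) := by
    have h1 := hκ.monotoneOn_deriv (fun x _ => hκd.differentiable (by norm_num) x)
    exact fun x y hxy => h1 (mem_univ x) (mem_univ y) hxy
  have hWc : Continuous fun z : ℝ => z * φ z := by fun_prop
  have hW'c : Continuous fun z : ℝ => φ z + z * φ' z := by fun_prop
  rw [intervalIntegral.integral_mul_deriv_eq_deriv_mul (fun z _ => hκ' z) (fun z _ => hW z)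
    (hκ'c.intervalIntegrable _ _) (hW'c.intervalIntegrable _ _)]
  have h1 : 0 ≤ ∫ z in (-R)..R, deriv κ z * (z * φ z) := by
    have h2 : ∫ z in (-R)..R, deriv κ 0 * (z * φ z) = 0 := by
      rw [intervalIntegral.integral_const_mul]
      have h3 : ∫ z in (-R)..R, (fun z => z * φ z) (-z) = ∫ z in (-R)..R, (fun z => z * φ z) z := by
        have := intervalIntegral.integral_comp_neg (a := -R) (b := R) (fun z : ℝ => z * φ z)
        rw [neg_neg] at this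
        exact this
      simp only [hφe, neg_mul, intervalIntegral.integral_neg] at h3
      have h4 : ∫ z in (-R)..R, z * φ z = 0 := by linarith
      rw [h4, mul_zero]
    rw [← h2]
    refine intervalIntegral.integral_mono_on (by linarith)
      ((hWc.const_mul _).intervalIntegrable _ _) ((hκ'c.mul hWc).intervalIntegrable _ _) fun z _ => ?_
    rcases le_total 0 z with hz | hz
    · exact mul_le_mul_of_nonneg_right (hmono hz) (mul_nonneg hz (hφ0 z))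
    · exact mul_le_mul_of_nonpos_right (hmono hz) (mul_nonpos_of_nonpos_of_nonneg hz (hφ0 z))
  have h2 : ∀ z, |z| = R → |κ z * (z * φ z)| ≤ 2 * A * C / R := by
    intro z hz
    rw [abs_mul, abs_mul, hz, abs_of_nonneg (hφ0 z)]
    have h3 := hgrow z
    rw [hz] at h3
    have h4 := hφC z
    have h5 : R ^ 3 ≤ √(1 + z ^ 2) ^ (n + 1) := by
      have h6 : R ≤ √(1 + z ^ 2) := by
        rw [← hz]
        apply Real.le_sqrt_of_sq_le
        rw [sq_abs]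
        linarith
      calc R ^ 3 ≤ √(1 + z ^ 2) ^ 3 := pow_le_pow_left₀ hR0.le h6 3
        _ ≤ √(1 + z ^ 2) ^ (n + 1) := pow_le_pow_right₀ (line_C1_rho_one z) (by omega)
    have h6 : φ z ≤ (R ^ 3)⁻¹ * C := h4.trans
      (mul_le_mul_of_nonneg_right (inv_anti₀ (by positivity) h5) hC)
    calc |κ z| * (R * φ z) ≤ (A * (1 + R)) * (R * ((R ^ 3)⁻¹ * C)) := by
          refine mul_le_mul h3 (mul_le_mul_of_nonneg_left h6 hR0.le) ?_ ?_
          · exact mul_nonneg hR0.le (hφ0 z)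
          · positivity
      _ ≤ (A * (R + R)) * (R * ((R ^ 3)⁻¹ * C)) := by
          refine mul_le_mul_of_nonneg_right ?_ (by positivity)
          exact mul_le_mul_of_nonneg_left (by linarith) hA
      _ = 2 * A * C / R := by
          field_simp
          ring
  have h3 := (abs_le.1 (h2 R (abs_of_pos hR0))).2
  have h4 := (abs_le.1 (h2 (-R) (by rw [abs_neg, abs_of_pos hR0]))).1
  have h5 : 4 * A * C / R = 2 * A * C / R + 2 * A * C / R := by ring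
  rw [h5]
  linarith

theorem line_C1 {n : ℕ} (hn : 2 ≤ n) (κ : ℝ → ℝ) (hκ : ConvexOn ℝ univ κ) (hκd : ContDiff ℝ 1 κ)
    (hgrow : ∃ A, ∀ z, |κ z| ≤ A * (1 + |z|)) (ψ : ℝ → ℝ) (hψ : Continuous ψ)
    (hψ0 : ∀ t ∈ Icc (-1 : ℝ) 1, 0 ≤ ψ t) (a : ℝ) (ha : |a| ≤ 1) :
    0 ≤ ∫ z : ℝ, κ z * ((ψ (a / √(1 + z ^ 2)) * (z / √(1 + z ^ 2)) ^ 2 -
      ∫ s in (0 : ℝ)..1, ψ (a / √(1 + z ^ 2) * s) * s ^ n) * ((√(1 + z ^ 2)) ^ (n + 1))⁻¹) := by
  obtain ⟨A, hA⟩ := hgrow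
  obtain ⟨C, hC, hΘ⟩ := line_C1_theta_le n ψ hψ
  have hτ : ∀ z : ℝ, a / √(1 + z ^ 2) ∈ Icc (-1 : ℝ) 1 := by
    intro z
    rw [mem_Icc, ← abs_le, abs_div, abs_of_pos (line_C1_rho_pos z)]
    exact div_le_one_of_le₀ (ha.trans (line_C1_rho_one z)) (line_C1_rho_pos z).le
  set φ : ℝ → ℝ := fun z : ℝ => ((√(1 + z ^ 2)) ^ (n + 1))⁻¹ *
      ∫ s in (0 : ℝ)..1, ψ (a / √(1 + z ^ 2) * s) * s ^ n with hφdef
  set φ' : ℝ → ℝ := fun z : ℝ => -(ψ (a / √(1 + z ^ 2)) * z * ((√(1 + z ^ 2)) ^ (n + 3))⁻¹) with hφ'def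
  have hφ : ∀ z, HasDerivAt φ (φ' z) z := fun z => line_C1_phi_deriv n ψ hψ a z
  have hρc : Continuous fun z : ℝ => √(1 + z ^ 2) := by fun_prop
  have hφ'c : Continuous φ' := by
    rw [hφ'def]
    refine ((hψ.comp (continuous_const.div hρc fun z => (line_C1_rho_pos z).ne')).mul
      continuous_id).mul ((hρc.pow _).inv₀ fun z => pow_ne_zero _ (line_C1_rho_pos z).ne') |>.neg
  have hφ0 : ∀ z, 0 ≤ φ z := fun z => mul_nonneg
    (inv_nonneg.2 (pow_nonneg (line_C1_rho_pos z).le _)) (line_C1_theta_nonneg n ψ hψ0 _ (hτ z))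
  have hφe : ∀ z, φ (-z) = φ z := fun z => by
    simp only [hφdef, neg_sq]
  have hφC : ∀ z : ℝ, φ z ≤ (√(1 + z ^ 2) ^ (n + 1))⁻¹ * C := fun z =>
    mul_le_mul_of_nonneg_left ((le_abs_self _).trans (hΘ _ (hτ z)))
      (inv_nonneg.2 (pow_nonneg (line_C1_rho_pos z).le _))
  have hI : ∀ z : ℝ, κ z * ((ψ (a / √(1 + z ^ 2)) * (z / √(1 + z ^ 2)) ^ 2 -
      ∫ s in (0 : ℝ)..1, ψ (a / √(1 + z ^ 2) * s) * s ^ n) * ((√(1 + z ^ 2)) ^ (n + 1))⁻¹) =
      -(κ z * (φ z + z * φ' z)) := by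
    intro z
    have h0 := (line_C1_rho_pos z).ne'
    simp only [hφdef, hφ'def]
    generalize (∫ s in (0 : ℝ)..1, ψ (a / √(1 + z ^ 2) * s) * s ^ n) = T
    field_simp
    ring
  simp only [hI]
  by_cases hint : Integrable (fun z => κ z * (φ z + z * φ' z)) volume
  · rw [integral_neg, neg_nonneg]
    have h1 := intervalIntegral_tendsto_integral hint (Filter.tendsto_neg_atTop_atBot (G := ℝ))
      (Filter.tendsto_id (α := ℝ))
    have h2 : Filter.Tendsto (fun R : ℝ => 4 * A * C / R) Filter.atTop (nhds 0) :=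
      tendsto_const_nhds.div_atTop Filter.tendsto_id
    refine le_of_tendsto_of_tendsto h1 h2 ?_
    filter_upwards [Filter.eventually_ge_atTop (1 : ℝ)] with R hR
    exact line_C1_interval hn κ hκ hκd hA φ φ' hφ hφ'c hφ0 hφe hC hφC R hR
  · rw [integral_neg, integral_undef hint, neg_zero]

end Pool.Agent.Helper115_ME.C03
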