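import Mathlib
set_option autoImplicit false
namespace Pool.Agent.Helper115_ME.C04

open MeasureTheory Set

noncomputable def cs (n : ℕ) (s : ℝ) : ℝ :=
  (∫ t in s..1, (t - s) * t ^ 2 * (1 - t ^ 2) ^ (((n : ℝ) - 4) / 2)) /
    ∫ t in (-1 : ℝ)..1, t ^ 2 * (1 - t ^ 2) ^ (((n : ℝ) - 4) / 2)

noncomputable def Mf (n : ℕ) (c : ℝ → ℝ) (s : ℝ) (κ : ℝ → ℝ) : ℝ :=
  c s * (∫ z : ℝ, κ z * ((√(1 + z ^ 2)) ^ (n + 1))⁻¹) +
    (∫ z in Ioi (s / √(1 - s ^ 2)), κ z * (s * ((√(1 + z ^ 2)) ^ (n + 1))⁻¹ + ((n : ℝ) - 2) * s ^ n * (z ^ (n + 1))⁻¹)) -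
    (√(1 - s ^ 2)) ^ n * κ (s / √(1 - s ^ 2))

/-! ### integrability of the weight -/

theorem w_int {n : ℕ} (hn : 3 ≤ n) :
    IntegrableOn (fun t : ℝ => (1 - t ^ 2) ^ (((n : ℝ) - 4) / 2)) (Icc (-1) 1) := by
  have hn' : (3 : ℝ) ≤ n := by exact_mod_cast hn
  have h1 : IntegrableOn (fun t : ℝ => 1 / √(1 - t ^ 2)) (Ioc (-1) 1) := by
    refine intervalIntegral.integrableOn_deriv_of_nonneg (g := Real.arcsin)
      Real.continuous_arcsin.continuousOn (fun x hx => Real.hasDerivAt_arcsin hx.1.ne' hx.2.ne)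
      (fun x _ => by positivity)
  rw [← integrableOn_Icc_iff_integrableOn_Ioc] at h1
  have h2 : IntegrableOn (fun t : ℝ => 1 / √(1 - t ^ 2) * (1 - t ^ 2) ^ (((n : ℝ) - 3) / 2))
      (Icc (-1) 1) := by
    refine h1.mul_continuousOn ?_ isCompact_Icc
    refine ContinuousOn.rpow_const (by fun_prop) fun x _ => Or.inr (by linarith)
  rw [integrableOn_Icc_iff_integrableOn_Ioo] at h2 ⊢
  refine h2.congr_fun (fun t ht => ?_) measurableSet_Ioo
  have hpos : 0 < 1 - t ^ 2 := by nlinarith [ht.1, ht.2]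
  show 1 / √(1 - t ^ 2) * (1 - t ^ 2) ^ (((n : ℝ) - 3) / 2) = (1 - t ^ 2) ^ (((n : ℝ) - 4) / 2)
  rw [Real.sqrt_eq_rpow, one_div, ← Real.rpow_neg hpos.le, ← Real.rpow_add hpos]
  congr 1
  ring

theorem w_mul_int {n : ℕ} (hn : 3 ≤ n) {g : ℝ → ℝ} (hg : Continuous g) :
    IntegrableOn (fun t : ℝ => g t * (1 - t ^ 2) ^ (((n : ℝ) - 4) / 2)) (Icc (-1) 1) :=
  (w_int hn).continuousOn_mul hg.continuousOn isCompact_Icc

theorem w_mul_intervalIntegrable {n : ℕ} (hn : 3 ≤ n) {g : ℝ → ℝ} (hg : Continuous g) {a : ℝ}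
    (ha : a ∈ Icc (-1 : ℝ) 1) :
    IntervalIntegrable (fun t : ℝ => g t * (1 - t ^ 2) ^ (((n : ℝ) - 4) / 2)) volume a 1 := by
  rw [intervalIntegrable_iff_integrableOn_Icc_of_le ha.2]
  exact (w_mul_int hn hg).mono_set (Icc_subset_Icc_left ha.1)

theorem cs_continuous {n : ℕ} (hn : 3 ≤ n) : ContinuousOn (cs n) (Icc 0 1) := by
  have hint : ∀ g : ℝ → ℝ, Continuous g → ContinuousOn (fun s : ℝ => ∫ t in s..1, g t *
      (1 - t ^ 2) ^ (((n : ℝ) - 4) / 2)) (Icc 0 1) := by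
    intro g hg
    have h := intervalIntegral.continuousOn_primitive_interval_left (μ := volume)
      (f := fun t : ℝ => g t * (1 - t ^ 2) ^ (((n : ℝ) - 4) / 2)) (a := 0) (b := 1) ?_
    · rwa [uIcc_of_le zero_le_one] at h
    · rw [uIcc_of_le zero_le_one]
      exact (w_mul_int hn hg).mono_set (Icc_subset_Icc_left (by norm_num))
  have h1 := hint (fun t => t ^ 3) (by fun_prop)
  have h2 := hint (fun t => t ^ 2) (by fun_prop)
  have h3 : ContinuousOn (fun s : ℝ => (∫ t in s..1, t ^ 3 * (1 - t ^ 2) ^ (((n : ℝ) - 4) / 2)) -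
      s * ∫ t in s..1, t ^ 2 * (1 - t ^ 2) ^ (((n : ℝ) - 4) / 2)) (Icc 0 1) :=
    h1.sub (continuousOn_id.mul h2)
  unfold cs
  refine ContinuousOn.div_const (h3.congr fun s hs => ?_) _
  have hs' : s ∈ Icc (-1 : ℝ) 1 := ⟨by linarith [hs.1], hs.2⟩
  show (∫ t in s..1, (t - s) * t ^ 2 * (1 - t ^ 2) ^ (((n : ℝ) - 4) / 2)) =
    (∫ t in s..1, t ^ 3 * (1 - t ^ 2) ^ (((n : ℝ) - 4) / 2)) -
      s * ∫ t in s..1, t ^ 2 * (1 - t ^ 2) ^ (((n : ℝ) - 4) / 2)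
  rw [← intervalIntegral.integral_const_mul, ← intervalIntegral.integral_sub
    (w_mul_intervalIntegrable hn (by fun_prop) hs')
    ((w_mul_intervalIntegrable hn (by fun_prop) hs').const_mul s)]
  refine intervalIntegral.integral_congr fun t _ => ?_
  show (t - s) * t ^ 2 * (1 - t ^ 2) ^ (((n : ℝ) - 4) / 2) =
    t ^ 3 * (1 - t ^ 2) ^ (((n : ℝ) - 4) / 2) - s * (t ^ 2 * (1 - t ^ 2) ^ (((n : ℝ) - 4) / 2))
  ring

/-! ### the integrals over `t` -/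

theorem hasDeriv_pow {p : ℝ} {t : ℝ} (ht : t ∈ Ioo (-1 : ℝ) 1) :
    HasDerivAt (fun t : ℝ => (1 - t ^ 2) ^ p) (-(2 * t * p * (1 - t ^ 2) ^ (p - 1))) t := by
  have hpos : 0 < 1 - t ^ 2 := by nlinarith [ht.1, ht.2]
  have h1 : HasDerivAt (fun t : ℝ => 1 - t ^ 2) (-(2 * t)) t := by
    have := (hasDerivAt_pow 2 t).const_sub 1
    simpa using this
  have h2 := h1.rpow_const (p := p) (Or.inl hpos.ne')
  convert h2 using 1
  ring

theorem cont_pow {p : ℝ} (hp : 0 < p) : Continuous fun t : ℝ => (1 - t ^ 2) ^ p := by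
  refine Continuous.rpow_const (by fun_prop) fun x => Or.inr hp.le

theorem int_sq {n : ℕ} (hn : 3 ≤ n) {a : ℝ} (ha : a ∈ Icc (-1 : ℝ) 1) :
    ((n : ℝ) - 2) * (∫ t in a..1, t ^ 2 * (1 - t ^ 2) ^ (((n : ℝ) - 4) / 2)) =
      (∫ t in a..1, (1 - t ^ 2) ^ (((n : ℝ) - 2) / 2)) + a * (1 - a ^ 2) ^ (((n : ℝ) - 2) / 2) := by
  have hn' : (3 : ℝ) ≤ n := by exact_mod_cast hn
  have hp : 0 < ((n : ℝ) - 2) / 2 := by linarith
  have hI1 := w_mul_intervalIntegrable hn (g := fun t => t ^ 2) (by fun_prop) ha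
  have hI2 : IntervalIntegrable (fun t : ℝ => (1 - t ^ 2) ^ (((n : ℝ) - 2) / 2)) volume a 1 :=
    (cont_pow hp).intervalIntegrable _ _
  have h := intervalIntegral.integral_eq_sub_of_hasDerivAt_of_le ha.2
    (f := fun t : ℝ => t * (1 - t ^ 2) ^ (((n : ℝ) - 2) / 2))
    (f' := fun t : ℝ => (1 - t ^ 2) ^ (((n : ℝ) - 2) / 2) -
      ((n : ℝ) - 2) * (t ^ 2 * (1 - t ^ 2) ^ (((n : ℝ) - 4) / 2)))
    ((continuous_id.mul (cont_pow hp)).continuousOn) ?_ (hI2.sub (hI1.const_mul _))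
  · rw [intervalIntegral.integral_sub hI2 (hI1.const_mul _),
      intervalIntegral.integral_const_mul] at h
    have h0 : (1 - (1 : ℝ) ^ 2) ^ (((n : ℝ) - 2) / 2) = 0 := by
      rw [one_pow, sub_self, Real.zero_rpow hp.ne']
    simp only [h0, mul_zero] at h
    linarith
  · intro t ht
    have ht' : t ∈ Ioo (-1 : ℝ) 1 := ⟨lt_of_le_of_lt ha.1 ht.1, ht.2⟩
    refine ((hasDerivAt_id t).mul (hasDeriv_pow (p := ((n : ℝ) - 2) / 2) ht')).congr_deriv ?_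
    have h2 : ((n : ℝ) - 2) / 2 - 1 = ((n : ℝ) - 4) / 2 := by ring
    rw [h2]
    simp only [id]
    ring

theorem int_cube {n : ℕ} (hn : 3 ≤ n) {a : ℝ} (ha : a ∈ Icc (-1 : ℝ) 1) :
    (∫ t in a..1, t ^ 3 * (1 - t ^ 2) ^ (((n : ℝ) - 4) / 2)) =
      (1 - a ^ 2) ^ (((n : ℝ) - 2) / 2) / ((n : ℝ) - 2) - (1 - a ^ 2) ^ ((n : ℝ) / 2) / n := by
  have hn' : (3 : ℝ) ≤ n := by exact_mod_cast hn
  have hp : 0 < ((n : ℝ) - 2) / 2 := by linarith
  have hq : 0 < (n : ℝ) / 2 := by linarith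
  have hI1 := w_mul_intervalIntegrable hn (g := fun t => t ^ 3) (by fun_prop) ha
  have h := intervalIntegral.integral_eq_sub_of_hasDerivAt_of_le ha.2
    (f := fun t : ℝ => (1 - t ^ 2) ^ ((n : ℝ) / 2) / n -
      (1 - t ^ 2) ^ (((n : ℝ) - 2) / 2) / ((n : ℝ) - 2))
    (f' := fun t : ℝ => t ^ 3 * (1 - t ^ 2) ^ (((n : ℝ) - 4) / 2))
    ((((cont_pow hq).div_const _).sub ((cont_pow hp).div_const _)).continuousOn) ?_ hI1
  · rw [h]
    have h0 : (1 - (1 : ℝ) ^ 2) ^ (((n : ℝ) - 2) / 2) = 0 := by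
      rw [one_pow, sub_self, Real.zero_rpow hp.ne']
    have h1 : (1 - (1 : ℝ) ^ 2) ^ ((n : ℝ) / 2) = 0 := by
      rw [one_pow, sub_self, Real.zero_rpow hq.ne']
    simp only [h0, h1]
    ring
  · intro t ht
    have ht' : t ∈ Ioo (-1 : ℝ) 1 := ⟨lt_of_le_of_lt ha.1 ht.1, ht.2⟩
    have hpos : 0 < 1 - t ^ 2 := by nlinarith [ht'.1, ht'.2]
    refine (((hasDeriv_pow (p := (n : ℝ) / 2) ht').div_const (n : ℝ)).sub
      ((hasDeriv_pow (p := ((n : ℝ) - 2) / 2) ht').div_const ((n : ℝ) - 2))).congr_deriv ?_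
    have h2 : ((n : ℝ) - 2) / 2 - 1 = ((n : ℝ) - 4) / 2 := by ring
    have h3 : (n : ℝ) / 2 - 1 = ((n : ℝ) - 4) / 2 + 1 := by ring
    rw [h2, h3, Real.rpow_add hpos, Real.rpow_one]
    have h4 : (n : ℝ) ≠ 0 := by linarith
    have h5 : (n : ℝ) - 2 ≠ 0 := by linarith
    field_simp
    ring

theorem int_pos {n : ℕ} (hn : 3 ≤ n) :
    0 < ∫ t in (-1 : ℝ)..1, (1 - t ^ 2) ^ (((n : ℝ) - 2) / 2) := by
  have hn' : (3 : ℝ) ≤ n := by exact_mod_cast hn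
  have hp : 0 < ((n : ℝ) - 2) / 2 := by linarith
  refine intervalIntegral.intervalIntegral_pos_of_pos_on ((cont_pow hp).intervalIntegrable _ _)
    (fun t ht => ?_) (by norm_num)
  have hpos : 0 < 1 - t ^ 2 := by nlinarith [ht.1, ht.2]
  positivity

/-- (*) -/
theorem cs_mul {n : ℕ} (hn : 3 ≤ n) {s : ℝ} (hs : s ∈ Ioo (0 : ℝ) 1) :
    cs n s * (∫ t in (-1 : ℝ)..1, (1 - t ^ 2) ^ (((n : ℝ) - 2) / 2)) =
      2 / n * (1 - s ^ 2) ^ ((n : ℝ) / 2) - s * ∫ t in s..1, (1 - t ^ 2) ^ (((n : ℝ) - 2) / 2) := by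
  have hn' : (3 : ℝ) ≤ n := by exact_mod_cast hn
  have hn2 : (n : ℝ) - 2 ≠ 0 := by linarith
  have hn0 : (n : ℝ) ≠ 0 := by linarith
  have hs' : s ∈ Icc (-1 : ℝ) 1 := ⟨by linarith [hs.1], hs.2.le⟩
  have hpos : 0 < 1 - s ^ 2 := by nlinarith [hs.1, hs.2]
  have hnum : (∫ t in s..1, (t - s) * t ^ 2 * (1 - t ^ 2) ^ (((n : ℝ) - 4) / 2)) =
      (∫ t in s..1, t ^ 3 * (1 - t ^ 2) ^ (((n : ℝ) - 4) / 2)) -
        s * ∫ t in s..1, t ^ 2 * (1 - t ^ 2) ^ (((n : ℝ) - 4) / 2) := by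
    rw [← intervalIntegral.integral_const_mul, ← intervalIntegral.integral_sub
      (w_mul_intervalIntegrable hn (by fun_prop) hs')
      ((w_mul_intervalIntegrable hn (by fun_prop) hs').const_mul s)]
    refine intervalIntegral.integral_congr fun t _ => ?_
    show (t - s) * t ^ 2 * (1 - t ^ 2) ^ (((n : ℝ) - 4) / 2) =
      t ^ 3 * (1 - t ^ 2) ^ (((n : ℝ) - 4) / 2) - s * (t ^ 2 * (1 - t ^ 2) ^ (((n : ℝ) - 4) / 2))
    ring
  have h1 := int_sq hn hs'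
  have h2 := int_sq hn (a := -1) ⟨le_rfl, by norm_num⟩
  have h3 := int_cube hn hs'
  have h4 : (1 - (-1 : ℝ) ^ 2) ^ (((n : ℝ) - 2) / 2) = 0 := by
    rw [show (1 - (-1 : ℝ) ^ 2) = 0 by norm_num, Real.zero_rpow (by
      have : 0 < ((n : ℝ) - 2) / 2 := by linarith
      exact this.ne')]
  rw [h4, mul_zero, add_zero] at h2
  have hI := int_pos hn
  have hD : (∫ t in (-1 : ℝ)..1, t ^ 2 * (1 - t ^ 2) ^ (((n : ℝ) - 4) / 2)) ≠ 0 := by
    intro h0
    rw [h0, mul_zero] at h2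
    exact hI.ne h2
  have h5 : (1 - s ^ 2) ^ ((n : ℝ) / 2) = (1 - s ^ 2) ^ (((n : ℝ) - 2) / 2) * (1 - s ^ 2) := by
    rw [show (n : ℝ) / 2 = ((n : ℝ) - 2) / 2 + 1 by ring, Real.rpow_add hpos, Real.rpow_one]
  unfold cs
  rw [← h2, hnum, h3]
  set A := ∫ t in s..1, t ^ 2 * (1 - t ^ 2) ^ (((n : ℝ) - 4) / 2) with hA
  set B := ∫ t in s..1, (1 - t ^ 2) ^ (((n : ℝ) - 2) / 2) with hB
  set D := ∫ t in (-1 : ℝ)..1, t ^ 2 * (1 - t ^ 2) ^ (((n : ℝ) - 4) / 2) with hDD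
  set P := (1 - s ^ 2) ^ (((n : ℝ) - 2) / 2) with hP
  rw [h5]
  have h6 : B = ((n : ℝ) - 2) * A - s * P := by linarith
  rw [h6]
  field_simp
  ring

/-! ### the integrals over `z` -/

theorem rho_pos (z : ℝ) : 0 < √(1 + z ^ 2) := Real.sqrt_pos.2 (by positivity)

theorem rho_sq (z : ℝ) : √(1 + z ^ 2) ^ 2 = 1 + z ^ 2 := Real.sq_sqrt (by positivity)

theorem one_le_rho (z : ℝ) : 1 ≤ √(1 + z ^ 2) := by
  rw [Real.one_le_sqrt]
  nlinarith [sq_nonneg z]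

theorem abs_le_rho (z : ℝ) : |z| ≤ √(1 + z ^ 2) := by
  apply Real.abs_le_sqrt
  linarith

theorem hasDeriv_rho (z : ℝ) : HasDerivAt (fun z : ℝ => √(1 + z ^ 2)) (z / √(1 + z ^ 2)) z := by
  have h1 : HasDerivAt (fun z : ℝ => 1 + z ^ 2) (2 * z) z := by
    have := (hasDerivAt_pow 2 z).const_add 1
    simpa using this
  refine (h1.sqrt (by positivity)).congr_deriv ?_
  have := rho_pos z
  field_simp

theorem hasDeriv_T (z : ℝ) :
    HasDerivAt (fun z : ℝ => z / √(1 + z ^ 2)) ((√(1 + z ^ 2) ^ 3)⁻¹) z := by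
  have hr := rho_pos z
  refine ((hasDerivAt_id z).div (hasDeriv_rho z) hr.ne').congr_deriv ?_
  simp only [id]
  have h2 := rho_sq z
  field_simp
  rw [h2]
  ring

theorem T_mem (z : ℝ) : z / √(1 + z ^ 2) ∈ Ioo (-1 : ℝ) 1 := by
  have hr := rho_pos z
  have h2 := rho_sq z
  have h3 : |z| < √(1 + z ^ 2) := by
    rw [← Real.sqrt_sq_eq_abs]
    exact Real.sqrt_lt_sqrt (sq_nonneg z) (by linarith)
  rw [abs_lt] at h3
  constructor
  · rw [lt_div_iff₀ hr]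
    linarith [h3.1]
  · rw [div_lt_one hr]
    exact h3.2

theorem T_pow {n : ℕ} (hn : 3 ≤ n) (z : ℝ) :
    (1 - (z / √(1 + z ^ 2)) ^ 2) ^ (((n : ℝ) - 2) / 2) * (√(1 + z ^ 2) ^ 3)⁻¹ =
      (√(1 + z ^ 2) ^ (n + 1))⁻¹ := by
  have hr := rho_pos z
  have h2 := rho_sq z
  have h3 : 1 - (z / √(1 + z ^ 2)) ^ 2 = (√(1 + z ^ 2) ^ 2)⁻¹ := by
    rw [div_pow, h2]
    field_simp
    ring
  rw [h3, Real.inv_rpow (by positivity), ← Real.rpow_natCast (√(1 + z ^ 2)) 2,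
    ← Real.rpow_mul hr.le, ← mul_inv]
  congr 1
  have h4 : ((2 : ℕ) : ℝ) * (((n : ℝ) - 2) / 2) = ((n - 2 : ℕ) : ℝ) := by
    rw [Nat.cast_sub (by omega)]
    push_cast
    ring
  rw [h4, Real.rpow_natCast, ← pow_add]
  congr 1
  omega

noncomputable def G (n : ℕ) (x : ℝ) : ℝ := ∫ t in (0 : ℝ)..x, (1 - t ^ 2) ^ (((n : ℝ) - 2) / 2)

theorem G_hasDeriv {n : ℕ} (hn : 3 ≤ n) (x : ℝ) :
    HasDerivAt (G n) ((1 - x ^ 2) ^ (((n : ℝ) - 2) / 2)) x := by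
  have hn' : (3 : ℝ) ≤ n := by exact_mod_cast hn
  have hp : 0 < ((n : ℝ) - 2) / 2 := by linarith
  exact intervalIntegral.integral_hasDerivAt_right ((cont_pow hp).intervalIntegrable _ _)
    ((cont_pow hp).stronglyMeasurableAtFilter _ _) (cont_pow hp).continuousAt

theorem GT_hasDeriv {n : ℕ} (hn : 3 ≤ n) (z : ℝ) :
    HasDerivAt (fun z : ℝ => G n (z / √(1 + z ^ 2))) ((√(1 + z ^ 2) ^ (n + 1))⁻¹) z := by
  have h := (G_hasDeriv hn (z / √(1 + z ^ 2))).comp z (hasDeriv_T z)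
  exact h.congr_deriv (T_pow hn z)

theorem T_tendsto_top : Filter.Tendsto (fun z : ℝ => z / √(1 + z ^ 2)) Filter.atTop (nhds 1) := by
  have h1 : Filter.Tendsto (fun z : ℝ => (√(1 + (z⁻¹) ^ 2))⁻¹) Filter.atTop (nhds 1) := by
    have h2 : Filter.Tendsto (fun z : ℝ => (√(1 + (z⁻¹) ^ 2))⁻¹) Filter.atTop
        (nhds ((√(1 + (0 : ℝ) ^ 2))⁻¹)) := by
      refine Filter.Tendsto.inv₀ ?_ (by simp)
      exact ((tendsto_inv_atTop_zero.pow 2).const_add 1).sqrt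
    simpa using h2
  refine h1.congr' ?_
  filter_upwards [Filter.eventually_gt_atTop 0] with z hz
  have h3 : 1 + z ^ 2 = z ^ 2 * (1 + (z⁻¹) ^ 2) := by
    field_simp
    ring
  rw [h3, Real.sqrt_mul (by positivity), Real.sqrt_sq hz.le]
  have h4 : 0 < √(1 + (z⁻¹) ^ 2) := Real.sqrt_pos.2 (by positivity)
  field_simp

theorem T_tendsto_bot :
    Filter.Tendsto (fun z : ℝ => z / √(1 + z ^ 2)) Filter.atBot (nhds (-1)) := by
  have h := (T_tendsto_top.comp Filter.tendsto_neg_atBot_atTop).neg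
  refine h.congr fun z => ?_
  simp only [Function.comp]
  rw [neg_sq, neg_div, neg_neg]

/-- bound by `(1 + z ^ 2)⁻¹` -/
theorem one_add_abs_mul_le {n : ℕ} (hn : 3 ≤ n) (z : ℝ) :
    (1 + |z|) * (√(1 + z ^ 2) ^ (n + 1))⁻¹ ≤ 2 * (1 + z ^ 2)⁻¹ := by
  have hr := rho_pos z
  have h1 := one_le_rho z
  have h2 := abs_le_rho z
  have h3 : 1 + |z| ≤ 2 * √(1 + z ^ 2) := by linarith
  have h4 : √(1 + z ^ 2) ^ 3 ≤ √(1 + z ^ 2) ^ n := pow_le_pow_right₀ h1 hn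
  calc (1 + |z|) * (√(1 + z ^ 2) ^ (n + 1))⁻¹
      ≤ 2 * √(1 + z ^ 2) * (√(1 + z ^ 2) ^ (n + 1))⁻¹ :=
        mul_le_mul_of_nonneg_right h3 (by positivity)
    _ = 2 * (√(1 + z ^ 2) ^ n)⁻¹ := by
        rw [pow_succ (√(1 + z ^ 2)) n, mul_inv]
        field_simp
    _ ≤ 2 * (√(1 + z ^ 2) ^ 2)⁻¹ := by
        have h5 : √(1 + z ^ 2) ^ 2 ≤ √(1 + z ^ 2) ^ n := pow_le_pow_right₀ h1 (by omega)
        have h6 := inv_anti₀ (by positivity) h5
        linarith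
    _ = 2 * (1 + z ^ 2)⁻¹ := by rw [rho_sq]

theorem int_rho {n : ℕ} (hn : 3 ≤ n) {φ : ℝ → ℝ} (hφ : Continuous φ) {A : ℝ}
    (hA : ∀ z, |φ z| ≤ A * (1 + |z|)) :
    Integrable (fun z : ℝ => φ z * (√(1 + z ^ 2) ^ (n + 1))⁻¹) := by
  have hA0 : 0 ≤ A := by
    have := hA 0
    have h2 := abs_nonneg (φ 0)
    simp at this
    linarith
  refine Integrable.mono' (g := fun z : ℝ => A * (2 * (1 + z ^ 2)⁻¹))
    ((integrable_inv_one_add_sq.const_mul 2).const_mul A) ?_ ?_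
  · refine Continuous.aestronglyMeasurable ?_
    refine hφ.mul (Continuous.inv₀ (by fun_prop) fun z => (pow_pos (rho_pos z) _).ne')
  · refine Filter.Eventually.of_forall fun z => ?_
    rw [Real.norm_eq_abs, abs_mul, abs_of_pos (inv_pos.2 (pow_pos (rho_pos z) (n + 1)))]
    calc |φ z| * (√(1 + z ^ 2) ^ (n + 1))⁻¹
        ≤ A * (1 + |z|) * (√(1 + z ^ 2) ^ (n + 1))⁻¹ :=
          mul_le_mul_of_nonneg_right (hA z) (inv_pos.2 (pow_pos (rho_pos z) (n + 1))).le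
      _ = A * ((1 + |z|) * (√(1 + z ^ 2) ^ (n + 1))⁻¹) := by ring
      _ ≤ A * (2 * (1 + z ^ 2)⁻¹) := mul_le_mul_of_nonneg_left (one_add_abs_mul_le hn z) hA0

theorem int_zpow {c : ℝ} (hc : 0 < c) {m : ℕ} (hm : 1 < m) :
    IntegrableOn (fun z : ℝ => (z ^ m)⁻¹) (Ioi c) := by
  have hm' : (1 : ℝ) < m := by exact_mod_cast hm
  have h := integrableOn_Ioi_rpow_of_lt (a := -(m : ℝ)) (by linarith) hc
  refine h.congr_fun (fun z hz => ?_) measurableSet_Ioi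
  have hz' : (0 : ℝ) < z := hc.trans hz
  show z ^ (-(m : ℝ)) = (z ^ m)⁻¹
  rw [Real.rpow_neg hz'.le, Real.rpow_natCast]

theorem val_zpow {c : ℝ} (hc : 0 < c) {m : ℕ} (hm : 1 < m) :
    ∫ z in Ioi c, (z ^ m)⁻¹ = (c ^ (m - 1))⁻¹ / ((m : ℝ) - 1) := by
  have hm' : (1 : ℝ) < m := by exact_mod_cast hm
  have h := integral_Ioi_rpow_of_lt (a := -(m : ℝ)) (by linarith) hc
  have h1 : ∫ z in Ioi c, (z ^ m)⁻¹ = ∫ z in Ioi c, z ^ (-(m : ℝ)) := by
    refine setIntegral_congr_fun measurableSet_Ioi fun z hz => ?_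
    have hz' : (0 : ℝ) < z := hc.trans hz
    show (z ^ m)⁻¹ = z ^ (-(m : ℝ))
    rw [Real.rpow_neg hz'.le, Real.rpow_natCast]
  rw [h1, h]
  have h2 : -(m : ℝ) + 1 = -((m - 1 : ℕ) : ℝ) := by
    rw [Nat.cast_sub hm.le]
    push_cast
    ring
  have h3 : (m : ℝ) - 1 = ((m - 1 : ℕ) : ℝ) := by
    rw [Nat.cast_sub hm.le]
    push_cast
    ring
  rw [h2, Real.rpow_neg hc.le, Real.rpow_natCast, h3, neg_div_neg_eq]

theorem int_Ioi_zpow {n : ℕ} (hn : 3 ≤ n) {φ : ℝ → ℝ} (hφ : Continuous φ) {A : ℝ}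
    (hA : ∀ z, |φ z| ≤ A * (1 + |z|)) {c : ℝ} (hc : 0 < c) :
    IntegrableOn (fun z : ℝ => φ z * (z ^ (n + 1))⁻¹) (Ioi c) := by
  have hA0 : 0 ≤ A := by
    have := hA 0
    have h2 := abs_nonneg (φ 0)
    simp at this
    linarith
  refine Integrable.mono' (g := fun z : ℝ => A * (1 / c + 1) * (z ^ n)⁻¹)
    ((int_zpow hc (by omega : 1 < n)).const_mul _) ?_ ?_
  · refine ContinuousOn.aestronglyMeasurable ?_ measurableSet_Ioi
    refine hφ.continuousOn.mul (ContinuousOn.inv₀ (by fun_prop) fun z hz => ?_)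
    exact (pow_pos (hc.trans hz) _).ne'
  · refine (ae_restrict_iff' measurableSet_Ioi).2 (Filter.Eventually.of_forall fun z hz => ?_)
    have hz' : (0 : ℝ) < z := hc.trans hz
    have hz2 : c < z := hz
    rw [Real.norm_eq_abs, abs_mul, abs_of_pos (inv_pos.2 (pow_pos hz' (n + 1)))]
    have h1 : 1 + |z| ≤ (1 / c + 1) * z := by
      rw [abs_of_pos hz']
      have : 1 ≤ 1 / c * z := by
        rw [one_div, ← div_eq_inv_mul, one_le_div hc]
        exact hz2.le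
      linarith
    calc |φ z| * (z ^ (n + 1))⁻¹ ≤ A * (1 + |z|) * (z ^ (n + 1))⁻¹ :=
          mul_le_mul_of_nonneg_right (hA z) (by positivity)
      _ ≤ A * ((1 / c + 1) * z) * (z ^ (n + 1))⁻¹ :=
          mul_le_mul_of_nonneg_right (mul_le_mul_of_nonneg_left h1 hA0) (by positivity)
      _ = A * (1 / c + 1) * (z ^ n)⁻¹ := by
          rw [pow_succ]
          field_simp

/-- `∫_ℝ ρ^(-(n+1)) = ∫_{-1}^1 (1-t²)^((n-2)/2)` -/
theorem val_rho {n : ℕ} (hn : 3 ≤ n) : ∫ z : ℝ, (√(1 + z ^ 2) ^ (n + 1))⁻¹ =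
    ∫ t in (-1 : ℝ)..1, (1 - t ^ 2) ^ (((n : ℝ) - 2) / 2) := by
  have hn' : (3 : ℝ) ≤ n := by exact_mod_cast hn
  have hp : 0 < ((n : ℝ) - 2) / 2 := by linarith
  have hint : Integrable (fun z : ℝ => (√(1 + z ^ 2) ^ (n + 1))⁻¹) := by
    have := int_rho hn (φ := fun _ => 1) continuous_const (A := 1) (fun z => by
      rw [abs_one]
      linarith [abs_nonneg z])
    simpa using this
  have hG : Continuous (G n) :=
    continuous_iff_continuousAt.2 fun x => (G_hasDeriv hn x).continuousAt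
  rw [integral_of_hasDerivAt_of_tendsto (GT_hasDeriv hn) hint
    ((hG.tendsto (-1)).comp T_tendsto_bot) ((hG.tendsto 1).comp T_tendsto_top)]
  unfold G
  rw [intervalIntegral.integral_interval_sub_left ((cont_pow hp).intervalIntegrable _ _)
    ((cont_pow hp).intervalIntegrable _ _)]

theorem val_Ioi_rho {n : ℕ} (hn : 3 ≤ n) (c : ℝ) :
    ∫ z in Ioi c, (√(1 + z ^ 2) ^ (n + 1))⁻¹ =
      ∫ t in (c / √(1 + c ^ 2))..1, (1 - t ^ 2) ^ (((n : ℝ) - 2) / 2) := by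
  have hn' : (3 : ℝ) ≤ n := by exact_mod_cast hn
  have hp : 0 < ((n : ℝ) - 2) / 2 := by linarith
  have hint : Integrable (fun z : ℝ => (√(1 + z ^ 2) ^ (n + 1))⁻¹) := by
    have := int_rho hn (φ := fun _ => 1) continuous_const (A := 1) (fun z => by
      rw [abs_one]
      linarith [abs_nonneg z])
    simpa using this
  have hG : Continuous (G n) :=
    continuous_iff_continuousAt.2 fun x => (G_hasDeriv hn x).continuousAt
  rw [integral_Ioi_of_hasDerivAt_of_tendsto (GT_hasDeriv hn c).continuousAt.continuousWithinAt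
    (fun z _ => GT_hasDeriv hn z) hint.integrableOn ((hG.tendsto 1).comp T_tendsto_top)]
  unfold G
  rw [intervalIntegral.integral_interval_sub_left ((cont_pow hp).intervalIntegrable _ _)
    ((cont_pow hp).intervalIntegrable _ _)]

theorem val_z_rho {n : ℕ} : ∫ z : ℝ, z * (√(1 + z ^ 2) ^ (n + 1))⁻¹ = 0 := by
  have h := integral_neg_eq_self (fun z : ℝ => z * (√(1 + z ^ 2) ^ (n + 1))⁻¹) volume
  simp only [neg_sq, neg_mul] at h
  rw [integral_neg] at h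
  linarith

theorem val_Ioi_z_rho {n : ℕ} (hn : 3 ≤ n) (c : ℝ) :
    ∫ z in Ioi c, z * (√(1 + z ^ 2) ^ (n + 1))⁻¹ =
      (√(1 + c ^ 2) ^ (n - 1))⁻¹ / ((n : ℝ) - 1) := by
  have hn' : (3 : ℝ) ≤ n := by exact_mod_cast hn
  have hint : Integrable (fun z : ℝ => z * (√(1 + z ^ 2) ^ (n + 1))⁻¹) :=
    int_rho hn (φ := fun z => z) continuous_id (A := 1) (fun z => by linarith [abs_nonneg z])
  have hd : ∀ z : ℝ, HasDerivAt (fun z : ℝ => -((√(1 + z ^ 2) ^ (n - 1))⁻¹ / ((n : ℝ) - 1)))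
      (z * (√(1 + z ^ 2) ^ (n + 1))⁻¹) z := by
    intro z
    have hr := rho_pos z
    have h1 := (((hasDeriv_rho z).pow (n - 1)).inv (pow_pos hr _).ne').div_const ((n : ℝ) - 1)
    refine h1.neg.congr_deriv ?_
    obtain ⟨m, rfl⟩ : ∃ m, n = m + 2 := ⟨n - 2, by omega⟩
    simp only [show m + 2 - 1 = m + 1 by omega, show m + 1 - 1 = m by omega,
      show m + 2 + 1 = m + 3 by omega]
    have h5 : ((m + 2 : ℕ) : ℝ) - 1 = ((m + 1 : ℕ) : ℝ) := by
      push_cast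
      ring
    rw [h5]
    have h6 : ((m + 1 : ℕ) : ℝ) ≠ 0 := by positivity
    simp only [Pi.pow_apply]
    field_simp
    ring
  have ht : Filter.Tendsto (fun z : ℝ => -((√(1 + z ^ 2) ^ (n - 1))⁻¹ / ((n : ℝ) - 1)))
      Filter.atTop (nhds (-(0 / ((n : ℝ) - 1)))) := by
    refine Filter.Tendsto.neg (Filter.Tendsto.div_const ?_ _)
    refine Filter.Tendsto.inv_tendsto_atTop ?_
    refine (Filter.tendsto_pow_atTop (by omega)).comp ?_
    refine Filter.tendsto_atTop_mono (fun z => (le_abs_self z).trans (abs_le_rho z))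
      Filter.tendsto_id
  rw [integral_Ioi_of_hasDerivAt_of_tendsto (hd c).continuousAt.continuousWithinAt
    (fun z _ => hd z) hint.integrableOn ht]
  ring

/-! ### supporting line -/

theorem support_line {κ : ℝ → ℝ} (hκ : ConvexOn ℝ univ κ) (x : ℝ) :
    ∃ b : ℝ, ∀ z, κ x + b * (z - x) ≤ κ z := by
  have hi : ∀ y : ℝ, y ∈ interior (univ : Set ℝ) := fun y => by simp
  refine ⟨derivWithin κ (Ioi x) x, fun z => ?_⟩
  rcases lt_trichotomy z x with h | h | h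
  · have h1 := hκ.slope_le_leftDeriv_of_mem_interior (mem_univ z) (hi x) h
    have h2 := hκ.leftDeriv_le_rightDeriv_of_mem_interior (hi x)
    have h3 := h1.trans h2
    rw [slope_def_field, div_le_iff₀ (by linarith)] at h3
    linarith
  · rw [h]
    linarith
  · have h1 := hκ.rightDeriv_le_slope_of_mem_interior (hi x) (mem_univ z) h
    rw [slope_def_field, le_div_iff₀ (by linarith)] at h1
    linarith

theorem Mf_nonneg {n : ℕ} (hn : 3 ≤ n) {s : ℝ} (hs : s ∈ Ioo (0 : ℝ) 1) (κ : ℝ → ℝ) (hκ : ConvexOn ℝ univ κ)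
    (hgrow : ∃ A, ∀ z, |κ z| ≤ A * (1 + |z|)) : 0 ≤ Mf n (cs n) s κ := by
  have hn' : (3 : ℝ) ≤ n := by exact_mod_cast hn
  have hp : 0 < ((n : ℝ) - 2) / 2 := by linarith
  obtain ⟨A, hA⟩ := hgrow
  have hc : Continuous κ := by
    rw [← continuousOn_univ]
    exact hκ.continuousOn isOpen_univ
  have hs1 : 0 < s := hs.1
  have hpos : 0 < 1 - s ^ 2 := by nlinarith [hs.1, hs.2]
  have hr : 0 < √(1 - s ^ 2) := Real.sqrt_pos.2 hpos
  have hr2 : √(1 - s ^ 2) ^ 2 = 1 - s ^ 2 := Real.sq_sqrt hpos.le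
  have hz0 : 0 < s / √(1 - s ^ 2) := div_pos hs1 hr
  obtain ⟨b, hb⟩ := support_line hκ (s / √(1 - s ^ 2))
  -- `ρ (z_s) = 1 / √(1 - s ^ 2)`
  have hρ : √(1 + (s / √(1 - s ^ 2)) ^ 2) = (√(1 - s ^ 2))⁻¹ := by
    have h1 : 1 + (s / √(1 - s ^ 2)) ^ 2 = ((√(1 - s ^ 2))⁻¹) ^ 2 := by
      rw [div_pow, inv_pow, hr2]
      field_simp
      ring
    rw [h1, Real.sqrt_sq (inv_pos.2 hr).le]
  -- the two functions `κ` and the affine one
  set zs := s / √(1 - s ^ 2) with hzs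
  set r := √(1 - s ^ 2) with hrdef
  obtain ⟨c, hcdef⟩ : ∃ c, c = κ zs - b * zs := ⟨_, rfl⟩
  have hline : ∀ z, c + b * z ≤ κ z := by
    intro z
    have := hb z
    rw [hcdef]
    linarith
  -- weights
  obtain ⟨W, hW⟩ : ∃ W : ℝ → ℝ, W = fun z => (√(1 + z ^ 2) ^ (n + 1))⁻¹ := ⟨_, rfl⟩
  have hWz : ∀ z, (√(1 + z ^ 2) ^ (n + 1))⁻¹ = W z := fun z => by rw [hW]
  have hWpos : ∀ z, 0 < W z := fun z => by
    rw [hW]
    exact inv_pos.2 (pow_pos (rho_pos z) _)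
  have iκ : Integrable (fun z => κ z * W z) := by rw [hW]; exact int_rho hn hc hA
  have i1 : Integrable (fun z => W z) := by
    have := int_rho hn (φ := fun _ => 1) continuous_const (A := 1) (fun z => by
      rw [abs_one]
      linarith [abs_nonneg z])
    rw [hW]
    simpa using this
  have iz : Integrable (fun z => z * W z) := by
    rw [hW]
    exact int_rho hn (φ := fun z => z) continuous_id (A := 1) (fun z => by linarith [abs_nonneg z])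
  have jκ : IntegrableOn (fun z => κ z * (z ^ (n + 1))⁻¹) (Ioi zs) := int_Ioi_zpow hn hc hA hz0
  have j1 : IntegrableOn (fun z : ℝ => (z ^ (n + 1))⁻¹) (Ioi zs) := int_zpow hz0 (by omega)
  have jz : IntegrableOn (fun z : ℝ => z * (z ^ (n + 1))⁻¹) (Ioi zs) :=
    int_Ioi_zpow hn (φ := fun z => z) continuous_id (A := 1) (fun z => by linarith [abs_nonneg z]) hz0
  -- values
  have v1 : ∫ z, W z = ∫ t in (-1 : ℝ)..1, (1 - t ^ 2) ^ (((n : ℝ) - 2) / 2) := by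
    rw [hW]; exact val_rho hn
  have vz : ∫ z, z * W z = 0 := by rw [hW]; exact val_z_rho
  have hT : zs / √(1 + zs ^ 2) = s := by
    rw [hρ, hzs]
    field_simp
  have u1 : ∫ z in Ioi zs, W z = ∫ t in s..1, (1 - t ^ 2) ^ (((n : ℝ) - 2) / 2) := by
    rw [hW, val_Ioi_rho hn, hT]
  have uz : ∫ z in Ioi zs, z * W z = r ^ (n - 1) / ((n : ℝ) - 1) := by
    rw [hW, val_Ioi_z_rho hn, hρ, inv_pow, inv_inv]
  have t1 : ∫ z in Ioi zs, (z ^ (n + 1))⁻¹ = (zs ^ n)⁻¹ / n := by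
    rw [val_zpow hz0 (by omega)]
    push_cast
    simp
  have tz : ∫ z in Ioi zs, z * (z ^ (n + 1))⁻¹ = (zs ^ (n - 1))⁻¹ / ((n : ℝ) - 1) := by
    rw [← val_zpow hz0 (by omega : 1 < n)]
    refine setIntegral_congr_fun measurableSet_Ioi fun z hz => ?_
    have hz' : (0 : ℝ) < z := hz0.trans hz
    show z * (z ^ (n + 1))⁻¹ = (z ^ n)⁻¹
    rw [pow_succ]
    field_simp
  have hpow : (1 - s ^ 2) ^ ((n : ℝ) / 2) = r ^ n := by
    rw [← hr2, ← Real.rpow_natCast r 2, ← Real.rpow_mul hr.le, ← Real.rpow_natCast r n]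
    congr 1
    push_cast
    ring
  have hcs := cs_mul hn hs
  rw [← v1, ← u1, hpow] at hcs
  have hcs0 : 0 ≤ cs n s := by
    unfold cs
    refine div_nonneg ?_ ?_
    · refine intervalIntegral.integral_nonneg hs.2.le fun t ht => ?_
      have h1 : 0 ≤ 1 - t ^ 2 := by nlinarith [ht.1, ht.2]
      have h2 : 0 ≤ t - s := by linarith [ht.1]
      positivity
    · refine intervalIntegral.integral_nonneg (by norm_num) fun t ht => ?_
      have h1 : 0 ≤ 1 - t ^ 2 := by nlinarith [ht.1, ht.2]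
      positivity
  -- inequalities between the integrals
  have e1 : c * (∫ z, W z) + b * (∫ z, z * W z) ≤ ∫ z, κ z * W z := by
    rw [← integral_const_mul, ← integral_const_mul, ← integral_add (i1.const_mul c) (iz.const_mul b)]
    refine integral_mono ((i1.const_mul c).add (iz.const_mul b)) iκ fun z => ?_
    show c * W z + b * (z * W z) ≤ κ z * W z
    have := mul_le_mul_of_nonneg_right (hline z) (hWpos z).le
    linarith
  have e2 : c * (∫ z in Ioi zs, W z) + b * (∫ z in Ioi zs, z * W z) ≤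
      ∫ z in Ioi zs, κ z * W z := by
    rw [← integral_const_mul, ← integral_const_mul,
      ← integral_add (i1.integrableOn.const_mul c) (iz.integrableOn.const_mul b)]
    refine integral_mono ((i1.integrableOn.const_mul c).add (iz.integrableOn.const_mul b))
      iκ.integrableOn fun z => ?_
    show c * W z + b * (z * W z) ≤ κ z * W z
    have := mul_le_mul_of_nonneg_right (hline z) (hWpos z).le
    linarith
  have e3 : c * (∫ z in Ioi zs, (z ^ (n + 1))⁻¹) + b * (∫ z in Ioi zs, z * (z ^ (n + 1))⁻¹) ≤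
      ∫ z in Ioi zs, κ z * (z ^ (n + 1))⁻¹ := by
    rw [← integral_const_mul, ← integral_const_mul,
      ← integral_add (j1.const_mul c) (jz.const_mul b)]
    refine setIntegral_mono_on ((j1.const_mul c).add (jz.const_mul b)) jκ measurableSet_Ioi
      fun z hz => ?_
    have hz' : (0 : ℝ) < z := hz0.trans hz
    have h1 : 0 ≤ (z ^ (n + 1))⁻¹ := by positivity
    have := mul_le_mul_of_nonneg_right (hline z) h1
    linarith
  -- assemble
  have hsplit : (∫ z in Ioi zs, κ z * (s * (√(1 + z ^ 2) ^ (n + 1))⁻¹ +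
      ((n : ℝ) - 2) * s ^ n * (z ^ (n + 1))⁻¹)) =
      s * (∫ z in Ioi zs, κ z * W z) +
        ((n : ℝ) - 2) * s ^ n * ∫ z in Ioi zs, κ z * (z ^ (n + 1))⁻¹ := by
    rw [← integral_const_mul, ← integral_const_mul,
      ← integral_add (iκ.integrableOn.const_mul s) (jκ.const_mul _)]
    refine setIntegral_congr_fun measurableSet_Ioi fun z _ => ?_
    show κ z * (s * (√(1 + z ^ 2) ^ (n + 1))⁻¹ + ((n : ℝ) - 2) * s ^ n * (z ^ (n + 1))⁻¹) =
      s * (κ z * W z) + ((n : ℝ) - 2) * s ^ n * (κ z * (z ^ (n + 1))⁻¹)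
    rw [hWz]
    ring
  unfold Mf
  rw [← hrdef, ← hzs, hsplit]
  simp only [hWz]
  rw [uz, u1, ← u1] at e2
  rw [vz] at e1
  rw [t1, tz] at e3
  have hκzs : κ zs = c + b * zs := by rw [hcdef]; ring
  rw [hκzs]
  -- numbers
  have hm : r ^ n = r ^ (n - 1) * r := by
    rw [← pow_succ]
    congr 1
    omega
  have hzn : s ^ n * (zs ^ n)⁻¹ = r ^ n := by
    rw [hzs, div_pow]
    have : s ^ n ≠ 0 := (pow_pos hs1 _).ne'
    field_simp
  have hzn1 : s ^ n * (zs ^ (n - 1))⁻¹ = s * r ^ (n - 1) := by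
    rw [hzs, div_pow]
    have h1 : s ^ n = s ^ (n - 1) * s := by
      rw [← pow_succ]
      congr 1
      omega
    have : s ^ (n - 1) ≠ 0 := (pow_pos hs1 _).ne'
    rw [h1]
    field_simp
  have hzr : r ^ n * zs = s * r ^ (n - 1) := by
    rw [hm, hzs]
    field_simp
  have hn2 : 0 ≤ (n : ℝ) - 2 := by linarith
  have hn1 : (n : ℝ) - 1 ≠ 0 := by linarith
  have hn0 : (n : ℝ) ≠ 0 := by linarith
  have f1 := mul_le_mul_of_nonneg_left e1 hcs0
  have f2 := mul_le_mul_of_nonneg_left e2 hs1.le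
  have f3 := mul_le_mul_of_nonneg_left e3 (mul_nonneg hn2 (pow_pos hs1 n).le)
  have g3 : ((n : ℝ) - 2) * s ^ n * (c * ((zs ^ n)⁻¹ / n) + b * ((zs ^ (n - 1))⁻¹ / ((n : ℝ) - 1))) =
      ((n : ℝ) - 2) * (c * (r ^ n / n) + b * (s * r ^ (n - 1) / ((n : ℝ) - 1))) := by
    rw [← hzn, ← hzn1]
    ring
  rw [g3] at f3
  have g1 : cs n s * (c * (∫ z, W z) + b * 0) = c * (2 / n * r ^ n - s * ∫ z in Ioi zs, W z) := by
    rw [← hcs]
    ring
  rw [g1] at f1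
  have hsum : c * (2 / n * r ^ n - s * ∫ z in Ioi zs, W z) +
      s * (c * (∫ z in Ioi zs, W z) + b * (r ^ (n - 1) / ((n : ℝ) - 1))) +
      ((n : ℝ) - 2) * (c * (r ^ n / n) + b * (s * r ^ (n - 1) / ((n : ℝ) - 1))) =
      r ^ n * (c + b * zs) := by
    have h1 : r ^ n * (c + b * zs) = c * r ^ n + b * (s * r ^ (n - 1)) := by
      rw [← hzr]
      ring
    rw [h1]
    field_simp
    ring
  linarith

end Pool.Agent.Helper115_ME.C04
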