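import Mathlib
set_option autoImplicit false
namespace Pool.Agent.Helper115_ME.C05

open MeasureTheory Set

noncomputable def Mf (n : ℕ) (c : ℝ → ℝ) (s : ℝ) (κ : ℝ → ℝ) : ℝ :=
  c s * (∫ z : ℝ, κ z * ((√(1 + z ^ 2)) ^ (n + 1))⁻¹) +
    (∫ z in Ioi (s / √(1 - s ^ 2)), κ z * (s * ((√(1 + z ^ 2)) ^ (n + 1))⁻¹ + ((n : ℝ) - 2) * s ^ n * (z ^ (n + 1))⁻¹)) -
    (√(1 - s ^ 2)) ^ n * κ (s / √(1 - s ^ 2))

noncomputable def rr (z : ℝ) : ℝ := √(1 + z ^ 2)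
noncomputable def tt (z : ℝ) : ℝ := z / √(1 + z ^ 2)
noncomputable def zz (s : ℝ) : ℝ := s / √(1 - s ^ 2)

theorem rr_pos (z : ℝ) : 0 < rr z := Real.sqrt_pos.2 (by positivity)

theorem rr_sq (z : ℝ) : rr z ^ 2 = 1 + z ^ 2 := Real.sq_sqrt (by positivity)

theorem one_le_rr (z : ℝ) : 1 ≤ rr z := Real.one_le_sqrt.2 (by nlinarith [sq_nonneg z])

theorem rr_cont : Continuous rr := by unfold rr; fun_prop

theorem tt_eq (z : ℝ) : tt z = z / rr z := rfl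

theorem tt_cont : Continuous tt := by
  have : tt = fun z => z / rr z := rfl
  rw [this]
  exact continuous_id.div rr_cont (fun z => (rr_pos z).ne')

theorem tt_neg (z : ℝ) : tt (-z) = - tt z := by
  unfold tt; rw [neg_sq, neg_div]

theorem rr_neg (z : ℝ) : rr (-z) = rr z := by
  unfold rr; rw [neg_sq]

theorem one_sub_tt_sq (z : ℝ) : 1 - tt z ^ 2 = (rr z ^ 2)⁻¹ := by
  have h := rr_pos z
  have h2 := rr_sq z
  rw [tt_eq]
  field_simp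
  linarith

theorem tt_abs_lt (z : ℝ) : |tt z| < 1 := by
  rw [← sq_lt_one_iff_abs_lt_one]
  have h := one_sub_tt_sq z
  have : 0 < (rr z ^ 2)⁻¹ := by have := rr_pos z; positivity
  linarith

theorem tt_lt_one (z : ℝ) : tt z < 1 := (abs_lt.1 (tt_abs_lt z)).2

theorem neg_one_lt_tt (z : ℝ) : -1 < tt z := (abs_lt.1 (tt_abs_lt z)).1

theorem tt_pos {z : ℝ} (hz : 0 < z) : 0 < tt z := div_pos hz (rr_pos z)

theorem sqrt_one_sub_tt (z : ℝ) : √(1 - tt z ^ 2) = (rr z)⁻¹ := by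
  rw [one_sub_tt_sq, Real.sqrt_inv, Real.sqrt_sq (rr_pos z).le]

theorem zz_tt (z : ℝ) : zz (tt z) = z := by
  unfold zz
  rw [sqrt_one_sub_tt, tt_eq]
  have h := (rr_pos z).ne'
  field_simp

theorem rr_hasDerivAt (z : ℝ) : HasDerivAt rr (z / rr z) z := by
  have h1 : HasDerivAt (fun z : ℝ => 1 + z ^ 2) (2 * z) z := by
    simpa using (hasDerivAt_pow 2 z).const_add 1
  have h2 := h1.sqrt (by positivity)
  refine h2.congr_deriv ?_
  show 2 * z / (2 * rr z) = z / rr z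
  rw [mul_div_mul_left _ _ two_ne_zero]

theorem tt_hasDerivAt (z : ℝ) : HasDerivAt tt ((rr z ^ 3)⁻¹) z := by
  have h := (hasDerivAt_id z).div (rr_hasDerivAt z) (rr_pos z).ne'
  refine h.congr_deriv ?_
  have h2 := rr_sq z
  have h3 := (rr_pos z)
  simp only [id]
  field_simp
  linarith

theorem tt_strictMono : StrictMono tt :=
  strictMono_of_deriv_pos fun z => by
    rw [(tt_hasDerivAt z).deriv]
    have := rr_pos z
    positivity

theorem tt_zz {s : ℝ} (h1 : -1 < s) (h2 : s < 1) : tt (zz s) = s := by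
  have h3 : 0 < 1 - s ^ 2 := by nlinarith
  have h4 : 0 < √(1 - s ^ 2) := Real.sqrt_pos.2 h3
  have h5 : √(1 - s ^ 2) ^ 2 = 1 - s ^ 2 := Real.sq_sqrt h3.le
  have h6 : rr (zz s) = (√(1 - s ^ 2))⁻¹ := by
    unfold rr zz
    rw [div_pow, h5]
    have : 1 + s ^ 2 / (1 - s ^ 2) = (1 - s ^ 2)⁻¹ := by field_simp; ring
    rw [this, Real.sqrt_inv]
  rw [tt_eq, h6]
  unfold zz
  field_simp

theorem lt_tt_iff {s z : ℝ} (h1 : -1 < s) (h2 : s < 1) : s < tt z ↔ zz s < z := by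
  conv_lhs => rw [← tt_zz h1 h2]
  exact tt_strictMono.lt_iff_lt

theorem zz_pos {s : ℝ} (h1 : 0 < s) (h2 : s < 1) : 0 < zz s :=
  div_pos h1 (Real.sqrt_pos.2 (by nlinarith))

theorem tt_image : tt '' Ioi 0 = Ioo 0 1 := by
  ext s
  constructor
  · rintro ⟨z, hz, rfl⟩
    exact ⟨tt_pos hz, tt_lt_one z⟩
  · rintro ⟨h1, h2⟩
    exact ⟨zz s, zz_pos h1 h2, tt_zz (by linarith) h2⟩

theorem base_le {n : ℕ} (hn : 3 ≤ n) (z : ℝ) :
    (1 + |z|) * (rr z ^ (n + 1))⁻¹ ≤ 2 * (1 + z ^ 2)⁻¹ := by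
  have h1 := one_le_rr z
  have h2 : rr z ^ 4 ≤ rr z ^ (n + 1) := pow_le_pow_right₀ h1 (by omega)
  have h3 : rr z ^ 4 = (1 + z ^ 2) ^ 2 := by rw [← rr_sq]; ring
  rw [h3] at h2
  have h4 : 1 + |z| ≤ 2 * (1 + z ^ 2) := by
    rw [← sq_abs z]
    nlinarith [sq_nonneg (|z| - 1), abs_nonneg z]
  have h5 : 0 < 1 + z ^ 2 := by positivity
  calc (1 + |z|) * (rr z ^ (n + 1))⁻¹ ≤ (2 * (1 + z ^ 2)) * ((1 + z ^ 2) ^ 2)⁻¹ := by
        refine mul_le_mul h4 (inv_anti₀ (by positivity) h2) (by have := rr_pos z; positivity)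
          (by positivity)
    _ = 2 * (1 + z ^ 2)⁻¹ := by field_simp

theorem base_int {n : ℕ} (hn : 3 ≤ n) : Integrable (fun z : ℝ => (1 + |z|) * (rr z ^ (n + 1))⁻¹) := by
  refine (integrable_inv_one_add_sq.const_mul 2).mono' ?_ ?_
  · have := rr_cont
    refine Continuous.aestronglyMeasurable ?_
    refine Continuous.mul (by fun_prop) (Continuous.inv₀ (by fun_prop) fun z => ?_)
    have := rr_pos z
    positivity
  · refine Filter.Eventually.of_forall fun z => ?_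
    have := rr_pos z
    rw [Real.norm_of_nonneg (by positivity)]
    exact base_le hn z


theorem kappa_cst_nonneg {κ : ℝ → ℝ} {A : ℝ} (hA : ∀ z, |κ z| ≤ A * (1 + |z|)) : 0 ≤ A := by
  have := hA 0
  rw [abs_zero, add_zero, mul_one] at this
  exact (abs_nonneg _).trans this

noncomputable def FF (n : ℕ) (κ ψ : ℝ → ℝ) (z s : ℝ) : ℝ :=
  (Iio (tt z)).indicator
    (fun s => κ z * (ψ s * (s * (rr z ^ (n + 1))⁻¹ + ((n : ℝ) - 2) * s ^ n * (z ^ (n + 1))⁻¹))) s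

theorem FF_of_lt {n : ℕ} {κ ψ : ℝ → ℝ} {z s : ℝ} (h : s < tt z) :
    FF n κ ψ z s = κ z * (ψ s * (s * (rr z ^ (n + 1))⁻¹ + ((n : ℝ) - 2) * s ^ n * (z ^ (n + 1))⁻¹)) :=
  indicator_of_mem (s := Iio (tt z)) h _

theorem FF_of_le {n : ℕ} {κ ψ : ℝ → ℝ} {z s : ℝ} (h : tt z ≤ s) : FF n κ ψ z s = 0 :=
  indicator_of_notMem (s := Iio (tt z)) (fun h' => absurd h' (not_lt.2 h)) _

theorem FF_meas (n : ℕ) {κ ψ : ℝ → ℝ} (hκ : Continuous κ) (hψ : Continuous ψ) :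
    Measurable (Function.uncurry (FF n κ ψ)) := by
  have h1 : Function.uncurry (FF n κ ψ) = {q : ℝ × ℝ | q.2 < tt q.1}.indicator
      (fun q => κ q.1 * (ψ q.2 * (q.2 * (rr q.1 ^ (n + 1))⁻¹ +
        ((n : ℝ) - 2) * q.2 ^ n * (q.1 ^ (n + 1))⁻¹))) := by
    funext q
    by_cases h : q.2 < tt q.1
    · rw [indicator_of_mem (s := {q : ℝ × ℝ | q.2 < tt q.1}) h]
      exact FF_of_lt h
    · rw [indicator_of_notMem (s := {q : ℝ × ℝ | q.2 < tt q.1}) h]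
      exact FF_of_le (not_lt.1 h)
  rw [h1]
  have hr := rr_cont.measurable
  have ht := tt_cont.measurable
  have hk := hκ.measurable
  have hp := hψ.measurable
  refine Measurable.indicator ?_ (measurableSet_lt measurable_snd (ht.comp measurable_fst))
  have h2 : Measurable fun q : ℝ × ℝ => κ q.1 := hk.comp measurable_fst
  have h3 : Measurable fun q : ℝ × ℝ => ψ q.2 := hp.comp measurable_snd
  have h4 : Measurable fun q : ℝ × ℝ => rr q.1 := hr.comp measurable_fst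
  have h5 : Measurable fun q : ℝ × ℝ => (rr q.1 ^ (n + 1))⁻¹ := (h4.pow_const _).inv
  have h6 : Measurable fun q : ℝ × ℝ => (q.1 ^ (n + 1))⁻¹ := (measurable_fst.pow_const _).inv
  exact h2.mul (h3.mul ((measurable_snd.mul h5).add
    (((measurable_snd.pow_const n).const_mul _).mul h6)))

theorem inner_bd {n : ℕ} (hn : 3 ≤ n) {κ ψ : ℝ → ℝ} {A P : ℝ}
    (hA : ∀ z, |κ z| ≤ A * (1 + |z|)) (hP : ∀ s ∈ Icc (-1 : ℝ) 1, |ψ s| ≤ P) {z : ℝ} (hz : 0 < z)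
    {s : ℝ} (hs : s ∈ Ioo 0 1) :
    |κ z * (ψ s * (s * (rr z ^ (n + 1))⁻¹ + ((n : ℝ) - 2) * s ^ n * (z ^ (n + 1))⁻¹))| ≤
      A * (1 + |z|) * (P * ((rr z ^ (n + 1))⁻¹ + ((n : ℝ) - 2) * s ^ n * (z ^ (n + 1))⁻¹)) := by
  have hr := rr_pos z
  have hn2 : (0 : ℝ) ≤ (n : ℝ) - 2 := by
    have : (3 : ℝ) ≤ n := by exact_mod_cast hn
    linarith
  have hA0 := kappa_cst_nonneg hA
  have hP0 : 0 ≤ P := (abs_nonneg _).trans (hP 0 (by constructor <;> norm_num))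
  have hs0 := hs.1
  rw [abs_mul, abs_mul]
  have h1 : 0 ≤ s * (rr z ^ (n + 1))⁻¹ + ((n : ℝ) - 2) * s ^ n * (z ^ (n + 1))⁻¹ := by positivity
  rw [abs_of_nonneg h1]
  refine mul_le_mul (hA z) (mul_le_mul (hP s ⟨by linarith, hs.2.le⟩) ?_ h1 hP0) (by positivity)
    (by positivity)
  have h2 : s * (rr z ^ (n + 1))⁻¹ ≤ 1 * (rr z ^ (n + 1))⁻¹ :=
    mul_le_mul_of_nonneg_right hs.2.le (by positivity)
  linarith

theorem Ioo_inter_Iio (z : ℝ) : Ioo (0 : ℝ) 1 ∩ Iio (tt z) = Ioo 0 (tt z) := by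
  ext s
  constructor
  · rintro ⟨⟨h1, _⟩, h2⟩
    exact ⟨h1, h2⟩
  · rintro ⟨h1, h2⟩
    exact ⟨⟨h1, h2.trans (tt_lt_one z)⟩, h2⟩

theorem norm_int_bd {n : ℕ} (hn : 3 ≤ n) {κ ψ : ℝ → ℝ} {A P : ℝ}
    (hA : ∀ z, |κ z| ≤ A * (1 + |z|)) (hP : ∀ s ∈ Icc (-1 : ℝ) 1, |ψ s| ≤ P) {z : ℝ} (hz : 0 < z) :
    ∫ s in Ioo (0 : ℝ) 1, ‖FF n κ ψ z s‖ ≤
      A * P * ((n : ℝ) - 1) * ((1 + |z|) * (rr z ^ (n + 1))⁻¹) := by
  have hr := rr_pos z
  have hn2 : (0 : ℝ) ≤ (n : ℝ) - 2 := by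
    have : (3 : ℝ) ≤ n := by exact_mod_cast hn
    linarith
  have hA0 := kappa_cst_nonneg hA
  have hP0 : 0 ≤ P := (abs_nonneg _).trans (hP 0 (by constructor <;> norm_num))
  have ht0 := tt_pos hz
  have ht1 := tt_lt_one z
  have h1 : (fun s => ‖FF n κ ψ z s‖) = (Iio (tt z)).indicator (fun s => ‖κ z * (ψ s *
      (s * (rr z ^ (n + 1))⁻¹ + ((n : ℝ) - 2) * s ^ n * (z ^ (n + 1))⁻¹))‖) := by
    funext s
    unfold FF
    exact norm_indicator_eq_indicator_norm _ _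
  rw [h1, setIntegral_indicator measurableSet_Iio, Ioo_inter_Iio]
  set M : ℝ := A * (1 + |z|) * (P * ((rr z ^ (n + 1))⁻¹ + ((n : ℝ) - 2) * tt z ^ n * (z ^ (n + 1))⁻¹))
    with hM
  have h2 : ∀ s ∈ Ioo 0 (tt z), ‖‖κ z * (ψ s *
      (s * (rr z ^ (n + 1))⁻¹ + ((n : ℝ) - 2) * s ^ n * (z ^ (n + 1))⁻¹))‖‖ ≤ M := by
    intro s hs
    rw [norm_norm, Real.norm_eq_abs]
    refine (inner_bd hn hA hP hz ⟨hs.1, hs.2.trans ht1⟩).trans ?_
    have h3 : s ^ n ≤ tt z ^ n := pow_le_pow_left₀ hs.1.le hs.2.le n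
    rw [hM]
    gcongr
  have h4 := norm_setIntegral_le_of_norm_le_const (μ := volume) (s := Ioo 0 (tt z))
    (by rw [Real.volume_Ioo]; exact ENNReal.ofReal_lt_top) h2
  have h5 : volume.real (Ioo 0 (tt z)) = tt z := by
    rw [Real.volume_real_Ioo_of_le ht0.le, sub_zero]
  rw [h5] at h4
  refine ((le_abs_self _).trans h4).trans ?_
  have h6 : tt z ^ (n + 1) * (z ^ (n + 1))⁻¹ = (rr z ^ (n + 1))⁻¹ := by
    rw [tt_eq, div_pow]
    field_simp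
  have h7 : M * tt z = A * P * (1 + |z|) * (tt z * (rr z ^ (n + 1))⁻¹ + ((n : ℝ) - 2) *
      (tt z ^ (n + 1) * (z ^ (n + 1))⁻¹)) := by
    rw [hM, pow_succ (tt z)]; ring
  rw [h7, h6]
  have h8 : tt z * (rr z ^ (n + 1))⁻¹ ≤ 1 * (rr z ^ (n + 1))⁻¹ :=
    mul_le_mul_of_nonneg_right ht1.le (by positivity)
  have h9 : 0 ≤ A * P * (1 + |z|) := by positivity
  have h10 : tt z * (rr z ^ (n + 1))⁻¹ + ((n : ℝ) - 2) * (rr z ^ (n + 1))⁻¹ ≤
      ((n : ℝ) - 1) * (rr z ^ (n + 1))⁻¹ := by linarith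
  calc A * P * (1 + |z|) * (tt z * (rr z ^ (n + 1))⁻¹ + ((n : ℝ) - 2) * (rr z ^ (n + 1))⁻¹)
      ≤ A * P * (1 + |z|) * (((n : ℝ) - 1) * (rr z ^ (n + 1))⁻¹) :=
        mul_le_mul_of_nonneg_left h10 h9
    _ = _ := by ring

theorem FF_integrable {n : ℕ} (hn : 3 ≤ n) {κ ψ : ℝ → ℝ} (hκ : Continuous κ) (hψ : Continuous ψ)
    {A P : ℝ} (hA : ∀ z, |κ z| ≤ A * (1 + |z|)) (hP : ∀ s ∈ Icc (-1 : ℝ) 1, |ψ s| ≤ P) :
    Integrable (Function.uncurry (FF n κ ψ))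
      ((volume.restrict (Ioi (0 : ℝ))).prod (volume.restrict (Ioo (0 : ℝ) 1))) := by
  have hm := FF_meas n hκ hψ
  rw [integrable_prod_iff hm.aestronglyMeasurable]
  constructor
  · refine (ae_restrict_iff' measurableSet_Ioi).2 (Filter.Eventually.of_forall fun z hz => ?_)
    have hz0 : (0 : ℝ) < z := hz
    refine Integrable.mono' (g := fun _ => A * (1 + |z|) * (P * ((rr z ^ (n + 1))⁻¹ +
      ((n : ℝ) - 2) * 1 * (z ^ (n + 1))⁻¹))) (integrable_const _)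
      (hm.comp measurable_prodMk_left).aestronglyMeasurable ?_
    refine (ae_restrict_iff' measurableSet_Ioo).2 (Filter.Eventually.of_forall fun s hs => ?_)
    have hr := rr_pos z
    have hn2 : (0 : ℝ) ≤ (n : ℝ) - 2 := by
      have : (3 : ℝ) ≤ n := by exact_mod_cast hn
      linarith
    have hA0 := kappa_cst_nonneg hA
    have hP0 : 0 ≤ P := (abs_nonneg _).trans (hP 0 (by constructor <;> norm_num))
    show ‖FF n κ ψ z s‖ ≤ _
    rcases lt_or_ge s (tt z) with h | h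
    · rw [FF_of_lt h, Real.norm_eq_abs]
      refine (inner_bd hn hA hP hz0 hs).trans ?_
      have h3 : s ^ n ≤ 1 := pow_le_one₀ hs.1.le hs.2.le
      gcongr
    · rw [FF_of_le h, norm_zero]
      positivity
  · refine Integrable.mono' (((base_int hn).const_mul (A * P * ((n : ℝ) - 1))).integrableOn) ?_ ?_
    · exact (hm.norm.aestronglyMeasurable (μ := (volume.restrict (Ioi (0 : ℝ))).prod
        (volume.restrict (Ioo (0 : ℝ) 1)))).integral_prod_right'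
    · refine (ae_restrict_iff' measurableSet_Ioi).2 (Filter.Eventually.of_forall fun z hz => ?_)
      rw [Real.norm_of_nonneg (integral_nonneg fun _ => norm_nonneg _)]
      exact norm_int_bd hn hA hP hz

theorem FF_inner_s {n : ℕ} {κ ψ : ℝ → ℝ} (hψ : Continuous ψ) {z : ℝ} (hz : 0 < z) :
    ∫ s in Ioo (0 : ℝ) 1, FF n κ ψ z s =
      κ z * (((∫ s in (0 : ℝ)..(tt z), s * ψ s) +
        ((n : ℝ) - 2) * ∫ s in (0 : ℝ)..1, ψ (tt z * s) * s ^ n) * (rr z ^ (n + 1))⁻¹) := by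
  have ht0 := tt_pos hz
  have ht1 := tt_lt_one z
  have hr := rr_pos z
  unfold FF
  rw [setIntegral_indicator measurableSet_Iio, Ioo_inter_Iio]
  have h1 : ∫ s in (0 : ℝ)..1, ψ (tt z * s) * s ^ n =
      (tt z ^ (n + 1))⁻¹ * ∫ s in (0 : ℝ)..(tt z), ψ s * s ^ n := by
    have h2 := intervalIntegral.integral_comp_mul_left (fun r => ψ r * r ^ n) ht0.ne' (a := 0) (b := 1)
    rw [mul_zero, mul_one, smul_eq_mul] at h2
    have h3 : ∫ s in (0 : ℝ)..1, ψ (tt z * s) * (tt z * s) ^ n =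
        tt z ^ n * ∫ s in (0 : ℝ)..1, ψ (tt z * s) * s ^ n := by
      rw [← intervalIntegral.integral_const_mul]
      congr 1
      funext s
      rw [mul_pow]; ring
    rw [h3] at h2
    have h4 : tt z ^ n ≠ 0 := by positivity
    calc ∫ s in (0 : ℝ)..1, ψ (tt z * s) * s ^ n
        = (tt z ^ n)⁻¹ * (tt z ^ n * ∫ s in (0 : ℝ)..1, ψ (tt z * s) * s ^ n) := by
          field_simp
      _ = _ := by rw [h2, pow_succ, mul_inv]; ring
  have h6 : tt z ^ (n + 1) * (z ^ (n + 1))⁻¹ = (rr z ^ (n + 1))⁻¹ := by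
    rw [tt_eq, div_pow]
    field_simp
  have h7 : (z ^ (n + 1))⁻¹ = (tt z ^ (n + 1))⁻¹ * (rr z ^ (n + 1))⁻¹ := by
    rw [← h6]
    field_simp
  rw [h1, intervalIntegral.integral_of_le ht0.le, intervalIntegral.integral_of_le ht0.le,
    integral_Ioc_eq_integral_Ioo, integral_Ioc_eq_integral_Ioo]
  have hi1 : IntegrableOn (fun s => s * ψ s) (Ioo 0 (tt z)) :=
    ((continuous_id.mul hψ).continuousOn.integrableOn_Icc (a := 0) (b := tt z)).mono_set Ioo_subset_Icc_self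
  have hi2 : IntegrableOn (fun s => ψ s * s ^ n) (Ioo 0 (tt z)) :=
    ((hψ.mul (continuous_pow n)).continuousOn.integrableOn_Icc (a := 0) (b := tt z)).mono_set
      Ioo_subset_Icc_self
  have h8 : ∀ s, κ z * (ψ s * (s * (rr z ^ (n + 1))⁻¹ + ((n : ℝ) - 2) * s ^ n * (z ^ (n + 1))⁻¹)) =
      κ z * (rr z ^ (n + 1))⁻¹ * (s * ψ s) +
        κ z * (((n : ℝ) - 2) * (z ^ (n + 1))⁻¹) * (ψ s * s ^ n) := fun s => by ring
  simp only [h8]
  rw [integral_add (hi1.const_mul _) (hi2.const_mul _), integral_const_mul, integral_const_mul, h7]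
  ring

theorem FF_inner_z {n : ℕ} {κ ψ : ℝ → ℝ} {s : ℝ} (hs : s ∈ Ioo (0 : ℝ) 1) :
    ∫ z in Ioi (0 : ℝ), FF n κ ψ z s =
      ψ s * ∫ z in Ioi (zz s), κ z * (s * (rr z ^ (n + 1))⁻¹ +
        ((n : ℝ) - 2) * s ^ n * (z ^ (n + 1))⁻¹) := by
  have h1 : ∀ z, FF n κ ψ z s = (Ioi (zz s)).indicator (fun z => ψ s * (κ z * (s * (rr z ^ (n + 1))⁻¹ +
        ((n : ℝ) - 2) * s ^ n * (z ^ (n + 1))⁻¹))) z := by
    intro z
    by_cases h : s < tt z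
    · rw [FF_of_lt h, indicator_of_mem (show z ∈ Ioi (zz s) from
        (lt_tt_iff (by linarith [hs.1]) hs.2).1 h)]
      ring
    · have hz : z ∉ Ioi (zz s) := fun h' => h ((lt_tt_iff (by linarith [hs.1]) hs.2).2 h')
      rw [FF_of_le (not_lt.1 h), indicator_of_notMem hz]
  simp only [h1]
  rw [setIntegral_indicator measurableSet_Ioi]
  have h2 : Ioi (0 : ℝ) ∩ Ioi (zz s) = Ioi (zz s) := by
    rw [Ioi_inter_Ioi]
    congr 1
    exact max_eq_right (zz_pos hs.1 hs.2).le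
  rw [h2, integral_const_mul]

theorem half1 {n : ℕ} (hn : 3 ≤ n) {κ ψ : ℝ → ℝ} (hκ : Continuous κ) (hψ : Continuous ψ)
    {A P : ℝ} (hA : ∀ z, |κ z| ≤ A * (1 + |z|)) (hP : ∀ s ∈ Icc (-1 : ℝ) 1, |ψ s| ≤ P) :
    IntegrableOn (fun z => κ z * (((∫ s in (0 : ℝ)..(tt z), s * ψ s) +
        ((n : ℝ) - 2) * ∫ s in (0 : ℝ)..1, ψ (tt z * s) * s ^ n) * (rr z ^ (n + 1))⁻¹)) (Ioi 0) ∧
    IntegrableOn (fun s => ψ s * ∫ z in Ioi (zz s), κ z * (s * (rr z ^ (n + 1))⁻¹ +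
        ((n : ℝ) - 2) * s ^ n * (z ^ (n + 1))⁻¹)) (Ioo 0 1) ∧
    ∫ z in Ioi (0 : ℝ), κ z * (((∫ s in (0 : ℝ)..(tt z), s * ψ s) +
        ((n : ℝ) - 2) * ∫ s in (0 : ℝ)..1, ψ (tt z * s) * s ^ n) * (rr z ^ (n + 1))⁻¹) =
    ∫ s in Ioo (0 : ℝ) 1, ψ s * ∫ z in Ioi (zz s), κ z * (s * (rr z ^ (n + 1))⁻¹ +
        ((n : ℝ) - 2) * s ^ n * (z ^ (n + 1))⁻¹) := by
  have hF := FF_integrable hn hκ hψ hA hP
  have h1 : ∀ z ∈ Ioi (0 : ℝ), ∫ s in Ioo (0 : ℝ) 1, FF n κ ψ z s = κ z * (((∫ s in (0 : ℝ)..(tt z), s * ψ s) +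
        ((n : ℝ) - 2) * ∫ s in (0 : ℝ)..1, ψ (tt z * s) * s ^ n) * (rr z ^ (n + 1))⁻¹) :=
    fun z hz => FF_inner_s hψ hz
  have h2 : ∀ s ∈ Ioo (0 : ℝ) 1, ∫ z in Ioi (0 : ℝ), FF n κ ψ z s =
      ψ s * ∫ z in Ioi (zz s), κ z * (s * (rr z ^ (n + 1))⁻¹ +
        ((n : ℝ) - 2) * s ^ n * (z ^ (n + 1))⁻¹) := fun s hs => FF_inner_z hs
  refine ⟨?_, ?_, ?_⟩
  · have h3 := hF.integral_prod_left
    exact (integrableOn_congr_fun h1 measurableSet_Ioi).1 h3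
  · have h3 := hF.integral_prod_right
    exact (integrableOn_congr_fun h2 measurableSet_Ioo).1 h3
  · rw [← setIntegral_congr_fun measurableSet_Ioi h1, ← setIntegral_congr_fun measurableSet_Ioo h2]
    exact integral_integral_swap hF

theorem half2 {n : ℕ} (hn : 3 ≤ n) {κ ψ : ℝ → ℝ} (hκ : Continuous κ) (hψ : Continuous ψ)
    {A P : ℝ} (hA : ∀ z, |κ z| ≤ A * (1 + |z|)) (hP : ∀ s ∈ Icc (-1 : ℝ) 1, |ψ s| ≤ P) :
    IntegrableOn (fun z => κ z * ((1 - tt z ^ 2) * ψ (tt z) * (rr z ^ (n + 1))⁻¹)) (Ioi 0) ∧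
    IntegrableOn (fun s => ψ s * ((√(1 - s ^ 2)) ^ n * κ (zz s))) (Ioo 0 1) ∧
    ∫ z in Ioi (0 : ℝ), κ z * ((1 - tt z ^ 2) * ψ (tt z) * (rr z ^ (n + 1))⁻¹) =
    ∫ s in Ioo (0 : ℝ) 1, ψ s * ((√(1 - s ^ 2)) ^ n * κ (zz s)) := by
  have hA0 := kappa_cst_nonneg hA
  have hP0 : 0 ≤ P := (abs_nonneg _).trans (hP 0 (by constructor <;> norm_num))
  have h1 : IntegrableOn (fun z => κ z * ((1 - tt z ^ 2) * ψ (tt z) * (rr z ^ (n + 1))⁻¹)) (Ioi 0) := by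
    refine Integrable.mono' (((base_int hn).const_mul (A * P)).integrableOn) ?_ ?_
    · refine Continuous.aestronglyMeasurable ?_
      have := rr_cont
      have := tt_cont
      refine hκ.mul (((by fun_prop : Continuous fun z => 1 - tt z ^ 2).mul (hψ.comp tt_cont)).mul
        (Continuous.inv₀ (by fun_prop) fun z => ?_))
      have := rr_pos z
      positivity
    · refine Filter.Eventually.of_forall fun z => ?_
      have hr := rr_pos z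
      have ht := abs_lt.1 (tt_abs_lt z)
      rw [Real.norm_eq_abs, abs_mul, abs_mul, abs_mul, abs_of_nonneg (by positivity : 0 ≤ (rr z ^ (n + 1))⁻¹)]
      have h2 : |1 - tt z ^ 2| ≤ 1 := by
        rw [abs_le]; constructor <;> nlinarith [sq_nonneg (tt z)]
      have h3 : |1 - tt z ^ 2| * |ψ (tt z)| ≤ 1 * P :=
        mul_le_mul h2 (hP _ ⟨ht.1.le, ht.2.le⟩) (abs_nonneg _) zero_le_one
      calc |κ z| * (|1 - tt z ^ 2| * |ψ (tt z)| * (rr z ^ (n + 1))⁻¹)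
          ≤ (A * (1 + |z|)) * (1 * P * (rr z ^ (n + 1))⁻¹) := by
            refine mul_le_mul (hA z) (mul_le_mul_of_nonneg_right h3 (by positivity)) (by positivity)
              (by positivity)
        _ = _ := by ring
  have hd : ∀ x ∈ Ioi (0 : ℝ), HasDerivWithinAt tt ((rr x ^ 3)⁻¹) (Ioi 0) x := fun x _ =>
    (tt_hasDerivAt x).hasDerivWithinAt
  have hinj : InjOn tt (Ioi 0) := tt_strictMono.injective.injOn
  have h2 : ∀ z ∈ Ioi (0 : ℝ), |(rr z ^ 3)⁻¹| • (ψ (tt z) * ((√(1 - tt z ^ 2)) ^ n * κ (zz (tt z)))) =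
      κ z * ((1 - tt z ^ 2) * ψ (tt z) * (rr z ^ (n + 1))⁻¹) := by
    intro z _
    have hr := rr_pos z
    rw [abs_of_nonneg (by positivity), smul_eq_mul, sqrt_one_sub_tt, zz_tt, one_sub_tt_sq, inv_pow,
      pow_succ (rr z) n, mul_inv]
    field_simp
  refine ⟨h1, ?_, ?_⟩
  · have h3 := integrableOn_image_iff_integrableOn_abs_deriv_smul measurableSet_Ioi hd hinj
      (fun s => ψ s * ((√(1 - s ^ 2)) ^ n * κ (zz s)))
    rw [tt_image] at h3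
    exact h3.2 ((integrableOn_congr_fun h2 measurableSet_Ioi).2 h1)
  · have h3 := integral_image_eq_integral_abs_deriv_smul measurableSet_Ioi hd hinj
      (fun s => ψ s * ((√(1 - s ^ 2)) ^ n * κ (zz s)))
    rw [tt_image] at h3
    rw [h3]
    exact (setIntegral_congr_fun measurableSet_Ioi h2).symm


theorem neg_cont {κ : ℝ → ℝ} (hκ : Continuous κ) : Continuous (fun z => κ (-z)) :=
  hκ.comp continuous_neg

/-- the integrand of the half line -/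
noncomputable def G1 (n : ℕ) (κ ψ : ℝ → ℝ) (z : ℝ) : ℝ :=
  κ z * (((∫ s in (0 : ℝ)..(tt z), s * ψ s) +
    ((n : ℝ) - 2) * ∫ s in (0 : ℝ)..1, ψ (tt z * s) * s ^ n) * (rr z ^ (n + 1))⁻¹)

noncomputable def G2 (n : ℕ) (κ ψ : ℝ → ℝ) (z : ℝ) : ℝ :=
  κ z * ((1 - tt z ^ 2) * ψ (tt z) * (rr z ^ (n + 1))⁻¹)

theorem G1_neg (n : ℕ) (κ ψ : ℝ → ℝ) (z : ℝ) :
    G1 n κ ψ (-z) = G1 n (fun z => κ (-z)) (fun s => ψ (-s)) z := by
  unfold G1
  rw [tt_neg, rr_neg]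
  have h1 : ∫ s in (0 : ℝ)..(-tt z), s * ψ s = ∫ s in (0 : ℝ)..(tt z), s * ψ (-s) := by
    have h2 := intervalIntegral.integral_comp_neg (fun s => s * ψ s) (a := 0) (b := tt z)
    rw [neg_zero] at h2
    rw [intervalIntegral.integral_symm, ← h2, ← intervalIntegral.integral_neg]
    congr 1
    funext s
    ring
  rw [h1]
  simp only [neg_mul]

theorem G2_neg (n : ℕ) (κ ψ : ℝ → ℝ) (z : ℝ) :
    G2 n κ ψ (-z) = G2 n (fun z => κ (-z)) (fun s => ψ (-s)) z := by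
  unfold G2
  rw [tt_neg, rr_neg, neg_sq]

theorem line_fubini {n : ℕ} (hn : 3 ≤ n) (κ : ℝ → ℝ) (hκ : Continuous κ)
    (hgrow : ∃ A, ∀ z, |κ z| ≤ A * (1 + |z|)) (ψ : ℝ → ℝ) (hψ : Continuous ψ) (c : ℝ → ℝ)
    (hc : ContinuousOn c (Icc 0 1)) :
    ∫ z : ℝ, κ z * (((∫ s in (0 : ℝ)..1, (ψ s + ψ (-s)) * c s) + (∫ s in (0 : ℝ)..(z / √(1 + z ^ 2)), s * ψ s) -
      (1 - (z / √(1 + z ^ 2)) ^ 2) * ψ (z / √(1 + z ^ 2)) +
      ((n : ℝ) - 2) * ∫ s in (0 : ℝ)..1, ψ (z / √(1 + z ^ 2) * s) * s ^ n) * ((√(1 + z ^ 2)) ^ (n + 1))⁻¹) =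
    ∫ s in (0 : ℝ)..1, (ψ s * Mf n c s κ + ψ (-s) * Mf n c s (fun z => κ (-z))) := by
  obtain ⟨A, hA⟩ := hgrow
  have hA0 := kappa_cst_nonneg hA
  obtain ⟨P, hP⟩ : ∃ P, ∀ s ∈ Icc (-1 : ℝ) 1, |ψ s| ≤ P := by
    obtain ⟨P, hP⟩ := (isCompact_Icc (a := (-1 : ℝ)) (b := 1)).exists_bound_of_continuousOn hψ.continuousOn
    exact ⟨P, hP⟩
  have hκ' := neg_cont hκ
  have hψ' := neg_cont hψ
  have hA' : ∀ z, |κ (-z)| ≤ A * (1 + |z|) := fun z => by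
    have := hA (-z); rwa [abs_neg] at this
  have hP' : ∀ s ∈ Icc (-1 : ℝ) 1, |ψ (-s)| ≤ P := fun s hs =>
    hP (-s) ⟨by linarith [hs.2], by linarith [hs.1]⟩
  obtain ⟨a1, a2, a3⟩ := half1 hn hκ hψ hA hP
  obtain ⟨b1, b2, b3⟩ := half1 hn hκ' hψ' hA' hP'
  obtain ⟨c1, c2, c3⟩ := half2 hn hκ hψ hA hP
  obtain ⟨d1, d2, d3⟩ := half2 hn hκ' hψ' hA' hP'
  set D : ℝ := ∫ s in (0 : ℝ)..1, (ψ s + ψ (-s)) * c s with hD
  set I : ℝ := ∫ z : ℝ, κ z * (rr z ^ (n + 1))⁻¹ with hI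
  have hI' : ∫ z : ℝ, κ (-z) * (rr z ^ (n + 1))⁻¹ = I := by
    rw [hI, ← integral_neg_eq_self (fun z => κ z * (rr z ^ (n + 1))⁻¹)]
    congr 1
    funext z
    rw [rr_neg]
  have hint0 : Integrable (fun z => κ z * (rr z ^ (n + 1))⁻¹) := by
    refine Integrable.mono' ((base_int hn).const_mul A) ?_ ?_
    · refine Continuous.aestronglyMeasurable ?_
      have := rr_cont
      refine hκ.mul (Continuous.inv₀ (by fun_prop) fun z => ?_)
      have := rr_pos z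
      positivity
    · refine Filter.Eventually.of_forall fun z => ?_
      have hr := rr_pos z
      rw [Real.norm_eq_abs, abs_mul, abs_of_nonneg (by positivity : 0 ≤ (rr z ^ (n + 1))⁻¹)]
      calc |κ z| * (rr z ^ (n + 1))⁻¹ ≤ A * (1 + |z|) * (rr z ^ (n + 1))⁻¹ :=
            mul_le_mul_of_nonneg_right (hA z) (by positivity)
        _ = _ := by ring
  -- split off the constant term
  have hG1i : Integrable (G1 n κ ψ) := by
    have h1 : IntegrableOn (G1 n κ ψ) (Ioi 0) := a1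
    have h2 : IntegrableOn (G1 n κ ψ) (Iic 0) := by
      have h3 : IntegrableOn (fun z => G1 n κ ψ (-z)) (Ioi 0) := by
        simp only [G1_neg]
        exact b1
      have h4 := (integrableOn_Ici_iff_integrableOn_Ioi (f := fun z => G1 n κ ψ (-z))).2 h3
      have h5 := IntegrableOn.comp_neg_Iic (c := (0 : ℝ)) (f := fun z => G1 n κ ψ (-z)) (by
        rwa [neg_zero])
      simpa using h5
    have := h2.union h1
    rwa [Iic_union_Ioi, integrableOn_univ] at this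
  have hG2i : Integrable (G2 n κ ψ) := by
    have h1 : IntegrableOn (G2 n κ ψ) (Ioi 0) := c1
    have h2 : IntegrableOn (G2 n κ ψ) (Iic 0) := by
      have h3 : IntegrableOn (fun z => G2 n κ ψ (-z)) (Ioi 0) := by
        simp only [G2_neg]
        exact d1
      have h4 := (integrableOn_Ici_iff_integrableOn_Ioi (f := fun z => G2 n κ ψ (-z))).2 h3
      have h5 := IntegrableOn.comp_neg_Iic (c := (0 : ℝ)) (f := fun z => G2 n κ ψ (-z)) (by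
        rwa [neg_zero])
      simpa using h5
    have := h2.union h1
    rwa [Iic_union_Ioi, integrableOn_univ] at this
  have hG1 : ∫ z, G1 n κ ψ z = (∫ s in Ioo (0 : ℝ) 1, ψ (-s) * ∫ z in Ioi (zz s), κ (-z) * (s * (rr z ^ (n + 1))⁻¹ +
        ((n : ℝ) - 2) * s ^ n * (z ^ (n + 1))⁻¹)) + ∫ s in Ioo (0 : ℝ) 1, ψ s * ∫ z in Ioi (zz s), κ z * (s * (rr z ^ (n + 1))⁻¹ +
        ((n : ℝ) - 2) * s ^ n * (z ^ (n + 1))⁻¹) := by
    rw [← intervalIntegral.integral_Iic_add_Ioi (b := 0) hG1i.integrableOn hG1i.integrableOn]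
    have h1 := integral_comp_neg_Ioi 0 (G1 n κ ψ)
    rw [neg_zero] at h1
    rw [← h1, ← a3, ← b3]
    simp only [G1_neg]
    rfl
  have hG2 : ∫ z, G2 n κ ψ z = (∫ s in Ioo (0 : ℝ) 1, ψ (-s) * ((√(1 - s ^ 2)) ^ n * κ (-zz s))) +
      ∫ s in Ioo (0 : ℝ) 1, ψ s * ((√(1 - s ^ 2)) ^ n * κ (zz s)) := by
    rw [← intervalIntegral.integral_Iic_add_Ioi (b := 0) hG2i.integrableOn hG2i.integrableOn]
    have h1 := integral_comp_neg_Ioi 0 (G2 n κ ψ)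
    rw [neg_zero] at h1
    rw [← h1, ← c3, ← d3]
    simp only [G2_neg]
    rfl
  have hL : ∀ z : ℝ, κ z * ((D + (∫ s in (0 : ℝ)..(z / √(1 + z ^ 2)), s * ψ s) -
      (1 - (z / √(1 + z ^ 2)) ^ 2) * ψ (z / √(1 + z ^ 2)) +
      ((n : ℝ) - 2) * ∫ s in (0 : ℝ)..1, ψ (z / √(1 + z ^ 2) * s) * s ^ n) * ((√(1 + z ^ 2)) ^ (n + 1))⁻¹) =
      D * (κ z * (rr z ^ (n + 1))⁻¹) + G1 n κ ψ z - G2 n κ ψ z := by
    intro z
    unfold G1 G2 tt rr
    ring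
  simp only [hL]
  have e0 : Integrable (fun z => D * (κ z * (rr z ^ (n + 1))⁻¹) + G1 n κ ψ z) :=
    (hint0.const_mul D).add hG1i
  rw [integral_sub e0 hG2i, integral_add (hint0.const_mul D) hG1i,
    integral_const_mul, ← hI, hG1, hG2]
  -- the right hand side
  rw [intervalIntegral.integral_of_le zero_le_one, integral_Ioc_eq_integral_Ioo]
  have hci : IntegrableOn (fun s => (ψ s + ψ (-s)) * c s) (Ioo 0 1) :=
    (((hψ.add hψ').continuousOn.mul hc).integrableOn_Icc).mono_set Ioo_subset_Icc_self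
  have hR : ∀ s : ℝ, ψ s * Mf n c s κ + ψ (-s) * Mf n c s (fun z => κ (-z)) =
      I * ((ψ s + ψ (-s)) * c s) +
      ((ψ (-s) * ∫ z in Ioi (zz s), κ (-z) * (s * (rr z ^ (n + 1))⁻¹ +
        ((n : ℝ) - 2) * s ^ n * (z ^ (n + 1))⁻¹)) +
      (ψ s * ∫ z in Ioi (zz s), κ z * (s * (rr z ^ (n + 1))⁻¹ +
        ((n : ℝ) - 2) * s ^ n * (z ^ (n + 1))⁻¹))) -
      ((ψ (-s) * ((√(1 - s ^ 2)) ^ n * κ (-zz s))) + (ψ s * ((√(1 - s ^ 2)) ^ n * κ (zz s)))) := by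
    intro s
    have h1 : Mf n c s κ = c s * I + (∫ z in Ioi (zz s), κ z * (s * (rr z ^ (n + 1))⁻¹ +
        ((n : ℝ) - 2) * s ^ n * (z ^ (n + 1))⁻¹)) - (√(1 - s ^ 2)) ^ n * κ (zz s) := rfl
    have h2 : Mf n c s (fun z => κ (-z)) = c s * I + (∫ z in Ioi (zz s), κ (-z) * (s * (rr z ^ (n + 1))⁻¹ +
        ((n : ℝ) - 2) * s ^ n * (z ^ (n + 1))⁻¹)) - (√(1 - s ^ 2)) ^ n * κ (-zz s) := by
      rw [← hI']
      rfl
    rw [h1, h2]
    ring
  simp only [hR]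
  have e1 : IntegrableOn (fun s => I * ((ψ s + ψ (-s)) * c s)) (Ioo 0 1) := hci.const_mul I
  have e2 : IntegrableOn (fun s => (ψ (-s) * ∫ z in Ioi (zz s), κ (-z) * (s * (rr z ^ (n + 1))⁻¹ +
        ((n : ℝ) - 2) * s ^ n * (z ^ (n + 1))⁻¹)) +
      (ψ s * ∫ z in Ioi (zz s), κ z * (s * (rr z ^ (n + 1))⁻¹ +
        ((n : ℝ) - 2) * s ^ n * (z ^ (n + 1))⁻¹))) (Ioo 0 1) := b2.add a2
  have e3 : IntegrableOn (fun s => (ψ (-s) * ((√(1 - s ^ 2)) ^ n * κ (-zz s))) +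
      (ψ s * ((√(1 - s ^ 2)) ^ n * κ (zz s)))) (Ioo 0 1) := d2.add c2
  have e4 : IntegrableOn (fun s => I * ((ψ s + ψ (-s)) * c s) +
      ((ψ (-s) * ∫ z in Ioi (zz s), κ (-z) * (s * (rr z ^ (n + 1))⁻¹ +
        ((n : ℝ) - 2) * s ^ n * (z ^ (n + 1))⁻¹)) +
      (ψ s * ∫ z in Ioi (zz s), κ z * (s * (rr z ^ (n + 1))⁻¹ +
        ((n : ℝ) - 2) * s ^ n * (z ^ (n + 1))⁻¹)))) (Ioo 0 1) := e1.add e2
  rw [integral_sub e4 e3, integral_add e1 e2,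
    integral_add b2 a2, integral_add d2 c2, integral_const_mul]
  rw [hD, intervalIntegral.integral_of_le zero_le_one, integral_Ioc_eq_integral_Ioo]
  ring

end Pool.Agent.Helper115_ME.C05
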