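import Mathlib
set_option autoImplicit false
/-!
TARGET: for g ∈ C² with ψ = -g'': ∫_0^1 (ψ(s) + ψ(-s)) cs(s) ds = g(0) - W(g)/W(1), W(g) = ∫_{-1}^1 g(t) t² (1-t²)^((n-4)/2) dt.
Proof in words. g(t) = g(0) + g'(0) t - ∫_0^t (t-s) ψ(s) ds (Taylor). Integrate against t² (1-t²)^((n-4)/2) (integrable, exponent ≥ -1/2): the linear term is odd and gives 0, and
∫_0^1 t² (1-t²)^((n-4)/2) ∫_0^t (t-s) ψ(s) ds dt = ∫_0^1 ψ(s) ∫_s^1 (t-s) t² (1-t²)^((n-4)/2) dt ds by Fubini; the part t < 0 is the same with ψ(-·).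
-/
namespace Pool.Agent.Helper115_ME.C06

open MeasureTheory Set

noncomputable def cs (n : ℕ) (s : ℝ) : ℝ :=
  (∫ t in s..1, (t - s) * t ^ 2 * (1 - t ^ 2) ^ (((n : ℝ) - 4) / 2)) /
    ∫ t in (-1 : ℝ)..1, t ^ 2 * (1 - t ^ 2) ^ (((n : ℝ) - 4) / 2)

/-- the weight -/
noncomputable def uw (n : ℕ) (t : ℝ) : ℝ := t ^ 2 * (1 - t ^ 2) ^ (((n : ℝ) - 4) / 2)

theorem uw_neg (n : ℕ) (t : ℝ) : uw n (-t) = uw n t := by
  unfold uw; rw [neg_sq]

theorem uw_meas (n : ℕ) : Measurable (uw n) := by
  unfold uw; fun_prop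

theorem uw_int01 {n : ℕ} (hn : 3 ≤ n) : IntervalIntegrable (uw n) volume 0 1 := by
  have hα : -1 < ((n : ℝ) - 4) / 2 := by
    have : (3 : ℝ) ≤ n := by exact_mod_cast hn
    linarith
  have h1 : IntervalIntegrable (fun t : ℝ => (1 - t) ^ (((n : ℝ) - 4) / 2)) volume 0 1 := by
    have := (intervalIntegral.intervalIntegrable_rpow' (a := 1) (b := 0) hα).comp_sub_left 1
    simpa using this
  have h2 : ContinuousOn (fun t : ℝ => t ^ 2 * (1 + t) ^ (((n : ℝ) - 4) / 2)) (uIcc 0 1) := by
    refine ContinuousOn.mul (by fun_prop) ?_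
    refine ContinuousOn.rpow_const (by fun_prop) ?_
    intro t ht
    rw [uIcc_of_le zero_le_one] at ht
    left
    have := ht.1
    positivity
  have h3 := h1.mul_continuousOn h2
  refine h3.congr ?_
  intro t ht
  rw [uIoc_of_le zero_le_one] at ht
  simp only [uw]
  have e : (1 - t ^ 2 : ℝ) = (1 - t) * (1 + t) := by ring
  rw [e, Real.mul_rpow (by linarith [ht.2]) (by linarith [ht.1])]
  ring

theorem uw_int_neg {n : ℕ} (hn : 3 ≤ n) : IntervalIntegrable (uw n) volume (-1) 0 := by
  have h := (uw_int01 hn).comp_sub_left 0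
  simp only [zero_sub, sub_zero] at h
  have h2 := h.symm
  refine h2.congr ?_
  intro t _
  exact uw_neg n t

theorem uw_int {n : ℕ} (hn : 3 ≤ n) : IntervalIntegrable (uw n) volume (-1) 1 :=
  (uw_int_neg hn).trans (uw_int01 hn)

theorem uw_pos {n : ℕ} {t : ℝ} (h0 : 0 < t) (h1 : t < 1) : 0 < uw n t := by
  unfold uw
  have : 0 < 1 - t ^ 2 := by nlinarith
  positivity

theorem uw_cont {n : ℕ} {t : ℝ} (h0 : 0 < t) (h1 : t < 1) : ContinuousAt (uw n) t := by
  unfold uw
  have : 0 < 1 - t ^ 2 := by nlinarith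
  refine ContinuousAt.mul (by fun_prop) ?_
  exact ContinuousAt.rpow_const (by fun_prop) (Or.inl this.ne')

/-- symmetrization -/
theorem symm_int {n : ℕ} (hn : 3 ≤ n) {g : ℝ → ℝ} (hg : Continuous g) :
    ∫ t in (-1 : ℝ)..1, g t * uw n t = ∫ t in (0 : ℝ)..1, (g t + g (-t)) * uw n t := by
  have i1 : IntervalIntegrable (fun t => g t * uw n t) volume (-1) 0 :=
    (uw_int_neg hn).continuousOn_mul hg.continuousOn
  have i2 : IntervalIntegrable (fun t => g t * uw n t) volume 0 1 :=
    (uw_int01 hn).continuousOn_mul hg.continuousOn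
  have i3 : IntervalIntegrable (fun t => g (-t) * uw n t) volume 0 1 :=
    (uw_int01 hn).continuousOn_mul (hg.comp continuous_neg).continuousOn
  rw [← intervalIntegral.integral_add_adjacent_intervals i1 i2]
  have e1 : ∫ t in (-1 : ℝ)..0, g t * uw n t = ∫ t in (0 : ℝ)..1, g (-t) * uw n t := by
    have := intervalIntegral.integral_comp_neg (a := 0) (b := 1) (fun t => g t * uw n t)
    rw [neg_zero] at this
    rw [← this]
    refine intervalIntegral.integral_congr fun t _ => ?_
    simp only [uw_neg]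
  rw [e1, ← intervalIntegral.integral_add i3 i2]
  refine intervalIntegral.integral_congr fun t _ => ?_
  ring

theorem const_identity {n : ℕ} (hn : 3 ≤ n) (g : ℝ → ℝ) (hg : ContDiff ℝ 2 g) :
    ∫ s in (0 : ℝ)..1, ((-deriv (deriv g) s) + (-deriv (deriv g) (-s))) * cs n s =
      g 0 - (∫ t in (-1 : ℝ)..1, g t * t ^ 2 * (1 - t ^ 2) ^ (((n : ℝ) - 4) / 2)) /
        ∫ t in (-1 : ℝ)..1, t ^ 2 * (1 - t ^ 2) ^ (((n : ℝ) - 4) / 2) := by
  -- rewriting in terms of `uw`
  set W1 : ℝ := ∫ t in (-1 : ℝ)..1, t ^ 2 * (1 - t ^ 2) ^ (((n : ℝ) - 4) / 2) with hW1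
  have hW1' : W1 = 2 * ∫ t in (0 : ℝ)..1, uw n t := by
    have h := symm_int hn (g := fun _ => (1 : ℝ)) continuous_const
    simp only [one_mul] at h
    change ∫ t in (-1 : ℝ)..1, uw n t = _
    rw [h, ← intervalIntegral.integral_const_mul]
    refine intervalIntegral.integral_congr fun t _ => ?_
    ring
  have hpos : 0 < ∫ t in (0 : ℝ)..1, uw n t := by
    refine intervalIntegral.intervalIntegral_pos_of_pos_on (uw_int01 hn) ?_ one_pos
    intro t ht
    exact uw_pos ht.1 ht.2
  have hW10 : W1 ≠ 0 := by rw [hW1']; positivity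
  have hWg : (∫ t in (-1 : ℝ)..1, g t * t ^ 2 * (1 - t ^ 2) ^ (((n : ℝ) - 4) / 2)) =
      ∫ t in (0 : ℝ)..1, (g t + g (-t)) * uw n t := by
    rw [← symm_int hn hg.continuous]
    refine intervalIntegral.integral_congr fun t _ => ?_
    simp only [uw]
    ring
  -- smoothness
  have hg1 : ContDiff ℝ 1 (deriv g) := (contDiff_succ_iff_deriv (n := 1)).1 hg |>.2.2
  have hgd : Differentiable ℝ g := hg.differentiable (by norm_num)
  have hg1d : Differentiable ℝ (deriv g) := hg1.differentiable (by norm_num)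
  have hg2c : Continuous (deriv (deriv g)) := hg1.continuous_deriv (by norm_num)
  -- the kernels
  set J : ℝ → ℝ := fun s => ∫ t in s..1, uw n t with hJ
  set K : ℝ → ℝ := fun s => (∫ t in s..1, t * uw n t) - s * J s with hK
  have htu : IntervalIntegrable (fun t => t * uw n t) volume 0 1 :=
    (uw_int01 hn).continuousOn_mul continuousOn_id
  have hIcc : ∀ f : ℝ → ℝ, IntervalIntegrable f volume 0 1 → IntegrableOn f (uIcc 0 1) := by
    intro f hf
    rw [uIcc_of_le zero_le_one]
    exact (intervalIntegrable_iff_integrableOn_Icc_of_le zero_le_one).1 hf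
  have hJc : ContinuousOn J (uIcc 0 1) :=
    intervalIntegral.continuousOn_primitive_interval_left (hIcc _ (uw_int01 hn))
  have hKc : ContinuousOn K (uIcc 0 1) := by
    refine ContinuousOn.sub ?_ (continuousOn_id.mul hJc)
    exact intervalIntegral.continuousOn_primitive_interval_left (hIcc _ htu)
  have hJd : ∀ s ∈ Ioo (0 : ℝ) 1, HasDerivAt J (-(uw n s)) s := by
    intro s hs
    refine intervalIntegral.integral_hasDerivAt_left ?_ ?_ (uw_cont hs.1 hs.2)
    · refine (uw_int01 hn).mono_set ?_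
      rw [uIcc_of_le hs.2.le, uIcc_of_le zero_le_one]
      exact Icc_subset_Icc_left hs.1.le
    · exact (uw_meas n).stronglyMeasurable.stronglyMeasurableAtFilter
  have hKd : ∀ s ∈ Ioo (0 : ℝ) 1, HasDerivAt K (-(J s)) s := by
    intro s hs
    have h1 : HasDerivAt (fun s => ∫ t in s..1, t * uw n t) (-(s * uw n s)) s := by
      refine intervalIntegral.integral_hasDerivAt_left ?_ ?_
        (continuousAt_id.mul (uw_cont hs.1 hs.2))
      · refine htu.mono_set ?_
        rw [uIcc_of_le hs.2.le, uIcc_of_le zero_le_one]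
        exact Icc_subset_Icc_left hs.1.le
      · exact (measurable_id.mul (uw_meas n)).stronglyMeasurable.stronglyMeasurableAtFilter
    have h2 := h1.sub ((hasDerivAt_id s).mul (hJd s hs))
    refine h2.congr_deriv ?_
    simp only [id]
    ring
  have hK1 : K 1 = 0 := by simp [hK, hJ]
  have hJ1 : J 1 = 0 := by simp [hJ]
  -- the numerator of `cs`
  have hcs : ∀ s ∈ uIcc (0 : ℝ) 1, cs n s = K s / W1 := by
    intro s hs
    rw [uIcc_of_le zero_le_one] at hs
    unfold cs
    rw [← hW1]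
    congr 1
    have i1 : IntervalIntegrable (fun t => t * uw n t) volume s 1 := by
      refine htu.mono_set ?_
      rw [uIcc_of_le hs.2, uIcc_of_le zero_le_one]
      exact Icc_subset_Icc_left hs.1
    have i2 : IntervalIntegrable (fun t => s * uw n t) volume s 1 := by
      refine IntervalIntegrable.const_mul ?_ s
      refine (uw_int01 hn).mono_set ?_
      rw [uIcc_of_le hs.2, uIcc_of_le zero_le_one]
      exact Icc_subset_Icc_left hs.1
    rw [hK]
    simp only [hJ]
    rw [← intervalIntegral.integral_const_mul, ← intervalIntegral.integral_sub i1 i2]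
    refine intervalIntegral.integral_congr fun t _ => ?_
    simp only [uw]
    ring
  -- the symmetrized function
  set G : ℝ → ℝ := fun t => g t + g (-t) with hG
  set G1 : ℝ → ℝ := fun t => deriv g t - deriv g (-t) with hG1
  set G2 : ℝ → ℝ := fun t => deriv (deriv g) t + deriv (deriv g) (-t) with hG2
  have hGd : ∀ s, HasDerivAt G (G1 s) s := by
    intro s
    have h1 := (hgd s).hasDerivAt
    have h2 := (hgd (-s)).hasDerivAt.comp s (hasDerivAt_neg s)
    refine (h1.add h2).congr_deriv ?_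
    simp only [hG1]
    ring
  have hG1d : ∀ s, HasDerivAt G1 (G2 s) s := by
    intro s
    have h1 := (hg1d s).hasDerivAt
    have h2 := (hg1d (-s)).hasDerivAt.comp s (hasDerivAt_neg s)
    refine (h1.sub h2).congr_deriv ?_
    simp only [hG2]
    ring
  have hGc : Continuous G := continuous_iff_continuousAt.2 fun s => (hGd s).continuousAt
  have hG1c : Continuous G1 := continuous_iff_continuousAt.2 fun s => (hG1d s).continuousAt
  have hG2c : Continuous G2 := hg2c.add (hg2c.comp continuous_neg)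
  have hG10 : G1 0 = 0 := by simp [hG1]
  have hG0 : G 0 = 2 * g 0 := by simp [hG]; ring
  -- the integrations by parts
  have hIoo : Ioo (min (0 : ℝ) 1) (max 0 1) = Ioo 0 1 := by
    rw [min_eq_left zero_le_one, max_eq_right zero_le_one]
  have p1 := intervalIntegral.integral_mul_deriv_eq_deriv_mul_of_hasDerivAt (a := 0) (b := 1)
    (u := G1) (v := K) (u' := G2) (v' := fun s => -(J s)) hG1c.continuousOn hKc
    (fun s _ => hG1d s) (fun s hs => hKd s (hIoo ▸ hs)) (hG2c.intervalIntegrable 0 1)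
    (hJc.intervalIntegrable.neg)
  have p2 := intervalIntegral.integral_mul_deriv_eq_deriv_mul_of_hasDerivAt (a := 0) (b := 1)
    (u := G) (v := J) (u' := G1) (v' := fun s => -(uw n s)) hGc.continuousOn hJc
    (fun s _ => hGd s) (fun s hs => hJd s (hIoo ▸ hs)) (hG1c.intervalIntegrable 0 1)
    ((uw_int01 hn).neg)
  rw [hK1, hG10] at p1
  rw [hJ1, hG0] at p2
  simp only [mul_neg, intervalIntegral.integral_neg, mul_zero, zero_mul, sub_zero,
    zero_sub] at p1 p2
  have hJ0 : J 0 = ∫ t in (0 : ℝ)..1, uw n t := rfl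
  -- conclusion
  have hL : ∫ s in (0 : ℝ)..1, ((-deriv (deriv g) s) + (-deriv (deriv g) (-s))) * cs n s =
      -(∫ s in (0 : ℝ)..1, G2 s * K s) / W1 := by
    rw [← intervalIntegral.integral_neg, ← intervalIntegral.integral_div]
    refine intervalIntegral.integral_congr fun s hs => ?_
    simp only [hcs s hs, hG2]
    ring
  rw [hL, hWg]
  have hfin : -(∫ s in (0 : ℝ)..1, G2 s * K s) = g 0 * W1 - ∫ t in (0 : ℝ)..1, G t * uw n t := by
    rw [hW1', ← hJ0]
    linarith
  rw [hfin, sub_div, mul_div_cancel_right₀ _ hW10]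

end Pool.Agent.Helper115_ME.C06
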