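import Mathlib
set_option autoImplicit false
/-!
TARGET: second derivative along a great circle of u ↦ ∫_S h(v) g(⟨u,v⟩) dσ(v) for g ∈ C².
Proof in words. With τ_θ(v) = cos θ ⟨u,v⟩ + sin θ ⟨w,v⟩, τ'_θ = - sin θ ⟨u,v⟩ + cos θ ⟨w,v⟩, τ''_θ = - τ_θ, differentiate twice under the integral sign (everything is bounded on the compact sphere,
σ is finite; `hasDerivAt_integral_of_dominated_loc_of_deriv_le`): the second derivative is ∫ h(v) [g''(τ_θ) (τ'_θ)² - g'(τ_θ) τ_θ] dσ, continuous in θ by dominated convergence
(`continuous_of_dominated` or `continuous_parametric_integral_of_continuous`). Note the scalar product of the statement: ⟨cos θ u + sin θ w, v⟩ = τ_θ(v).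
-/
namespace Pool.Agent.Helper115_ME.C07

open MeasureTheory Metric Set

abbrev E (n : ℕ) := EuclideanSpace ℝ (Fin n)

abbrev Sph (n : ℕ) := Metric.sphere (0 : E n) 1

theorem paramCont {K : Type*} [TopologicalSpace K] [CompactSpace K] [SecondCountableTopology K]
    [MeasurableSpace K] [BorelSpace K] (μ : Measure K) [IsFiniteMeasure μ]
    (F : ℝ → K → ℝ) (hF : Continuous (Function.uncurry F)) :
    Continuous (fun t => ∫ v, F t v ∂μ) := by
  have := continuous_parametric_integral_of_continuous (μ := μ) hF (isCompact_univ : IsCompact (univ : Set K))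
  simpa using this

theorem paramDeriv {K : Type*} [TopologicalSpace K] [CompactSpace K] [SecondCountableTopology K]
    [MeasurableSpace K] [BorelSpace K] (μ : Measure K) [IsFiniteMeasure μ]
    (F F' : ℝ → K → ℝ) (hF : Continuous (Function.uncurry F)) (hF' : Continuous (Function.uncurry F'))
    (hd : ∀ θ v, HasDerivAt (fun t => F t v) (F' θ v) θ) (θ : ℝ) :
    HasDerivAt (fun t => ∫ v, F t v ∂μ) (∫ v, F' θ v ∂μ) θ := by
  have hcomp : IsCompact ((closedBall θ 1) ×ˢ (univ : Set K)) := (isCompact_closedBall θ 1).prod isCompact_univ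
  obtain ⟨C, hC⟩ := hcomp.exists_bound_of_continuousOn hF'.continuousOn
  have hsec : ∀ t, Continuous (F t) := fun t => hF.comp (Continuous.prodMk continuous_const continuous_id)
  have hsec' : ∀ t, Continuous (F' t) := fun t => hF'.comp (Continuous.prodMk continuous_const continuous_id)
  have hint : ∀ (f : K → ℝ), Continuous f → Integrable f μ := by
    intro f hf
    obtain ⟨B, hB⟩ := (isCompact_univ : IsCompact (univ : Set K)).exists_bound_of_continuousOn hf.continuousOn
    exact Integrable.of_bound hf.aestronglyMeasurable B (Filter.Eventually.of_forall fun v => hB v (mem_univ v))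
  refine (hasDerivAt_integral_of_dominated_loc_of_deriv_le (μ := μ) (F := F) (F' := F') (x₀ := θ)
    (s := ball θ 1) (bound := fun _ => C) (ball_mem_nhds θ one_pos) ?_ (hint _ (hsec θ))
    (hsec' θ).aestronglyMeasurable ?_ (integrable_const C) ?_).2
  · exact Filter.Eventually.of_forall fun t => (hsec t).aestronglyMeasurable
  · refine Filter.Eventually.of_forall fun v t ht => ?_
    exact hC (t, v) ⟨ball_subset_closedBall ht, mem_univ _⟩
  · exact Filter.Eventually.of_forall fun v t _ => hd t v

theorem sphere_second_deriv {n : ℕ} (g : ℝ → ℝ) (hg : ContDiff ℝ 2 g) (h : Sph n → ℝ) (hh : Continuous h)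
    (u w : E n) :
    ContDiff ℝ 2 (fun θ : ℝ => ∫ v : Sph n, h v * g (inner ℝ (Real.cos θ • u + Real.sin θ • w) (v : E n))
      ∂((volume : Measure (E n)).toSphere)) ∧
    (∫ v : Sph n, h v * g (inner ℝ u (v : E n)) ∂((volume : Measure (E n)).toSphere)) +
      iteratedDeriv 2 (fun θ : ℝ => ∫ v : Sph n, h v * g (inner ℝ (Real.cos θ • u + Real.sin θ • w) (v : E n))
      ∂((volume : Measure (E n)).toSphere)) 0 =
    ∫ v : Sph n, h v * (g (inner ℝ u (v : E n)) - inner ℝ u (v : E n) * deriv g (inner ℝ u (v : E n)) +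
      deriv (deriv g) (inner ℝ u (v : E n)) * (inner ℝ w (v : E n)) ^ 2) ∂((volume : Measure (E n)).toSphere) := by
  set μ : Measure (Sph n) := (volume : Measure (E n)).toSphere with hμ
  haveI : CompactSpace (Sph n) := isCompact_iff_compactSpace.mp (isCompact_sphere 0 1)
  haveI : IsFiniteMeasure μ := by rw [hμ]; infer_instance
  -- regularity of g
  have hg1 : ContDiff ℝ 1 (deriv g) := by
    have h2 : ContDiff ℝ (1 + 1) g := by
      have : ((1 : WithTop ℕ∞) + 1) = 2 := by norm_num
      rw [this]; exact hg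
    exact (contDiff_succ_iff_deriv.mp h2).2.2
  have hg0d : Differentiable ℝ g := hg.differentiable (by norm_num)
  have hg1d : Differentiable ℝ (deriv g) := hg1.differentiable (by norm_num)
  have hgc : Continuous g := hg.continuous
  have hg1c : Continuous (deriv g) := hg1.continuous
  have hg2c : Continuous (deriv (deriv g)) := by
    have := contDiff_one_iff_deriv.mp hg1
    exact this.2
  -- the curves
  let τ : ℝ → Sph n → ℝ := fun θ v => inner ℝ (Real.cos θ • u + Real.sin θ • w) (v : E n)
  let τ' : ℝ → Sph n → ℝ := fun θ v => inner ℝ (-Real.sin θ • u + Real.cos θ • w) (v : E n)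
  have hval : Continuous (fun p : ℝ × Sph n => ((p.2 : Sph n) : E n)) := continuous_subtype_val.comp continuous_snd
  have hτc : Continuous (Function.uncurry τ) := by
    have h1 : Continuous (fun p : ℝ × Sph n => Real.cos p.1 • u + Real.sin p.1 • w) :=
      ((Real.continuous_cos.comp continuous_fst).smul continuous_const).add
        ((Real.continuous_sin.comp continuous_fst).smul continuous_const)
    exact h1.inner hval
  have hτ'c : Continuous (Function.uncurry τ') := by
    have h1 : Continuous (fun p : ℝ × Sph n => -Real.sin p.1 • u + Real.cos p.1 • w) :=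
      (((Real.continuous_sin.comp continuous_fst).neg).smul continuous_const).add
        ((Real.continuous_cos.comp continuous_fst).smul continuous_const)
    exact h1.inner hval
  have hτe : ∀ θ v, τ θ v = Real.cos θ * inner ℝ u (v : E n) + Real.sin θ * inner ℝ w (v : E n) := by
    intro θ v
    simp only [τ, inner_add_left, real_inner_smul_left]
  have hτ'e : ∀ θ v, τ' θ v = -Real.sin θ * inner ℝ u (v : E n) + Real.cos θ * inner ℝ w (v : E n) := by
    intro θ v
    simp only [τ', inner_add_left, real_inner_smul_left]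
  have hdτ : ∀ θ v, HasDerivAt (fun t => τ t v) (τ' θ v) θ := by
    intro θ v
    have e : (fun t => τ t v) = fun t => Real.cos t * inner ℝ u (v : E n) + Real.sin t * inner ℝ w (v : E n) := by
      funext t; exact hτe t v
    rw [e, hτ'e]
    exact ((Real.hasDerivAt_cos θ).mul_const _).add ((Real.hasDerivAt_sin θ).mul_const _)
  have hdτ' : ∀ θ v, HasDerivAt (fun t => τ' t v) (-τ θ v) θ := by
    intro θ v
    have e : (fun t => τ' t v) = fun t => -Real.sin t * inner ℝ u (v : E n) + Real.cos t * inner ℝ w (v : E n) := by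
      funext t; exact hτ'e t v
    rw [e, hτe]
    have := ((Real.hasDerivAt_sin θ).neg.mul_const (inner ℝ u (v : E n))).add
      ((Real.hasDerivAt_cos θ).mul_const (inner ℝ w (v : E n)))
    exact this.congr_deriv (by ring)
  let G0 : ℝ → Sph n → ℝ := fun θ v => h v * g (τ θ v)
  let G1 : ℝ → Sph n → ℝ := fun θ v => h v * (deriv g (τ θ v) * τ' θ v)
  let G2 : ℝ → Sph n → ℝ := fun θ v =>
    h v * (deriv (deriv g) (τ θ v) * τ' θ v * τ' θ v + deriv g (τ θ v) * (-τ θ v))
  have hhc : Continuous (fun p : ℝ × Sph n => h p.2) := hh.comp continuous_snd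
  have hG0c : Continuous (Function.uncurry G0) := hhc.mul (hgc.comp hτc)
  have hG1c : Continuous (Function.uncurry G1) := hhc.mul ((hg1c.comp hτc).mul hτ'c)
  have hG2c : Continuous (Function.uncurry G2) :=
    hhc.mul ((((hg2c.comp hτc).mul hτ'c).mul hτ'c).add ((hg1c.comp hτc).mul hτc.neg))
  have hd0 : ∀ θ v, HasDerivAt (fun t => G0 t v) (G1 θ v) θ := by
    intro θ v
    exact ((hg0d (τ θ v)).hasDerivAt.comp θ (hdτ θ v)).const_mul (h v)
  have hd1 : ∀ θ v, HasDerivAt (fun t => G1 t v) (G2 θ v) θ := by
    intro θ v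
    exact (((hg1d (τ θ v)).hasDerivAt.comp θ (hdτ θ v)).mul (hdτ' θ v)).const_mul (h v)
  have hD0 := paramDeriv μ G0 G1 hG0c hG1c hd0
  have hD1 := paramDeriv μ G1 G2 hG1c hG2c hd1
  have e0 : deriv (fun θ => ∫ v, G0 θ v ∂μ) = fun θ => ∫ v, G1 θ v ∂μ := by
    funext θ; exact (hD0 θ).deriv
  have e1 : deriv (fun θ => ∫ v, G1 θ v ∂μ) = fun θ => ∫ v, G2 θ v ∂μ := by
    funext θ; exact (hD1 θ).deriv
  have hint : ∀ (f : Sph n → ℝ), Continuous f → Integrable f μ := by
    intro f hf
    obtain ⟨B, hB⟩ := (isCompact_univ : IsCompact (univ : Set (Sph n))).exists_bound_of_continuousOn hf.continuousOn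
    exact Integrable.of_bound hf.aestronglyMeasurable B (Filter.Eventually.of_forall fun v => hB v (mem_univ v))
  constructor
  · show ContDiff ℝ 2 (fun θ : ℝ => ∫ v, G0 θ v ∂μ)
    have h12 : (2 : WithTop ℕ∞) = 1 + 1 := by norm_num
    rw [h12, contDiff_succ_iff_deriv]
    refine ⟨fun θ => (hD0 θ).differentiableAt, by simp, ?_⟩
    rw [e0, contDiff_one_iff_deriv]
    refine ⟨fun θ => (hD1 θ).differentiableAt, ?_⟩
    rw [e1]
    exact paramCont μ G2 hG2c
  · show (∫ v : Sph n, h v * g (inner ℝ u (v : E n)) ∂μ) + iteratedDeriv 2 (fun θ : ℝ => ∫ v, G0 θ v ∂μ) 0 = _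
    rw [iteratedDeriv_succ, iteratedDeriv_one, e0, e1]
    have hc0 : Continuous (fun v : Sph n => h v * g (inner ℝ u (v : E n))) :=
      hh.mul (hgc.comp (continuous_const.inner continuous_subtype_val))
    have hc2 : Continuous (G2 0) := hG2c.comp (Continuous.prodMk continuous_const continuous_id)
    rw [← integral_add (hint _ hc0) (hint _ hc2)]
    refine integral_congr_ae (Filter.Eventually.of_forall fun v => ?_)
    have t0 : τ 0 v = inner ℝ u (v : E n) := by rw [hτe]; simp
    have t1 : τ' 0 v = inner ℝ w (v : E n) := by rw [hτ'e]; simp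
    simp only [G2, t0, t1]
    ring

end Pool.Agent.Helper115_ME.C07
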