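import Mathlib
set_option autoImplicit false
/-!
A concave function on [-1,1] is a bounded pointwise limit on (-1,1) of smooth functions which are concave on [-1,1].
-/
namespace Pool.Agent.Helper115_ME.C08

open MeasureTheory Set Filter Topology
open scoped ContDiff Convolution

section Aux

theorem bounded_of_concave (g : ℝ → ℝ) (hg : ConcaveOn ℝ (Icc (-1) 1) g) :
    ∃ C, 0 ≤ C ∧ ∀ t ∈ Icc (-1 : ℝ) 1, |g t| ≤ C := by
  set m := min (g (-1)) (g 1) with hm
  have hlow : ∀ t ∈ Icc (-1 : ℝ) 1, m ≤ g t := by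
    intro t ht
    have h1 : (-1 : ℝ) ∈ Icc (-1 : ℝ) 1 := by constructor <;> norm_num
    have h2 : (1 : ℝ) ∈ Icc (-1 : ℝ) 1 := by constructor <;> norm_num
    have h3 := hg.2 h1 h2 (show (0 : ℝ) ≤ (1 - t) / 2 by linarith [ht.2])
      (show (0 : ℝ) ≤ (1 + t) / 2 by linarith [ht.1]) (by ring)
    simp only [smul_eq_mul] at h3
    have h4 : (1 - t) / 2 * -1 + (1 + t) / 2 * 1 = t := by ring
    rw [h4] at h3
    have h5 : m ≤ g (-1) := min_le_left _ _
    have h6 : m ≤ g 1 := min_le_right _ _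
    have h7 : 0 ≤ (1 - t) / 2 := by linarith [ht.2]
    have h8 : 0 ≤ (1 + t) / 2 := by linarith [ht.1]
    nlinarith [mul_le_mul_of_nonneg_left h5 h7, mul_le_mul_of_nonneg_left h6 h8]
  have hup : ∀ t ∈ Icc (-1 : ℝ) 1, g t ≤ 2 * g 0 - m := by
    intro t ht
    have ht' : -t ∈ Icc (-1 : ℝ) 1 := ⟨by linarith [ht.2], by linarith [ht.1]⟩
    have h3 := hg.2 ht ht' (show (0 : ℝ) ≤ 1 / 2 by norm_num) (show (0 : ℝ) ≤ 1 / 2 by norm_num)
      (by norm_num)
    simp only [smul_eq_mul] at h3
    have h4 : (1 / 2 : ℝ) * t + 1 / 2 * -t = 0 := by ring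
    rw [h4] at h3
    linarith [hlow _ ht']
  refine ⟨|m| + |2 * g 0 - m|, by positivity, ?_⟩
  intro t ht
  rw [abs_le]
  constructor
  · have := neg_abs_le m
    have h1 := abs_nonneg (2 * g 0 - m)
    linarith [hlow t ht]
  · have := le_abs_self (2 * g 0 - m)
    have h1 := abs_nonneg m
    linarith [hup t ht]

/-- the extension by zero -/
noncomputable def ext0 (g : ℝ → ℝ) : ℝ → ℝ := indicator (Icc (-1) 1) g

theorem ext0_of_mem (g : ℝ → ℝ) {t : ℝ} (ht : t ∈ Icc (-1 : ℝ) 1) : ext0 g t = g t :=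
  indicator_of_mem ht g

theorem contOn (g : ℝ → ℝ) (hg : ConcaveOn ℝ (Icc (-1) 1) g) : ContinuousOn g (Ioo (-1) 1) := by
  have h1 := hg.subset Ioo_subset_Icc_self (convex_Ioo (-1 : ℝ) 1)
  exact h1.continuousOn isOpen_Ioo

theorem meas_ext0 (g : ℝ → ℝ) (hg : ConcaveOn ℝ (Icc (-1) 1) g) :
    AEStronglyMeasurable (ext0 g) volume := by
  rw [ext0, aestronglyMeasurable_indicator_iff measurableSet_Icc,
    ← Measure.restrict_congr_set (Ioo_ae_eq_Icc (μ := volume) (a := (-1 : ℝ)) (b := 1))]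
  exact (contOn g hg).aestronglyMeasurable measurableSet_Ioo

theorem int_ext0 (g : ℝ → ℝ) (hg : ConcaveOn ℝ (Icc (-1) 1) g) : Integrable (ext0 g) volume := by
  obtain ⟨C, hC, hb⟩ := bounded_of_concave g hg
  have h1 : AEStronglyMeasurable g (volume.restrict (Icc (-1 : ℝ) 1)) := by
    have := meas_ext0 g hg
    rwa [ext0, aestronglyMeasurable_indicator_iff measurableSet_Icc] at this
  rw [ext0, integrable_indicator_iff measurableSet_Icc]
  refine Integrable.of_bound h1 C ?_
  filter_upwards [ae_restrict_mem measurableSet_Icc] with t ht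
  exact hb t ht

/-- the bump -/
noncomputable def bump (j : ℕ) : ContDiffBump (0 : ℝ) where
  rIn := 1 / (4 * ((j : ℝ) + 2))
  rOut := 1 / (2 * ((j : ℝ) + 2))
  rIn_pos := by positivity
  rIn_lt_rOut := by
    apply one_div_lt_one_div_of_lt
    · positivity
    · have : (0 : ℝ) ≤ j := Nat.cast_nonneg j
      linarith

/-- the contraction factor -/
noncomputable def lam (j : ℕ) : ℝ := 1 - 1 / ((j : ℝ) + 2)

theorem lam_nonneg (j : ℕ) : 0 ≤ lam j := by
  rw [lam, sub_nonneg, div_le_one (by positivity)]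
  have : (0 : ℝ) ≤ j := Nat.cast_nonneg j
  linarith

theorem mem_of (j : ℕ) {t s : ℝ} (ht : t ∈ Icc (-1 : ℝ) 1) (hs : (bump j).normed volume s ≠ 0) :
    lam j * t - s ∈ Icc (-1 : ℝ) 1 := by
  have h1 : s ∈ Function.support ((bump j).normed volume) := hs
  rw [ContDiffBump.support_normed_eq, Metric.mem_ball, dist_zero_right, Real.norm_eq_abs] at h1
  have h2 : |s| < 1 / (2 * ((j : ℝ) + 2)) := h1
  have h3 : |lam j * t| ≤ lam j := by
    rw [abs_mul, abs_of_nonneg (lam_nonneg j)]
    exact mul_le_of_le_one_right (lam_nonneg j) (abs_le.2 ht)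
  have h4 : 1 / (2 * ((j : ℝ) + 2)) ≤ 1 / ((j : ℝ) + 2) := by
    apply one_div_le_one_div_of_le
    · positivity
    · have : (0 : ℝ) ≤ j := Nat.cast_nonneg j
      linarith
  have h5 : |lam j * t - s| ≤ 1 := by
    have := abs_sub (lam j * t) s
    rw [lam] at h3 this ⊢
    linarith
  exact abs_le.1 h5

/-- the convolution -/
noncomputable def conv (g : ℝ → ℝ) (j : ℕ) : ℝ → ℝ :=
  ((bump j).normed volume ⋆[ContinuousLinearMap.lsmul ℝ ℝ, volume] ext0 g)

theorem conv_contDiff (g : ℝ → ℝ) (hg : ConcaveOn ℝ (Icc (-1) 1) g) (j : ℕ) :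
    ContDiff ℝ ∞ (conv g j) :=
  HasCompactSupport.contDiff_convolution_left (μ := volume) _ (bump j).hasCompactSupport_normed
    (bump j).contDiff_normed (int_ext0 g hg).locallyIntegrable

theorem conv_apply (g : ℝ → ℝ) (j : ℕ) (x : ℝ) :
    conv g j x = ∫ s, (bump j).normed volume s * ext0 g (x - s) := by
  rw [conv, convolution_def]
  rfl

theorem conv_integrable (g : ℝ → ℝ) (hg : ConcaveOn ℝ (Icc (-1) 1) g) (j : ℕ) (x : ℝ) :
    Integrable (fun s => (bump j).normed volume s * ext0 g (x - s)) volume := by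
  have h := HasCompactSupport.convolutionExists_left
    (L := ContinuousLinearMap.lsmul ℝ ℝ) (μ := volume)
    ((bump j).hasCompactSupport_normed (μ := volume)) (bump j).continuous_normed
    (int_ext0 g hg).locallyIntegrable x
  exact h

theorem conv_concave (g : ℝ → ℝ) (hg : ConcaveOn ℝ (Icc (-1) 1) g) (j : ℕ) :
    ConcaveOn ℝ (Icc (-1) 1) (fun t => conv g j (lam j * t)) := by
  refine ⟨convex_Icc _ _, ?_⟩
  intro x hx y hy a b ha hb hab
  simp only [smul_eq_mul, conv_apply]
  rw [← integral_const_mul, ← integral_const_mul, ← integral_add]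
  · refine integral_mono ?_ (conv_integrable g hg j _) ?_
    · exact ((conv_integrable g hg j _).const_mul a).add ((conv_integrable g hg j _).const_mul b)
    · intro s
      change a * ((bump j).normed volume s * ext0 g (lam j * x - s)) +
        b * ((bump j).normed volume s * ext0 g (lam j * y - s)) ≤
        (bump j).normed volume s * ext0 g (lam j * (a * x + b * y) - s)
      by_cases hs : (bump j).normed volume s = 0
      · rw [hs]; simp
      · have hx' := mem_of j hx hs
        have hy' := mem_of j hy hs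
        have hz : a * x + b * y ∈ Icc (-1 : ℝ) 1 := by
          have := (convex_Icc (-1 : ℝ) 1) hx hy ha hb hab
          simpa using this
        have hz' := mem_of j hz hs
        rw [ext0_of_mem g hx', ext0_of_mem g hy', ext0_of_mem g hz']
        have h1 := hg.2 hx' hy' ha hb hab
        simp only [smul_eq_mul] at h1
        have h2 : a * (lam j * x - s) + b * (lam j * y - s) = lam j * (a * x + b * y) - s := by
          have : b = 1 - a := by linarith
          subst this
          ring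
        rw [h2] at h1
        have h3 : 0 ≤ (bump j).normed volume s := (bump j).nonneg_normed s
        calc a * ((bump j).normed volume s * g (lam j * x - s)) +
              b * ((bump j).normed volume s * g (lam j * y - s))
            = (bump j).normed volume s * (a * g (lam j * x - s) + b * g (lam j * y - s)) := by ring
          _ ≤ _ := mul_le_mul_of_nonneg_left h1 h3
  · exact (conv_integrable g hg j _).const_mul a
  · exact (conv_integrable g hg j _).const_mul b

theorem conv_bound (g : ℝ → ℝ) {C : ℝ} (hb : ∀ t ∈ Icc (-1 : ℝ) 1, |g t| ≤ C) (j : ℕ) {t : ℝ}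
    (ht : t ∈ Icc (-1 : ℝ) 1) : |conv g j (lam j * t)| ≤ C := by
  rw [conv_apply, ← Real.norm_eq_abs]
  have h1 : ∫ s, (bump j).normed volume s * C = C := by
    rw [integral_mul_const, (bump j).integral_normed, one_mul]
  rw [← h1]
  refine norm_integral_le_of_norm_le ?_ ?_
  · exact (bump j).integrable_normed.mul_const C
  · filter_upwards with s
    rw [Real.norm_eq_abs, abs_mul, abs_of_nonneg ((bump j).nonneg_normed s)]
    by_cases hs : (bump j).normed volume s = 0
    · rw [hs]; simp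
    · have h2 := mem_of j ht hs
      rw [ext0_of_mem g h2]
      exact mul_le_mul_of_nonneg_left (hb _ h2) ((bump j).nonneg_normed s)

theorem deriv2_nonpos (G : ℝ → ℝ) (hG : ContDiff ℝ ∞ G) (hc : ConcaveOn ℝ (Icc (-1) 1) G) :
    ∀ t ∈ Icc (-1 : ℝ) 1, deriv (deriv G) t ≤ 0 := by
  have hd1 : ContDiff ℝ ∞ (deriv G) := (contDiff_infty_iff_deriv.1 hG).2
  have hd2 : ContDiff ℝ ∞ (deriv (deriv G)) := (contDiff_infty_iff_deriv.1 hd1).2
  have hG1 : Differentiable ℝ G := (contDiff_infty_iff_deriv.1 hG).1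
  have hG2 : Differentiable ℝ (deriv G) := (contDiff_infty_iff_deriv.1 hd1).1
  have h1 : AntitoneOn (deriv G) (Icc (-1) 1) := hc.antitoneOn_deriv fun x _ => hG1 x
  have h2 : ∀ t ∈ Ioo (-1 : ℝ) 1, deriv (deriv G) t ≤ 0 := by
    intro t ht
    have h3 : AntitoneOn (deriv G) (Ioo (-1) 1) := h1.mono Ioo_subset_Icc_self
    have h4 := h3.derivWithin_nonpos (x := t)
    rwa [derivWithin_of_isOpen isOpen_Ioo ht] at h4
  have h5 : IsClosed {t | deriv (deriv G) t ≤ 0} := isClosed_le hd2.continuous continuous_const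
  have h6 : closure (Ioo (-1 : ℝ) 1) ⊆ {t | deriv (deriv G) t ≤ 0} :=
    closure_minimal h2 h5
  rw [closure_Ioo (by norm_num)] at h6
  exact fun t ht => h6 ht

end Aux

theorem exists_smooth_concave (g : ℝ → ℝ) (hg : ConcaveOn ℝ (Icc (-1) 1) g) :
    ∃ G : ℕ → ℝ → ℝ, (∀ j, ContDiff ℝ ∞ (G j)) ∧ (∀ j, ∀ t ∈ Icc (-1 : ℝ) 1, deriv (deriv (G j)) t ≤ 0) ∧
      (∃ C, ∀ j, ∀ t ∈ Icc (-1 : ℝ) 1, |G j t| ≤ C) ∧
      (∀ t ∈ Ioo (-1 : ℝ) 1, Tendsto (fun j => G j t) atTop (𝓝 (g t))) := by
  have hsm : ∀ j, ContDiff ℝ ∞ (fun t => conv g j (lam j * t)) := fun j =>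
    (conv_contDiff g hg j).comp (contDiff_const.mul contDiff_id)
  refine ⟨fun j t => conv g j (lam j * t), hsm, fun j => deriv2_nonpos _ (hsm j)
    (conv_concave g hg j), ?_, ?_⟩
  · obtain ⟨C, hC, hb⟩ := bounded_of_concave g hg
    exact ⟨C, fun j t ht => conv_bound g hb j ht⟩
  · intro t ht
    have hlim : Tendsto (fun j : ℕ => 1 / ((j : ℝ) + 2)) atTop (𝓝 0) := by
      have h1 : Tendsto (fun j : ℕ => ((j : ℝ) + 2)) atTop atTop :=
        tendsto_atTop_add_const_right _ _ tendsto_natCast_atTop_atTop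
      simpa [Function.comp_def, Pi.inv_def] using h1.inv_tendsto_atTop
    refine ContDiffBump.convolution_tendsto_right (g := fun _ => ext0 g) (x₀ := t) ?_ ?_ ?_ ?_
    · have h2 : (fun j => (bump j).rOut) = fun j : ℕ => (1 / 2 : ℝ) * (1 / ((j : ℝ) + 2)) := by
        funext j
        change 1 / (2 * ((j : ℝ) + 2)) = _
        field_simp
      rw [h2]
      simpa using hlim.const_mul (1 / 2 : ℝ)
    · exact Eventually.of_forall fun _ => meas_ext0 g hg
    · have h3 : Tendsto (ext0 g) (𝓝 t) (𝓝 (g t)) := by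
        have h4 : ContinuousAt g t := (contOn g hg).continuousAt (Ioo_mem_nhds ht.1 ht.2)
        refine h4.tendsto.congr' ?_
        filter_upwards [Ioo_mem_nhds ht.1 ht.2] with x hx
        exact (ext0_of_mem g (Ioo_subset_Icc_self hx)).symm
      exact h3.comp tendsto_snd
    · have h5 : Tendsto (fun j : ℕ => (1 - 1 / ((j : ℝ) + 2)) * t) atTop (𝓝 ((1 - 0) * t)) :=
        (tendsto_const_nhds.sub hlim).mul_const t
      simpa [lam] using h5

end Pool.Agent.Helper115_ME.C08
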