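import Mathlib
import Pool.Agent.Helper115_ME.Construct
import Pool.Agent.Helper115_ME.BodyCirc
import Pool.Agent.Helper115_ME.CC.C01
import Pool.Agent.Helper115_ME.CC.C03
import Pool.Agent.Helper115_ME.CC.C04
import Pool.Agent.Helper115_ME.CC.C05
import Pool.Agent.Helper115_ME.CC.C06

/-!
# The key inequality for concave densities of class `C²`
-/

set_option autoImplicit false

namespace Pool.Agent.Helper115_ME

open MeasureTheory Metric Set Filter Topology
open scoped ContDiff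

noncomputable section

variable {n : ℕ}

/-- the surface measure of the unit sphere -/
abbrev sig (n : ℕ) : Measure (Sph n) := (volume : Measure (E n)).toSphere

theorem supp_eq_norm_mul (K : ConvexBody (E n)) {x : E n} (hx : x ≠ 0) :
    supp K x = ‖x‖ * ext0 (hS K) x := by
  rw [ext0_apply _ hx]
  show supp K x = ‖x‖ * supp K (‖x‖⁻¹ • x)
  rw [supp_smul K (by positivity), ← mul_assoc, mul_inv_cancel₀ (by simpa using hx), one_mul]

theorem contDiffOn_supp {K : ConvexBody (E n)} (hK : IsSmooth (hS K)) : ContDiffOn ℝ ∞ (supp K) {0}ᶜ := by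
  have h1 : ContDiffOn ℝ ∞ (fun x : E n => ‖x‖ * ext0 (hS K) x) {0}ᶜ := by
    refine ContDiffOn.mul ?_ hK
    intro x hx
    have hx0 : x ≠ 0 := by simpa using hx
    exact (contDiffAt_norm ℝ hx0).contDiffWithinAt
  refine h1.congr fun x hx => ?_
  exact supp_eq_norm_mul K (by simpa using hx)

theorem norm_line {f y : E n} (hf : ‖f‖ = 1) (hy : ‖y‖ = 1) (hfy : inner ℝ f y = (0 : ℝ)) (z : ℝ) :
    ‖y + z • f‖ = √(1 + z ^ 2) := by
  have hyf : inner ℝ y f = (0 : ℝ) := by rw [real_inner_comm]; exact hfy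
  have h1 : ‖y + z • f‖ ^ 2 = 1 + z ^ 2 := by
    rw [← real_inner_self_eq_norm_sq]
    simp only [inner_add_left, inner_add_right, inner_smul_left, inner_smul_right,
      real_inner_self_eq_norm_sq, hf, hy, hfy, hyf, RCLike.conj_to_real]
    ring
  rw [← h1, Real.sqrt_sq (norm_nonneg _)]

theorem line_ne_zero {f y : E n} (hf : ‖f‖ = 1) (hy : ‖y‖ = 1) (hfy : inner ℝ f y = (0 : ℝ)) (z : ℝ) :
    y + z • f ≠ 0 := by
  intro h0
  have h1 := norm_line hf hy hfy z
  rw [h0, norm_zero] at h1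
  have h2 : 0 < √(1 + z ^ 2) := Real.sqrt_pos.2 (by positivity)
  linarith

theorem kappa_convex (K : ConvexBody (E n)) (y f : E n) : ConvexOn ℝ univ (fun z : ℝ => supp K (y + z • f)) := by
  refine ⟨convex_univ, fun a _ b _ s t hs ht hst => ?_⟩
  have h1 : y + (s • a + t • b) • f = s • (y + a • f) + t • (y + b • f) := by
    have h2 : y = (s + t) • y := by rw [hst, one_smul]
    conv_lhs => rw [h2]
    simp only [smul_eq_mul]
    module
  show supp K (y + (s • a + t • b) • f) ≤ s • supp K (y + a • f) + t • supp K (y + b • f)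
  rw [h1]
  refine (supp_add_le K _ _).trans ?_
  rw [supp_smul K hs, supp_smul K ht, smul_eq_mul, smul_eq_mul]

theorem kappa_contDiff {K : ConvexBody (E n)} (hK : IsSmooth (hS K)) {f y : E n} (hf : ‖f‖ = 1)
    (hy : ‖y‖ = 1) (hfy : inner ℝ f y = (0 : ℝ)) : ContDiff ℝ 1 (fun z : ℝ => supp K (y + z • f)) := by
  have h1 : ContDiff ℝ ∞ (fun z : ℝ => y + z • f) :=
    contDiff_const.add (contDiff_id.smul contDiff_const)
  have h2 : ContDiff ℝ ∞ (fun z : ℝ => supp K (y + z • f)) := by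
    rw [← contDiffOn_univ]
    have h3 := (contDiffOn_supp hK).comp (g := supp K) (f := fun z : ℝ => y + z • f) h1.contDiffOn
      (s := univ) (fun z _ => line_ne_zero hf hy hfy z)
    exact h3
  exact h2.of_le (by
    have h : ((1 : ℕ∞) : ℕ∞ω) ≤ ∞ := WithTop.coe_le_coe.2 le_top
    exact h)

theorem abs_supp_le (K : ConvexBody (E n)) : ∃ R : ℝ, 0 ≤ R ∧ ∀ x, |supp K x| ≤ R * ‖x‖ := by
  obtain ⟨R, hR⟩ := K.isCompact.isBounded.exists_norm_le
  refine ⟨|R|, abs_nonneg _, fun x => ?_⟩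
  obtain ⟨z, hz, h⟩ := exists_supp_eq K x
  rw [h]
  refine (abs_real_inner_le_norm _ _).trans (mul_le_mul_of_nonneg_right ?_ (norm_nonneg _))
  exact (hR z hz).trans (le_abs_self _)

theorem kappa_growth (K : ConvexBody (E n)) {f y : E n} (hf : ‖f‖ = 1) (hy : ‖y‖ = 1) :
    ∃ A, ∀ z : ℝ, |supp K (y + z • f)| ≤ A * (1 + |z|) := by
  obtain ⟨R, hR0, hR⟩ := abs_supp_le K
  refine ⟨R, fun z => (hR _).trans (mul_le_mul_of_nonneg_left ?_ hR0)⟩
  refine (norm_add_le _ _).trans ?_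
  rw [hy, norm_smul, hf, mul_one, Real.norm_eq_abs]

/-- `Θ(τ) = ∫_0^1 ψ(τ s) s^n ds` -/
def Theta (n : ℕ) (ψ : ℝ → ℝ) (τ : ℝ) : ℝ := ∫ s in (0 : ℝ)..1, ψ (τ * s) * s ^ n

theorem continuous_Theta (n : ℕ) {ψ : ℝ → ℝ} (hψ : Continuous ψ) : Continuous (Theta n ψ) := by
  have h : Continuous (Function.uncurry fun (τ s : ℝ) => ψ (τ * s) * s ^ n) := by
    have h1 : Continuous fun p : ℝ × ℝ => ψ (p.1 * p.2) := hψ.comp (continuous_fst.mul continuous_snd)
    exact h1.mul (continuous_snd.pow n)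
  exact intervalIntegral.continuous_parametric_intervalIntegral_of_continuous' h 0 1

/-- general reduction: a function `supp K x * Q(⟨u,x⟩/‖x‖, ⟨f,x⟩/‖x‖)` on the sphere -/
theorem sphere_nonneg (hn : 2 ≤ n) (K : ConvexBody (E n)) {f : E n} (hf : ‖f‖ = 1) (u : E n)
    (Q : ℝ → ℝ → ℝ) (hQ : Continuous (Function.uncurry Q))
    (hline : ∀ y : E n, inner ℝ f y = (0 : ℝ) → ‖y‖ = 1 → 0 ≤ ∫ z : ℝ, supp K (y + z • f) *
      (Q ((inner ℝ u y + z * inner ℝ u f) / √(1 + z ^ 2)) (z / √(1 + z ^ 2)) * ((√(1 + z ^ 2)) ^ (n + 1))⁻¹)) :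
    0 ≤ ∫ v : Sph n, hS K v * Q (inner ℝ u (v : E n)) (inner ℝ f (v : E n)) ∂(sig n) := by
  set F : E n → ℝ := fun x => supp K x * (Q (inner ℝ u x / ‖x‖) (inner ℝ f x / ‖x‖) * (‖x‖ ^ (n + 1))⁻¹) with hF
  have hcu : Continuous (fun x : E n => (inner ℝ u x : ℝ)) := by fun_prop
  have hcf : Continuous (fun x : E n => (inner ℝ f x : ℝ)) := by fun_prop
  have hmeas : Measurable F := by
    have h1 : Measurable (supp K) := (continuous_supp K).measurable
    have h2 : Measurable (fun x : E n => ((inner ℝ u x / ‖x‖, inner ℝ f x / ‖x‖) : ℝ × ℝ)) :=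
      (hcu.measurable.div measurable_norm).prodMk (hcf.measurable.div measurable_norm)
    have h3 : Measurable (fun x : E n => Q (inner ℝ u x / ‖x‖) (inner ℝ f x / ‖x‖)) :=
      hQ.measurable.comp h2
    exact h1.mul (h3.mul (measurable_norm.pow_const (n + 1)).inv)
  have hval : ∀ x : E n, ‖x‖ = 1 → F x = supp K x * Q (inner ℝ u x) (inner ℝ f x) := by
    intro x hx
    simp only [hF, hx, div_one, one_pow, inv_one, mul_one]
  have h0 := C01.sphere_nonneg_of_lines hn f hf F hmeas ?_ ?_ ?_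
  · have h1 : (fun v : Sph n => F v) = fun v : Sph n =>
        hS K v * Q (inner ℝ u (v : E n)) (inner ℝ f (v : E n)) := by
      funext v
      exact hval v (norm_coe_sph v)
    rw [h1] at h0
    exact h0
  · intro c hc x
    have hcn : ‖c • x‖ = c * ‖x‖ := by rw [norm_smul, Real.norm_of_nonneg hc.le]
    have e1 : inner ℝ u (c • x) / ‖c • x‖ = inner ℝ u x / ‖x‖ := by
      rw [hcn, inner_smul_right, mul_div_mul_left _ _ hc.ne']
    have e2 : inner ℝ f (c • x) / ‖c • x‖ = inner ℝ f x / ‖x‖ := by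
      rw [hcn, inner_smul_right, mul_div_mul_left _ _ hc.ne']
    show supp K (c • x) * (Q (inner ℝ u (c • x) / ‖c • x‖) (inner ℝ f (c • x) / ‖c • x‖) *
      (‖c • x‖ ^ (n + 1))⁻¹) = (c ^ n)⁻¹ * (supp K x * (Q (inner ℝ u x / ‖x‖) (inner ℝ f x / ‖x‖) *
      (‖x‖ ^ (n + 1))⁻¹))
    rw [e1, e2, hcn, supp_smul K hc.le, mul_pow, mul_inv, pow_succ c n, mul_inv]
    have hc' : c * c⁻¹ = 1 := mul_inv_cancel₀ hc.ne'
    calc c * supp K x * (Q (inner ℝ u x / ‖x‖) (inner ℝ f x / ‖x‖) * ((c ^ n)⁻¹ * c⁻¹ * (‖x‖ ^ (n + 1))⁻¹))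
        = (c * c⁻¹) * ((c ^ n)⁻¹ * (supp K x * (Q (inner ℝ u x / ‖x‖) (inner ℝ f x / ‖x‖) *
          (‖x‖ ^ (n + 1))⁻¹))) := by ring
      _ = _ := by rw [hc', one_mul]
  · have hc : Continuous (fun x : E n => supp K x * Q (inner ℝ u x) (inner ℝ f x)) :=
      (continuous_supp K).mul (hQ.comp (hcu.prodMk hcf))
    obtain ⟨C, hC⟩ := (isCompact_sphere (0 : E n) 1).exists_bound_of_continuousOn hc.continuousOn
    refine ⟨C, fun x hx => ?_⟩
    rw [hval x hx]
    exact hC x (by simpa using hx)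
  · intro y hfy hy
    refine (hline y hfy hy).trans (le_of_eq ?_)
    congr 1
    funext z
    have e1 : inner ℝ u (y + z • f) = inner ℝ u y + z * inner ℝ u f := by
      rw [inner_add_right, inner_smul_right]
    have e2 : inner ℝ f (y + z • f) = z := by
      rw [inner_add_right, inner_smul_right, hfy, real_inner_self_eq_norm_sq, hf]; ring
    show _ = supp K (y + z • f) * (Q (inner ℝ u (y + z • f) / ‖y + z • f‖)
      (inner ℝ f (y + z • f) / ‖y + z • f‖) * (‖y + z • f‖ ^ (n + 1))⁻¹)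
    rw [e1, e2, norm_line hf hy hfy]

/-- first inequality -/
theorem sphere_C1 (hn : 2 ≤ n) {K : ConvexBody (E n)} (hK : IsSmooth (hS K)) {u f : E n}
    (huf : Orthonormal ℝ ![u, f]) {ψ : ℝ → ℝ} (hψ : Continuous ψ) (hψ0 : ∀ t ∈ Icc (-1 : ℝ) 1, 0 ≤ ψ t) :
    0 ≤ ∫ v : Sph n, hS K v * (ψ (inner ℝ u (v : E n)) * (inner ℝ f (v : E n)) ^ 2 -
      Theta n ψ (inner ℝ u (v : E n))) ∂(sig n) := by
  obtain ⟨hu, hf, huf0⟩ := pair_orthonormal huf
  refine sphere_nonneg hn K hf u (fun τ b => ψ τ * b ^ 2 - Theta n ψ τ) ?_ ?_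
  · have h1 : Continuous (fun p : ℝ × ℝ => ψ p.1 * p.2 ^ 2 - Theta n ψ p.1) :=
      ((hψ.comp continuous_fst).mul (continuous_snd.pow 2)).sub ((continuous_Theta n hψ).comp continuous_fst)
    exact h1
  · intro y hfy hy
    have ha : |inner ℝ u y| ≤ (1 : ℝ) := by
      have := abs_real_inner_le_norm u y
      rwa [hu, hy, one_mul] at this
    have h := C03.line_C1 hn (fun z : ℝ => supp K (y + z • f)) (kappa_convex K y f)
      (kappa_contDiff hK hf hy hfy) (kappa_growth K hf hy) ψ hψ hψ0 (inner ℝ u y) ha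
    simp only [huf0, mul_zero, add_zero]
    exact h

/-- the radial part -/
def Rad (n : ℕ) (ψ : ℝ → ℝ) (τ : ℝ) : ℝ :=
  (∫ s in (0 : ℝ)..1, (ψ s + ψ (-s)) * C04.cs n s) + (∫ s in (0 : ℝ)..τ, s * ψ s) -
    (1 - τ ^ 2) * ψ τ + ((n : ℝ) - 2) * Theta n ψ τ

theorem continuous_Rad (n : ℕ) {ψ : ℝ → ℝ} (hψ : Continuous ψ) : Continuous (Rad n ψ) := by
  have h1 : Continuous (fun τ : ℝ => ∫ s in (0 : ℝ)..τ, s * ψ s) :=
    intervalIntegral.continuous_primitive (fun a b => (Continuous.intervalIntegrable (by fun_prop) a b)) 0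
  have h2 := continuous_Theta n hψ
  unfold Rad
  fun_prop

/-- second inequality -/
theorem sphere_C2 (hn : 3 ≤ n) {K : ConvexBody (E n)} {u : E n}
    (hu : ‖u‖ = 1) {ψ : ℝ → ℝ} (hψ : Continuous ψ) (hψ0 : ∀ t ∈ Icc (-1 : ℝ) 1, 0 ≤ ψ t) :
    0 ≤ ∫ v : Sph n, hS K v * Rad n ψ (inner ℝ u (v : E n)) ∂(sig n) := by
  refine sphere_nonneg (by omega) K hu u (fun τ _ => Rad n ψ τ) ?_ ?_
  · have h1 : Continuous (fun p : ℝ × ℝ => Rad n ψ p.1) := (continuous_Rad n hψ).comp continuous_fst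
    exact h1
  · intro y hfy hy
    have huu : inner ℝ u u = (1 : ℝ) := by rw [real_inner_self_eq_norm_sq, hu]; norm_num
    simp only [hfy, huu, mul_one, zero_add]
    set κ : ℝ → ℝ := fun z => supp K (y + z • u) with hκ
    have hκc : Continuous κ := by
      have h1 := continuous_supp K
      simp only [hκ]
      fun_prop
    have hgr : ∃ A, ∀ z, |κ z| ≤ A * (1 + |z|) := kappa_growth K hu hy
    have hconv : ConvexOn ℝ univ κ := kappa_convex K y u
    have hconv' : ConvexOn ℝ univ (fun z => κ (-z)) := by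
      have h1 : (fun z => κ (-z)) = fun z => supp K (y + z • (-u)) := by
        funext z
        simp only [hκ, smul_neg, neg_smul]
      rw [h1]; exact kappa_convex K y (-u)
    have hgr' : ∃ A, ∀ z, |κ (-z)| ≤ A * (1 + |z|) := by
      obtain ⟨A, hA⟩ := hgr
      exact ⟨A, fun z => by simpa using hA (-z)⟩
    have h := C05.line_fubini hn κ hκc hgr ψ hψ (C04.cs n) (C04.cs_continuous hn)
    have e1 : ∫ z : ℝ, κ z * (Rad n ψ (z / √(1 + z ^ 2)) * ((√(1 + z ^ 2)) ^ (n + 1))⁻¹) =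
        ∫ s in (0 : ℝ)..1, (ψ s * C05.Mf n (C04.cs n) s κ + ψ (-s) * C05.Mf n (C04.cs n) s (fun z => κ (-z))) := by
      rw [← h]
      rfl
    rw [e1, intervalIntegral.integral_of_le (by norm_num)]
    refine setIntegral_nonneg_of_ae_restrict ?_
    rw [← restrict_Ioo_eq_restrict_Ioc]
    filter_upwards [ae_restrict_mem measurableSet_Ioo] with s hs
    have hs1 : s ∈ Icc (-1 : ℝ) 1 := ⟨by linarith [hs.1], hs.2.le⟩
    have hs2 : -s ∈ Icc (-1 : ℝ) 1 := ⟨by linarith [hs.2], by linarith [hs.1]⟩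
    exact add_nonneg (mul_nonneg (hψ0 s hs1) (C04.Mf_nonneg hn hs κ hconv hgr))
      (mul_nonneg (hψ0 (-s) hs2) (C04.Mf_nonneg hn hs _ hconv' hgr'))

end

end Pool.Agent.Helper115_ME
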