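import Mathlib
import Pool.Agent.Helper115_ME.CC.Key
import Pool.Agent.Helper115_ME.CC.C07
import Pool.Agent.Helper115_ME.Bound

/-!
# The key inequality for concave densities of class `C²`, continued
-/

set_option autoImplicit false

namespace Pool.Agent.Helper115_ME

open MeasureTheory Metric Set Filter Topology
open scoped ContDiff

noncomputable section

variable {n : ℕ}

/-- `W(g) = ∫_{-1}^1 g(t) t² (1-t²)^((n-4)/2) dt` -/
def Wt (n : ℕ) (g : ℝ → ℝ) : ℝ := ∫ t in (-1 : ℝ)..1, g t * t ^ 2 * (1 - t ^ 2) ^ (((n : ℝ) - 4) / 2)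

/-- `W(1)` -/
def W1 (n : ℕ) : ℝ := ∫ t in (-1 : ℝ)..1, t ^ 2 * (1 - t ^ 2) ^ (((n : ℝ) - 4) / 2)

theorem exists_basis_two {u w : E n} (h : Orthonormal ℝ ![u, w]) :
    ∃ (b : OrthonormalBasis (Fin n) ℝ (E n)) (i j : Fin n), i ≠ j ∧ b i = u ∧ b j = w := by
  have hli := h.linearIndependent
  have hn : 2 ≤ n := by
    have h1 := hli.fintype_card_le_finrank
    simpa using h1
  have hcard : Module.finrank ℝ (E n) = Fintype.card (Fin n) := by simp
  set i : Fin n := ⟨0, by omega⟩ with hi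
  set j : Fin n := ⟨1, by omega⟩ with hj
  have hij : i ≠ j := by
    intro h0
    have := congrArg Fin.val h0
    simp [hi, hj] at this
  obtain ⟨hu, hw, huw⟩ := pair_orthonormal h
  set V : Fin n → E n := fun k => if k = i then u else w with hV
  have hVi : V i = u := by simp [hV]
  have hVj : V j = w := by simp [hV, hij.symm]
  have hv : Orthonormal ℝ (({i, j} : Set (Fin n)).domRestrict V) := by
    refine ⟨fun k => ?_, fun k l hkl => ?_⟩
    · rcases k.2 with hk | hk
      · show ‖V k.1‖ = 1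
        rw [hk, hVi]; exact hu
      · show ‖V k.1‖ = 1
        rw [Set.mem_singleton_iff.1 hk, hVj]; exact hw
    · show inner ℝ (V k.1) (V l.1) = 0
      have hkl' : k.1 ≠ l.1 := fun h0 => hkl (Subtype.ext h0)
      rcases k.2 with hk | hk <;> rcases l.2 with hl | hl
      · exact absurd (hk.trans hl.symm) hkl'
      · rw [hk, Set.mem_singleton_iff.1 hl, hVi, hVj]; exact huw
      · rw [Set.mem_singleton_iff.1 hk, hl, hVi, hVj, real_inner_comm]; exact huw
      · exact absurd ((Set.mem_singleton_iff.1 hk).trans (Set.mem_singleton_iff.1 hl).symm) hkl'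
  obtain ⟨b, hb⟩ := Orthonormal.exists_orthonormalBasis_extension_of_card_eq hcard hv
  exact ⟨b, i, j, hij, (hb i (by simp)).trans hVi, (hb j (by simp)).trans hVj⟩

theorem integrable_sig {F : Sph n → ℝ} (hF : Continuous F) : Integrable F (sig n) :=
  hF.integrable_of_hasCompactSupport (HasCompactSupport.of_compactSpace F)

theorem taylor_one {g : ℝ → ℝ} (hg : ContDiff ℝ 2 g) (τ : ℝ) :
    g τ - τ * deriv g τ = g 0 + ∫ s in (0 : ℝ)..τ, s * (-deriv (deriv g) s) := by
  have hg1 : ∀ s, HasDerivAt g (deriv g s) s := fun s => (hg.differentiable (by norm_num) s).hasDerivAt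
  have hc1 : ContDiff ℝ 1 (deriv g) := by
    have : ContDiff ℝ (1 + 1) g := by simpa [one_add_one_eq_two] using hg
    exact (contDiff_succ_iff_deriv.1 this).2.2
  have hg2 : ∀ s, HasDerivAt (deriv g) (deriv (deriv g) s) s := fun s =>
    (hc1.differentiable (by norm_num) s).hasDerivAt
  have hc2 : Continuous (deriv (deriv g)) := hc1.continuous_deriv (by norm_num)
  have h1 : ∀ s ∈ uIcc 0 τ, HasDerivAt (fun s => g s - s * deriv g s) (s * (-deriv (deriv g) s)) s := by
    intro s _
    have h2 := (hg1 s).sub ((hasDerivAt_id s).mul (hg2 s))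
    refine h2.congr_deriv ?_
    simp only [id_eq]
    ring
  rw [intervalIntegral.integral_eq_sub_of_hasDerivAt h1 (Continuous.intervalIntegrable (by fun_prop) _ _)]
  ring

theorem key_inequality (hn : 3 ≤ n) {g : ℝ → ℝ} (hg : ContDiff ℝ 2 g)
    (hgc : ∀ t ∈ Icc (-1 : ℝ) 1, deriv (deriv g) t ≤ 0) {K : ConvexBody (E n)} (hK : IsSmooth (hS K))
    {u w : E n} (huw : Orthonormal ℝ ![u, w]) :
    Wt n g / W1 n * ∫ v : Sph n, hS K v ∂(sig n) ≤
      ∫ v : Sph n, hS K v * (g (inner ℝ u (v : E n)) - inner ℝ u (v : E n) * deriv g (inner ℝ u (v : E n)) +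
      deriv (deriv g) (inner ℝ u (v : E n)) * (inner ℝ w (v : E n)) ^ 2) ∂(sig n) := by
  set ψ : ℝ → ℝ := fun t => -deriv (deriv g) t with hψd
  have hc1 : ContDiff ℝ 1 (deriv g) := by
    have : ContDiff ℝ (1 + 1) g := by simpa [one_add_one_eq_two] using hg
    exact (contDiff_succ_iff_deriv.1 this).2.2
  have hc2 : Continuous (deriv (deriv g)) := hc1.continuous_deriv (by norm_num)
  have hψ : Continuous ψ := hc2.neg
  have hψ0 : ∀ t ∈ Icc (-1 : ℝ) 1, 0 ≤ ψ t := fun t ht => by
    simp only [hψd]; linarith [hgc t ht]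
  obtain ⟨b, i, j, hij, hbi, hbj⟩ := exists_basis_two huw
  obtain ⟨hu, hw, huw0⟩ := pair_orthonormal huw
  set S : Finset (Fin n) := (Finset.univ.erase i).erase j with hS'
  have hjm : j ∈ Finset.univ.erase i := Finset.mem_erase.2 ⟨hij.symm, Finset.mem_univ j⟩
  -- the inequalities
  have hA : ∀ k ∈ S, 0 ≤ ∫ v : Sph n, hS K v * (ψ (inner ℝ u (v : E n)) * (inner ℝ (b k) (v : E n)) ^ 2 -
      Theta n ψ (inner ℝ u (v : E n))) ∂(sig n) := by
    intro k hk
    have hk1 : k ≠ j := Finset.ne_of_mem_erase hk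
    have hk2 : k ≠ i := Finset.ne_of_mem_erase (Finset.mem_of_mem_erase hk)
    refine sphere_C1 (by omega) hK (orthonormal_pair hu (b.orthonormal.1 k) ?_) hψ hψ0
    rw [← hbi]
    exact b.orthonormal.2 hk2.symm
  have hB := sphere_C2 hn (K := K) hu hψ hψ0
  -- continuity facts
  have hhc : Continuous (hS K) := continuous_hS K
  have hcu : Continuous (fun v : Sph n => (inner ℝ u (v : E n) : ℝ)) := by fun_prop
  have hΘ := continuous_Theta n hψ
  have hR := continuous_Rad n hψ
  have hint : ∀ k, Integrable (fun v : Sph n => hS K v * (ψ (inner ℝ u (v : E n)) *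
      (inner ℝ (b k) (v : E n)) ^ 2 - Theta n ψ (inner ℝ u (v : E n)))) (sig n) := by
    intro k
    refine integrable_sig (hhc.mul (((hψ.comp hcu).mul ?_).sub (hΘ.comp hcu)))
    fun_prop
  have hintR : Integrable (fun v : Sph n => hS K v * Rad n ψ (inner ℝ u (v : E n))) (sig n) :=
    integrable_sig (hhc.mul (hR.comp hcu))
  have hint1 : Integrable (fun v : Sph n => hS K v) (sig n) := integrable_sig hhc
  -- sum of the inequalities
  have hsum : 0 ≤ (∫ v : Sph n, hS K v * Rad n ψ (inner ℝ u (v : E n)) ∂(sig n)) +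
      ∑ k ∈ S, ∫ v : Sph n, hS K v * (ψ (inner ℝ u (v : E n)) * (inner ℝ (b k) (v : E n)) ^ 2 -
      Theta n ψ (inner ℝ u (v : E n))) ∂(sig n) := add_nonneg hB (Finset.sum_nonneg hA)
  rw [← integral_finset_sum _ (fun k _ => hint k), ← integral_add hintR (integrable_finset_sum _ fun k _ => hint k)]
    at hsum
  -- the constant
  have hconst : (∫ s in (0 : ℝ)..1, (ψ s + ψ (-s)) * C04.cs n s) = g 0 - Wt n g / W1 n :=
    C06.const_identity hn g hg
  have hpoint : ∀ v : Sph n, hS K v * Rad n ψ (inner ℝ u (v : E n)) +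
      ∑ k ∈ S, hS K v * (ψ (inner ℝ u (v : E n)) * (inner ℝ (b k) (v : E n)) ^ 2 -
      Theta n ψ (inner ℝ u (v : E n))) =
      hS K v * (g (inner ℝ u (v : E n)) - inner ℝ u (v : E n) * deriv g (inner ℝ u (v : E n)) +
      deriv (deriv g) (inner ℝ u (v : E n)) * (inner ℝ w (v : E n)) ^ 2) - Wt n g / W1 n * hS K v := by
    intro v
    set τ : ℝ := inner ℝ u (v : E n) with hτ
    have h3 : ∑ k, (inner ℝ (b k) (v : E n)) ^ 2 = (1 : ℝ) := by
      have := b.sum_sq_norm_inner_right (v : E n)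
      simpa using this
    rw [← Finset.add_sum_erase _ _ (Finset.mem_univ i), ← Finset.add_sum_erase _ _ hjm, hbi, hbj] at h3
    have hcard : (S.card : ℝ) = (n : ℝ) - 2 := by
      rw [hS', Finset.card_erase_of_mem hjm, Finset.card_erase_of_mem (Finset.mem_univ i)]
      simp only [Finset.card_univ, Fintype.card_fin]
      rw [Nat.sub_sub, Nat.cast_sub (by omega)]
      norm_num
    rw [← Finset.mul_sum, Finset.sum_sub_distrib, Finset.sum_const, ← Finset.mul_sum, nsmul_eq_mul, hcard]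
    have h4 : ∑ k ∈ S, (inner ℝ (b k) (v : E n)) ^ 2 = 1 - τ ^ 2 - (inner ℝ w (v : E n)) ^ 2 := by
      rw [hS', hτ]; linarith
    rw [h4]
    have h5 := taylor_one hg τ
    simp only [Rad]
    rw [hconst]
    have h6 : deriv (deriv g) τ = - ψ τ := by simp [hψd]
    rw [h6]
    have h7 : ∫ s in (0 : ℝ)..τ, s * ψ s = g τ - τ * deriv g τ - g 0 := by
      rw [h5]; simp only [hψd]; ring
    rw [h7]
    ring
  have hint2 : Integrable (fun v : Sph n => hS K v * (g (inner ℝ u (v : E n)) -
      inner ℝ u (v : E n) * deriv g (inner ℝ u (v : E n)) +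
      deriv (deriv g) (inner ℝ u (v : E n)) * (inner ℝ w (v : E n)) ^ 2)) (sig n) := by
    refine integrable_sig (hhc.mul ((((hg.continuous).comp hcu).sub
      (hcu.mul (hc1.continuous.comp hcu))).add ((hc2.comp hcu).mul ?_)))
    fun_prop
  simp_rw [hpoint] at hsum
  rw [integral_sub hint2 (hint1.const_mul _), integral_const_mul] at hsum
  linarith

end

end Pool.Agent.Helper115_ME
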