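import Mathlib
import Pool.Agent.Helper115_ME.CC.Key2
import Pool.Agent.Helper115_ME.CC.C08
import Pool.Agent.Helper115_ME.CC.C09

/-!
# Concave densities: sufficiency
-/

set_option autoImplicit false

namespace Pool.Agent.Helper115_ME

open MeasureTheory Metric Set Filter Topology
open scoped ContDiff Pointwise

noncomputable section

variable {n : ℕ}

theorem map_act (ϑ : E n ≃ₗᵢ[ℝ] E n) : (sig n).map (act ϑ) = sig n := by
  have hm : Measurable (act ϑ) := (continuous_act ϑ).measurable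
  ext s hs
  rw [Measure.map_apply hm hs, Measure.toSphere_apply' _ (hm hs), Measure.toSphere_apply' _ hs]
  congr 1
  have h1 : Ioo (0 : ℝ) 1 • ((↑) '' (act ϑ ⁻¹' s) : Set (E n)) = ϑ ⁻¹' (Ioo (0 : ℝ) 1 • ((↑) '' s : Set (E n))) := by
    ext x
    constructor
    · rintro ⟨r, hr, y, ⟨v, hv, rfl⟩, rfl⟩
      exact ⟨r, hr, _, ⟨act ϑ v, hv, rfl⟩, by simp [act]⟩
    · rintro ⟨r, hr, y, ⟨v, hv, rfl⟩, h⟩
      have h2 : act ϑ (act ϑ.symm v) = v := Subtype.ext (by simp [act])
      refine ⟨r, hr, _, ⟨act ϑ.symm v, by rw [mem_preimage, h2]; exact hv, rfl⟩, ?_⟩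
      apply ϑ.injective
      show ϑ (r • (ϑ.symm (v : E n))) = ϑ x
      rw [map_smul, LinearIsometryEquiv.apply_symm_apply]
      exact h
  rw [h1]
  have h2 := (ϑ.measurePreserving).measure_preimage_equiv (f := ϑ.toMeasurableEquiv) (Ioo (0 : ℝ) 1 • ((↑) '' s : Set (E n)))
  exact h2

theorem integral_act (ϑ : E n ≃ₗᵢ[ℝ] E n) (F : Sph n → ℝ) (hF : Measurable F) :
    ∫ v, F (act ϑ v) ∂(sig n) = ∫ v, F v ∂(sig n) := by
  conv_rhs => rw [← map_act ϑ]
  rw [integral_map (continuous_act ϑ).measurable.aemeasurable hF.aestronglyMeasurable]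

theorem integral_hS_nonneg (K : ConvexBody (E n)) : 0 ≤ ∫ v, hS K v ∂(sig n) := by
  set η : E n ≃ₗᵢ[ℝ] E n := LinearIsometryEquiv.neg ℝ with hη
  have h1 := integral_act η (hS K) (continuous_hS K).measurable
  have hc : Continuous fun v : Sph n => hS K (act η v) := (continuous_hS K).comp (continuous_act η)
  have h2 : 0 ≤ ∫ v, (hS K v + hS K (act η v)) ∂(sig n) := by
    refine integral_nonneg fun v => ?_
    show 0 ≤ supp K (v : E n) + supp K (η (v : E n))
    have h3 := supp_add_le K (v : E n) (η (v : E n))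
    have h4 : (v : E n) + η (v : E n) = 0 := by
      simp [hη]
    have h5 : supp K (0 : E n) = 0 := by simpa using supp_smul K (le_refl (0 : ℝ)) (0 : E n)
    rw [h4, h5] at h3
    exact h3
  rw [integral_add (integrable_sig (continuous_hS K)) (integrable_sig hc), h1] at h2
  linarith

theorem W1_pos (hn : 3 ≤ n) : 0 < W1 n := by
  have hn' : (3 : ℝ) ≤ n := by exact_mod_cast hn
  have h1 := C04.int_sq hn (a := -1) (by constructor <;> norm_num)
  have h2 := C04.int_pos hn
  have h3 : (-1 : ℝ) * (1 - (-1 : ℝ) ^ 2) ^ (((n : ℝ) - 2) / 2) = 0 := by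
    have : (1 - (-1 : ℝ) ^ 2) = 0 := by norm_num
    rw [this, Real.zero_rpow (by linarith), mul_zero]
  rw [h3, add_zero] at h1
  rw [← h1] at h2
  exact (pos_iff_pos_of_mul_pos h2).1 (by linarith)

/-- the `C²` case -/
theorem smooth_case (hn : 3 ≤ n) {g : ℝ → ℝ} (hg : ContDiff ℝ 2 g)
    (hgc : ∀ t ∈ Icc (-1 : ℝ) 1, deriv (deriv g) t ≤ 0) (hW : 0 ≤ Wt n g)
    {K : ConvexBody (E n)} (hK : IsSmooth (hS K)) :
    ∃ L : ConvexBody (E n), ∀ u : Sph n, hS L u = ∫ v : Sph n, hS K v * g (inner ℝ (u : E n) (v : E n)) ∂(sig n) := by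
  set H : Sph n → ℝ := fun u => ∫ v : Sph n, hS K v * g (inner ℝ (u : E n) (v : E n)) ∂(sig n) with hH
  have hext : ∀ x : E n, ‖x‖ = 1 → ext0 H x = ∫ v : Sph n, hS K v * g (inner ℝ x (v : E n)) ∂(sig n) :=
    fun x hx => ext0_sphere H ⟨x, by simpa using hx⟩
  have hcont : Continuous H := by
    have hF : Continuous (Function.uncurry fun (u v : Sph n) => hS K v * g (inner ℝ (u : E n) (v : E n))) := by
      have h1 : Continuous fun p : Sph n × Sph n => (inner ℝ (p.1 : E n) (p.2 : E n) : ℝ) := by fun_prop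
      exact ((continuous_hS K).comp continuous_snd).mul (hg.continuous.comp h1)
    exact continuous_parametric_integral_of_continuous hF isCompact_univ |> fun h => by simpa using h
  have hcirc : ∀ u w : E n, Orthonormal ℝ ![u, w] →
      (fun θ : ℝ => ext0 H (Real.cos θ • u + Real.sin θ • w)) = fun θ : ℝ =>
        ∫ v : Sph n, hS K v * g (inner ℝ (Real.cos θ • u + Real.sin θ • w) (v : E n)) ∂(sig n) :=
    fun u w h => funext fun θ => hext _ (norm_circle h θ)
  obtain ⟨L, hL⟩ := body_of_circles (by omega) H hcont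
    (fun u w h => by rw [hcirc u w h]; exact (C07.sphere_second_deriv g hg (hS K) (continuous_hS K) u w).1)
    (fun u w h => by
      show 0 ≤ ext0 H u + iteratedDeriv 2 (fun θ : ℝ => ext0 H (Real.cos θ • u + Real.sin θ • w)) 0
      rw [hcirc u w h, hext u (pair_orthonormal h).1]
      rw [(C07.sphere_second_deriv g hg (hS K) (continuous_hS K) u w).2]
      refine le_trans ?_ (key_inequality hn hg hgc hK h)
      exact mul_nonneg (div_nonneg hW (W1_pos hn).le) (integral_hS_nonneg K))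
  exact ⟨L, fun u => by rw [hL]⟩

theorem ae_mem_Ioo (hn : 2 ≤ n) {u : E n} (hu : ‖u‖ = 1) :
    ∀ᵐ v : Sph n ∂(sig n), (inner ℝ u (v : E n) : ℝ) ∈ Ioo (-1 : ℝ) 1 := by
  filter_upwards [C01.ae_N hn u] with v hv
  have h1 : |inner ℝ u (v : E n)| ≤ (1 : ℝ) := by
    have := abs_real_inner_le_norm u (v : E n)
    rwa [hu, norm_coe_sph, one_mul] at this
  have h2 : ‖(v : E n) - (inner ℝ u (v : E n) : ℝ) • u‖ ^ 2 = 1 - (inner ℝ u (v : E n) : ℝ) ^ 2 := by
    rw [← real_inner_self_eq_norm_sq]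
    simp only [inner_sub_left, inner_sub_right, inner_smul_left, inner_smul_right,
      real_inner_self_eq_norm_sq, hu, norm_coe_sph, RCLike.conj_to_real, real_inner_comm u (v : E n)]
    ring
  have h3 : 0 < ‖(v : E n) - (inner ℝ u (v : E n) : ℝ) • u‖ := lt_of_le_of_ne (norm_nonneg _) (Ne.symm hv)
  have h4 : 0 < 1 - (inner ℝ u (v : E n) : ℝ) ^ 2 := by rw [← h2]; positivity
  have h5 := abs_le.1 h1
  constructor
  · rcases h5.1.lt_or_eq with h | h
    · exact h
    · rw [← h] at h4; norm_num at h4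
  · rcases h5.2.lt_or_eq with h | h
    · exact h
    · rw [h] at h4; norm_num at h4

theorem inner_mem_Icc {u : E n} (hu : ‖u‖ = 1) (v : Sph n) : (inner ℝ u (v : E n) : ℝ) ∈ Icc (-1 : ℝ) 1 := by
  have := abs_real_inner_le_norm u (v : E n)
  rw [hu, norm_coe_sph, one_mul] at this
  exact abs_le.1 this

/-- the general case -/
theorem general_case (hn : 3 ≤ n) {g : ℝ → ℝ} (hg : ConcaveOn ℝ (Icc (-1) 1) g) (hW : 0 ≤ Wt n g)
    {K : ConvexBody (E n)} (hK : IsSmooth (hS K)) :
    ∃ L : ConvexBody (E n), ∀ u : Sph n, hS L u = ∫ v : Sph n, hS K v * g (inner ℝ (u : E n) (v : E n)) ∂(sig n) := by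
  obtain ⟨G, hG1, hG2, ⟨C, hG3⟩, hG4⟩ := C08.exists_smooth_concave g hg
  have hW1 := W1_pos hn
  have hn' : (3 : ℝ) ≤ n := by exact_mod_cast hn
  -- the weights converge
  have hwint : IntervalIntegrable (fun t : ℝ => (1 - t ^ 2) ^ (((n : ℝ) - 4) / 2)) volume (-1) 1 := by
    rw [intervalIntegrable_iff_integrableOn_Icc_of_le (by norm_num)]
    exact C04.w_int hn
  have hlimW : Tendsto (fun j => Wt n (G j)) atTop (𝓝 (Wt n g)) := by
    refine intervalIntegral.tendsto_integral_filter_of_dominated_convergence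
      (fun t => C * (1 - t ^ 2) ^ (((n : ℝ) - 4) / 2)) ?_ ?_ (hwint.const_mul C) ?_
    · refine Eventually.of_forall fun j => ?_
      have h1 : Measurable fun t : ℝ => G j t * t ^ 2 * (1 - t ^ 2) ^ (((n : ℝ) - 4) / 2) := by
        have h2 : Measurable (G j) := (hG1 j).continuous.measurable
        fun_prop
      exact h1.aestronglyMeasurable
    · refine Eventually.of_forall fun j => Eventually.of_forall fun t ht => ?_
      rw [uIoc_of_le (by norm_num : (-1 : ℝ) ≤ 1)] at ht
      have ht' : t ∈ Icc (-1 : ℝ) 1 := ⟨ht.1.le, ht.2⟩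
      have h1 : 0 ≤ (1 - t ^ 2) ^ (((n : ℝ) - 4) / 2) := Real.rpow_nonneg (by nlinarith [ht'.1, ht'.2]) _
      rw [norm_mul, Real.norm_of_nonneg h1]
      refine mul_le_mul_of_nonneg_right ?_ h1
      rw [norm_mul, Real.norm_eq_abs, Real.norm_eq_abs, abs_of_nonneg (sq_nonneg t)]
      have h2 : t ^ 2 ≤ 1 := by nlinarith [ht'.1, ht'.2]
      calc |G j t| * t ^ 2 ≤ C * 1 := mul_le_mul (hG3 j t ht') h2 (sq_nonneg t) ((abs_nonneg _).trans (hG3 j t ht'))
        _ = C := mul_one C
    · have h1 : ∀ᵐ t : ℝ ∂volume, t ≠ 1 := by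
        rw [ae_iff]; simp
      filter_upwards [h1] with t ht1 ht
      rw [uIoc_of_le (by norm_num : (-1 : ℝ) ≤ 1)] at ht
      have ht' : t ∈ Ioo (-1 : ℝ) 1 := ⟨ht.1, lt_of_le_of_ne ht.2 ht1⟩
      exact ((hG4 t ht').mul_const _).mul_const _
  -- correction
  set δ : ℕ → ℝ := fun j => max 0 (-(Wt n (G j) / W1 n)) with hδ
  have hδ0 : Tendsto δ atTop (𝓝 0) := by
    have h1 : Tendsto δ atTop (𝓝 (max 0 (-(Wt n g / W1 n)))) :=
      (tendsto_const_nhds).max ((hlimW.div_const _).neg)
    have h2 : max 0 (-(Wt n g / W1 n)) = 0 := by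
      refine max_eq_left ?_
      have := div_nonneg hW hW1.le
      linarith
    rwa [h2] at h1
  set G' : ℕ → ℝ → ℝ := fun j t => G j t + δ j with hG'
  have hG'1 : ∀ j, ContDiff ℝ 2 (G' j) := fun j => ((hG1 j).of_le two_le_infty).add contDiff_const
  have hG'2 : ∀ j, ∀ t ∈ Icc (-1 : ℝ) 1, deriv (deriv (G' j)) t ≤ 0 := by
    intro j t ht
    have h1 : deriv (G' j) = deriv (G j) := by
      funext s
      simp only [hG', deriv_add_const]
    rw [h1]
    exact hG2 j t ht
  have hG'3 : ∀ j, 0 ≤ Wt n (G' j) := by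
    intro j
    have h1 : Wt n (G' j) = Wt n (G j) + δ j * W1 n := by
      have i1 : IntervalIntegrable (fun t : ℝ => G j t * t ^ 2 * (1 - t ^ 2) ^ (((n : ℝ) - 4) / 2)) volume (-1) 1 := by
        rw [intervalIntegrable_iff_integrableOn_Icc_of_le (by norm_num)]
        exact C04.w_mul_int hn ((hG1 j).continuous.mul (continuous_pow 2))
      have i2 : IntervalIntegrable (fun t : ℝ => t ^ 2 * (1 - t ^ 2) ^ (((n : ℝ) - 4) / 2)) volume (-1) 1 := by
        rw [intervalIntegrable_iff_integrableOn_Icc_of_le (by norm_num)]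
        exact C04.w_mul_int hn (continuous_pow 2)
      have e1 : ∀ t : ℝ, G' j t * t ^ 2 * (1 - t ^ 2) ^ (((n : ℝ) - 4) / 2) =
          G j t * t ^ 2 * (1 - t ^ 2) ^ (((n : ℝ) - 4) / 2) +
          δ j * (t ^ 2 * (1 - t ^ 2) ^ (((n : ℝ) - 4) / 2)) := by
        intro t; simp only [hG']; ring
      unfold Wt W1
      simp_rw [e1]
      rw [intervalIntegral.integral_add i1 (i2.const_mul _), intervalIntegral.integral_const_mul]
    rw [h1]
    have h2 : -(Wt n (G j) / W1 n) ≤ δ j := le_max_right _ _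
    have h3 : -(Wt n (G j) / W1 n) * W1 n ≤ δ j * W1 n := mul_le_mul_of_nonneg_right h2 hW1.le
    have h4 : Wt n (G j) / W1 n * W1 n = Wt n (G j) := div_mul_cancel₀ _ hW1.ne'
    linarith
  choose Lj hLj using fun j => smooth_case hn (hG'1 j) (hG'2 j) (hG'3 j) hK
  -- the limit
  set H : E n → ℝ := fun x => ∫ v : Sph n, hS K v * g (inner ℝ x (v : E n)) ∂(sig n) with hH
  have hlim : ∀ u : E n, ‖u‖ = 1 → Tendsto (fun j => supp (Lj j) u) atTop (𝓝 (H u)) := by
    intro u hu
    have h1 : ∀ j, supp (Lj j) u = (∫ v : Sph n, hS K v * G j (inner ℝ u (v : E n)) ∂(sig n)) +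
        δ j * ∫ v : Sph n, hS K v ∂(sig n) := by
      intro j
      have h2 := hLj j ⟨u, by simpa using hu⟩
      change supp (Lj j) u = _ at h2
      rw [h2, ← integral_const_mul, ← integral_add]
      · congr 1
        funext v
        simp only [hG']
        ring
      · refine integrable_sig ((continuous_hS K).mul ((hG1 j).continuous.comp ?_))
        fun_prop
      · exact integrable_sig (continuous_const.mul (continuous_hS K))
    simp_rw [h1]
    have h3 : H u = H u + 0 * ∫ v : Sph n, hS K v ∂(sig n) := by ring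
    rw [h3]
    refine Tendsto.add ?_ (hδ0.mul_const _)
    obtain ⟨R, hR⟩ : ∃ R, ∀ v, |hS K v| ≤ R := by
      obtain ⟨R, hR⟩ := (isCompact_univ.image (continuous_hS K)).isBounded.subset_closedBall 0
      refine ⟨R, fun v => ?_⟩
      have := hR (mem_image_of_mem _ (mem_univ v))
      simpa using this
    refine tendsto_integral_of_dominated_convergence (fun v => R * C) ?_ (integrable_const _) ?_ ?_
    · intro j
      refine (Continuous.aestronglyMeasurable ((continuous_hS K).mul ((hG1 j).continuous.comp ?_)))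
      fun_prop
    · intro j
      refine Eventually.of_forall fun v => ?_
      rw [norm_mul, Real.norm_eq_abs, Real.norm_eq_abs]
      exact mul_le_mul (hR v) (hG3 j _ (inner_mem_Icc hu v)) (abs_nonneg _) ((abs_nonneg _).trans (hR v))
    · filter_upwards [ae_mem_Ioo (by omega) hu] with v hv
      exact (hG4 _ hv).const_mul _
  have hconv : ∀ x : E n, ∃ a, Tendsto (fun j => supp (Lj j) x) atTop (𝓝 a) := by
    intro x
    by_cases hx : x = 0
    · refine ⟨0, ?_⟩
      have : ∀ j, supp (Lj j) x = 0 := fun j => by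
        rw [hx]; simpa using supp_smul (Lj j) (le_refl (0 : ℝ)) 0
      simp [this]
    · have hx' : ‖‖x‖⁻¹ • x‖ = 1 := by simp [norm_smul, hx]
      refine ⟨‖x‖ * H (‖x‖⁻¹ • x), ?_⟩
      refine ((hlim _ hx').const_mul ‖x‖).congr fun j => ?_
      rw [supp_smul _ (by positivity), ← mul_assoc, mul_inv_cancel₀ (by simpa using hx), one_mul]
  choose p hp using hconv
  obtain ⟨L, hLp⟩ := exists_body p
    (fun x y => le_of_tendsto_of_tendsto' (hp (x + y)) ((hp x).add (hp y))
      fun j => supp_add_le _ _ _)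
    (fun c hc x => tendsto_nhds_unique (hp (c • x))
      (((hp x).const_mul c).congr fun j => (supp_smul _ hc x).symm))
  refine ⟨L, fun u => ?_⟩
  show supp L (u : E n) = H (u : E n)
  rw [hLp]
  exact tendsto_nhds_unique (hp _) (hlim _ (norm_coe_sph u))

end

end Pool.Agent.Helper115_ME
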