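import Mathlib
import Pool.Agent.Helper115_ME.CC.Suff

/-!
# Concave densities: necessity
-/

set_option autoImplicit false

namespace Pool.Agent.Helper115_ME

open MeasureTheory Metric Set Filter Topology
open scoped ContDiff

noncomputable section

variable {n : ℕ}

/-- the flat ellipsoids with support function `‖ε x + ⟨w,x⟩ w‖` -/
theorem exists_ellipsoid {w : E n} (hw : ‖w‖ = 1) {ε : ℝ} (hε : 0 < ε) :
    ∃ K : ConvexBody (E n), IsSmooth (hS K) ∧ ∀ x, supp K x = ‖ε • x + (inner ℝ w x : ℝ) • w‖ := by
  set A : E n → E n := fun x => ε • x + (inner ℝ w x : ℝ) • w with hA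
  have hadd : ∀ x y, A (x + y) = A x + A y := by
    intro x y; simp only [hA, inner_add_right]; module
  have hsmul : ∀ (c : ℝ) x, A (c • x) = c • A x := by
    intro c x; simp only [hA, inner_smul_right]; module
  have hne : ∀ x, x ≠ 0 → A x ≠ 0 := by
    intro x hx h0
    have h1 : inner ℝ w (A x) = (0 : ℝ) := by rw [h0, inner_zero_right]
    have h2 : inner ℝ w (A x) = (ε + 1) * inner ℝ w x := by
      simp only [hA, inner_add_right, inner_smul_right, real_inner_self_eq_norm_sq, hw]; ring
    rw [h2] at h1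
    have h3 : inner ℝ w x = (0 : ℝ) := by
      rcases mul_eq_zero.1 h1 with h | h
      · linarith
      · exact h
    have h4 : A x = ε • x := by simp only [hA, h3, zero_smul, add_zero]
    rw [h4] at h0
    rcases smul_eq_zero.1 h0 with h | h
    · exact hε.ne' h
    · exact hx h
  obtain ⟨K, hK⟩ := exists_body (fun x => ‖A x‖) (fun x y => by rw [hadd]; exact norm_add_le _ _)
    (fun c hc x => by rw [hsmul, norm_smul, Real.norm_of_nonneg hc])
  refine ⟨K, ?_, hK⟩
  have h1 : ∀ x ∈ ({0}ᶜ : Set (E n)), ext0 (hS K) x = ‖x‖⁻¹ * ‖A x‖ := by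
    intro x hx
    have hx0 : x ≠ 0 := by simpa using hx
    rw [ext0_apply _ hx0]
    show supp K (‖x‖⁻¹ • x) = _
    rw [hK]
    show ‖A (‖x‖⁻¹ • x)‖ = _
    rw [hsmul, norm_smul, norm_inv, norm_norm]
  refine ContDiffOn.congr ?_ h1
  have hAc : ContDiff ℝ ∞ A := by
    have i1 : ContDiff ℝ ∞ (fun x : E n => ε • x) := contDiff_const_smul ε
    have i2 : ContDiff ℝ ∞ (fun x : E n => (inner ℝ w x : ℝ)) := contDiff_const.inner ℝ contDiff_id
    have i3 : ContDiff ℝ ∞ (fun x : E n => (inner ℝ w x : ℝ) • w) := i2.smul contDiff_const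
    exact i1.add i3
  intro x hx
  have hx0 : x ≠ 0 := by simpa using hx
  have i1 : ContDiffAt ℝ ∞ (fun x : E n => ‖x‖⁻¹) x :=
    (contDiffAt_norm ℝ hx0).inv (norm_ne_zero_iff.2 hx0)
  have i2 : ContDiffAt ℝ ∞ (fun x : E n => ‖A x‖) x := (hAc.contDiffAt).norm ℝ (hne x hx0)
  exact (i1.mul i2).contDiffWithinAt

theorem abs_ellipsoid_sub {w : E n} (hw : ‖w‖ = 1) {ε : ℝ} (hε : 0 < ε) {x : E n} (hx : ‖x‖ = 1) :
    |‖ε • x + (inner ℝ w x : ℝ) • w‖ - abs (inner ℝ w x : ℝ)| ≤ ε := by
  have h1 : |(inner ℝ w x : ℝ)| = ‖(inner ℝ w x : ℝ) • w‖ := by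
    rw [norm_smul, hw, mul_one, Real.norm_eq_abs]
  rw [h1]
  refine (abs_norm_sub_norm_le _ _).trans (le_of_eq ?_)
  rw [add_sub_cancel_right, norm_smul, hx, mul_one, Real.norm_of_nonneg hε.le]

/-- integrability of bounded densities -/
theorem integrable_density {g : ℝ → ℝ} (hgb : ∃ C, 0 ≤ C ∧ ∀ t ∈ Icc (-1 : ℝ) 1, |g t| ≤ C)
    (hgc : ContinuousOn g (Ioo (-1) 1)) {u : E n} (hu : ‖u‖ = 1) {F : Sph n → ℝ} (hF : Continuous F) :
    Integrable (fun v : Sph n => F v * g (inner ℝ u (v : E n))) (sig n) := by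
  obtain ⟨C, hC0, hC⟩ := hgb
  have h1 : (fun v : Sph n => F v * g (inner ℝ u (v : E n))) =
      fun v : Sph n => F v * C09.gg g (inner ℝ u (v : E n)) := by
    funext v
    rw [C09.gg_eq g (inner_mem_Icc hu v)]
  rw [h1]
  have hcu : Continuous (fun v : Sph n => (inner ℝ u (v : E n) : ℝ)) := by fun_prop
  have h2 : Measurable (fun v : Sph n => C09.gg g (inner ℝ u (v : E n))) :=
    (C09.measurable_gg hgc).comp hcu.measurable
  refine (integrable_sig hF).mul_bdd (c := C) h2.aestronglyMeasurable (Eventually.of_forall fun v => ?_)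
  exact C09.gg_bdd hC0 hC _

theorem cap_identity {a b s c : ℝ} (hs : 0 ≤ s) (hc : 0 ≤ c) :
    |s * a + c * b| + |-(s * a) + c * b| - 2 * c * |b| = 2 * max (s * |a| - c * |b|) 0 := by
  have h1 : |s * a + c * b| + |-(s * a) + c * b| = 2 * max (s * |a|) (c * |b|) := by
    have e1 : s * |a| = |s * a| := by rw [abs_mul, abs_of_nonneg hs]
    have e2 : c * |b| = |c * b| := by rw [abs_mul, abs_of_nonneg hc]
    rw [e1, e2]
    generalize s * a = x
    generalize c * b = y
    rcases le_total 0 x with hx | hx <;> rcases le_total 0 y with hy | hy <;>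
      rcases le_total |x| |y| with hxy | hxy
    all_goals
      simp only [abs_of_nonneg, abs_of_nonpos, hx, hy] at hxy ⊢
      first
        | rw [max_eq_right hxy]
        | rw [max_eq_left hxy]
      first
        | (rw [abs_of_nonneg (by linarith), abs_of_nonneg (by linarith)]; ring)
        | (rw [abs_of_nonneg (by linarith), abs_of_nonpos (by linarith)]; ring)
        | (rw [abs_of_nonpos (by linarith), abs_of_nonneg (by linarith)]; ring)
        | (rw [abs_of_nonpos (by linarith), abs_of_nonpos (by linarith)]; ring)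
  rw [h1]
  rcases le_total (s * |a|) (c * |b|) with h | h
  · rw [max_eq_right h, max_eq_right (by linarith)]; ring
  · rw [max_eq_left h, max_eq_left (by linarith)]; ring

theorem exists_perp_one (hn : 3 ≤ n) (e : Sph n) : ∃ w : E n, Orthonormal ℝ ![(e : E n), w] := by
  obtain ⟨b, i, hb⟩ := exists_basis (n := n) (by omega) (norm_coe_sph e)
  obtain ⟨j, hj⟩ : ∃ j : Fin n, j ≠ i := by
    by_contra hcon
    push Not at hcon
    have h1 := Fintype.card_le_one_iff_subsingleton.2 (⟨fun x y => (hcon x).trans (hcon y).symm⟩ : Subsingleton (Fin n))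
    simp at h1
    omega
  exact ⟨b j, orthonormal_pair (norm_coe_sph e) (b.orthonormal.1 j) (by rw [← hb]; exact b.orthonormal.2 hj.symm)⟩

theorem integrable_mul_density {G : Sph n → ℝ} (hG : Integrable G (sig n)) {F : Sph n → ℝ} (hF : Continuous F) :
    Integrable (fun v : Sph n => F v * G v) (sig n) := by
  obtain ⟨C, hC⟩ : ∃ C, ∀ v, |F v| ≤ C := by
    obtain ⟨C, hC⟩ := (isCompact_univ.image hF).isBounded.subset_closedBall 0
    refine ⟨C, fun v => ?_⟩
    have := hC (mem_image_of_mem _ (mem_univ v))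
    simpa using this
  exact hG.bdd_mul hF.aestronglyMeasurable (Eventually.of_forall fun v => by
    rw [Real.norm_eq_abs]; exact hC v)

/-- the segment test for a density `g` such that `v ↦ g(⟨e,v⟩)` is integrable -/
theorem segment_test (e : Sph n) {w : E n} (hw : Orthonormal ℝ ![(e : E n), w]) {g : ℝ → ℝ}
    (hgint : Integrable (fun v : Sph n => g (inner ℝ (e : E n) (v : E n))) (sig n)) {μ : Distr n}
    (hμ : ∀ f : SmoothFun n, val μ f = ∫ v : Sph n, f.1 v * g (inner ℝ (e : E n) (v : E n)) ∂(sig n))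
    {T : Body n → Body n} (hT : Generates e μ T) {z : ℝ} (hz : 0 < z) :
    0 ≤ ∫ v : Sph n, max (z * |inner ℝ (e : E n) (v : E n)| - |inner ℝ w (v : E n)|) 0 *
      g (inner ℝ (e : E n) (v : E n)) ∂(sig n) := by
  obtain ⟨he1, hw1, hew⟩ := pair_orthonormal hw
  -- angle
  set θ : ℝ := Real.arctan z with hθ
  set c : ℝ := Real.cos θ with hc
  set s : ℝ := Real.sin θ with hs
  have hcpos : 0 < c := Real.cos_arctan_pos z
  have hsz : s = z * c := by
    rw [hs, hc, ← Real.tan_mul_cos (Real.cos_arctan_pos z).ne', Real.tan_arctan]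
  have hspos : 0 < s := by rw [hsz]; positivity
  have hint := fun (F : Sph n → ℝ) (hF : Continuous F) => integrable_mul_density hgint hF
  -- the inequality for the ellipsoids
  have hell : ∀ ε : ℝ, 0 < ε → -(ε * (2 + 2 * c) * ∫ v : Sph n, |g (inner ℝ (e : E n) (v : E n))| ∂(sig n)) ≤
      ∫ v : Sph n, (2 * max (s * |inner ℝ (e : E n) (v : E n)| - c * |inner ℝ w (v : E n)|) 0) *
        g (inner ℝ (e : E n) (v : E n)) ∂(sig n) := by
    intro ε hε
    obtain ⟨K, hK, hKs⟩ := exists_ellipsoid hw1 hε
    set F : E n → Sph n → ℝ := fun _ _ => 0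
    have hval : ∀ φ : ℝ, supp (T K) (Real.cos φ • (e : E n) + Real.sin φ • w) =
        ∫ v : Sph n, hS K (act (planeRot hw φ) v) * g (inner ℝ (e : E n) (v : E n)) ∂(sig n) := by
      intro φ
      have h1 := hT K hK (planeRot hw φ) (isRot_planeRot hw φ)
      rw [hμ] at h1
      have h2 : (act (planeRot hw φ) e : E n) = Real.cos φ • (e : E n) + Real.sin φ • w :=
        planeRot_fst hw φ
      rw [← h2]
      exact h1
    have hsub := supp_add_le (T K) (Real.cos θ • (e : E n) + Real.sin θ • w)
      (Real.cos (-θ) • (e : E n) + Real.sin (-θ) • w)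
    have hsum : Real.cos θ • (e : E n) + Real.sin θ • w + (Real.cos (-θ) • (e : E n) + Real.sin (-θ) • w) =
        (2 * c) • (Real.cos 0 • (e : E n) + Real.sin 0 • w) := by
      rw [Real.cos_neg, Real.sin_neg, Real.cos_zero, Real.sin_zero, ← hc]
      module
    rw [hsum, supp_smul _ (by positivity), hval, hval, hval] at hsub
    have hcF : ∀ φ, Continuous fun v : Sph n => hS K (act (planeRot hw φ) v) := fun φ =>
      (continuous_hS K).comp (continuous_act _)
    have hdiff : 0 ≤ ∫ v : Sph n, (hS K (act (planeRot hw θ) v) + hS K (act (planeRot hw (-θ)) v) -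
        2 * c * hS K (act (planeRot hw 0) v)) * g (inner ℝ (e : E n) (v : E n)) ∂(sig n) := by
      have e1 : ∀ v : Sph n, (hS K (act (planeRot hw θ) v) + hS K (act (planeRot hw (-θ)) v) -
        2 * c * hS K (act (planeRot hw 0) v)) * g (inner ℝ (e : E n) (v : E n)) =
        (hS K (act (planeRot hw θ) v) * g (inner ℝ (e : E n) (v : E n)) +
         hS K (act (planeRot hw (-θ)) v) * g (inner ℝ (e : E n) (v : E n))) -
        2 * c * (hS K (act (planeRot hw 0) v) * g (inner ℝ (e : E n) (v : E n))) := by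
        intro v; ring
      simp_rw [e1]
      have i1 := hint _ (hcF θ)
      have i2 := hint _ (hcF (-θ))
      have i3 := (hint _ (hcF 0)).const_mul (2 * c)
      have i12 : Integrable (fun v : Sph n => hS K (act (planeRot hw θ) v) * g (inner ℝ (e : E n) (v : E n)) +
         hS K (act (planeRot hw (-θ)) v) * g (inner ℝ (e : E n) (v : E n))) (sig n) := i1.add i2
      rw [integral_sub i12 i3, integral_add i1 i2, integral_const_mul]
      linarith
    -- comparison
    have hgi : Integrable (fun v : Sph n => |g (inner ℝ (e : E n) (v : E n))|) (sig n) := by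
      have := (hint (fun _ => 1) continuous_const).norm
      simpa using this
    set M : Sph n → ℝ := fun v => 2 * max (s * |inner ℝ (e : E n) (v : E n)| - c * |inner ℝ w (v : E n)|) 0 with hM
    have hMc : Continuous M := by
      simp only [hM]
      have h1 : Continuous fun v : Sph n => |(inner ℝ (e : E n) (v : E n) : ℝ)| := by fun_prop
      have h2 : Continuous fun v : Sph n => |(inner ℝ w (v : E n) : ℝ)| := by fun_prop
      exact continuous_const.mul (((continuous_const.mul h1).sub (continuous_const.mul h2)).max continuous_const)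
    have hMi := hint M hMc
    have hdc : Continuous fun v : Sph n => (hS K (act (planeRot hw θ) v) + hS K (act (planeRot hw (-θ)) v) -
        2 * c * hS K (act (planeRot hw 0) v)) :=
      ((hcF θ).add (hcF (-θ))).sub (continuous_const.mul (hcF 0))
    have hdi := hint _ hdc
    have hclose : ∀ v : Sph n, (hS K (act (planeRot hw θ) v) + hS K (act (planeRot hw (-θ)) v) -
        2 * c * hS K (act (planeRot hw 0) v)) * g (inner ℝ (e : E n) (v : E n)) ≤
        M v * g (inner ℝ (e : E n) (v : E n)) + ε * (2 + 2 * c) * |g (inner ℝ (e : E n) (v : E n))| := by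
      intro v
      have hin : ∀ φ : ℝ, inner ℝ w (planeRot hw φ (v : E n)) =
          Real.sin φ * inner ℝ (e : E n) (v : E n) + Real.cos φ * inner ℝ w (v : E n) := by
        intro φ
        have hwe : inner ℝ w (e : E n) = (0 : ℝ) := by rw [real_inner_comm]; exact hew
        rw [planeRot_apply]
        simp only [inner_add_right, inner_smul_right, hwe, real_inner_self_eq_norm_sq, hw1]
        ring
      have hK1 : ∀ φ : ℝ, |hS K (act (planeRot hw φ) v) -
          abs (Real.sin φ * inner ℝ (e : E n) (v : E n) + Real.cos φ * inner ℝ w (v : E n))| ≤ ε := by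
        intro φ
        rw [← hin φ]
        show |supp K (planeRot hw φ (v : E n)) - _| ≤ ε
        rw [hKs]
        exact abs_ellipsoid_sub hw1 hε (by rw [LinearIsometryEquiv.norm_map]; exact norm_coe_sph v)
      have k1 := abs_le.1 (hK1 θ)
      have k2 := abs_le.1 (hK1 (-θ))
      have k3 := abs_le.1 (hK1 0)
      rw [Real.sin_neg, Real.cos_neg, ← hs, ← hc] at k2
      rw [← hs, ← hc] at k1
      rw [Real.sin_zero, Real.cos_zero, zero_mul, one_mul, zero_add] at k3
      have hid := cap_identity (a := inner ℝ (e : E n) (v : E n)) (b := inner ℝ w (v : E n)) hspos.le hcpos.le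
      have hneg : -s * (inner ℝ (e : E n) (v : E n) : ℝ) = -(s * inner ℝ (e : E n) (v : E n)) := by ring
      rw [hneg] at k2
      set X := hS K (act (planeRot hw θ) v) + hS K (act (planeRot hw (-θ)) v) -
        2 * c * hS K (act (planeRot hw 0) v) with hX
      have hXM : |X - M v| ≤ ε * (2 + 2 * c) := by
        rw [abs_le]
        constructor
        · have := mul_le_mul_of_nonneg_left k3.2 (by positivity : (0:ℝ) ≤ 2 * c)
          simp only [hX, hM]
          linarith
        · have := mul_le_mul_of_nonneg_left k3.1 (by positivity : (0:ℝ) ≤ 2 * c)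
          simp only [hX, hM]
          linarith
      have h3 : X * g (inner ℝ (e : E n) (v : E n)) - M v * g (inner ℝ (e : E n) (v : E n)) ≤
          ε * (2 + 2 * c) * |g (inner ℝ (e : E n) (v : E n))| := by
        rw [← sub_mul]
        refine (le_abs_self _).trans ?_
        rw [abs_mul]
        exact mul_le_mul_of_nonneg_right hXM (abs_nonneg _)
      linarith
    have hfin := integral_mono hdi (hMi.add (hgi.const_mul (ε * (2 + 2 * c)))) hclose
    have hfin2 : ∫ v : Sph n, (M v * g (inner ℝ (e : E n) (v : E n)) +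
        ε * (2 + 2 * c) * |g (inner ℝ (e : E n) (v : E n))|) ∂(sig n) =
        (∫ v : Sph n, M v * g (inner ℝ (e : E n) (v : E n)) ∂(sig n)) +
        ε * (2 + 2 * c) * ∫ v : Sph n, |g (inner ℝ (e : E n) (v : E n))| ∂(sig n) := by
      rw [integral_add hMi (hgi.const_mul _), integral_const_mul]
    have hfin3 := hdiff.trans (hfin.trans (le_of_eq hfin2))
    linarith
  -- let ε → 0
  have h0 : 0 ≤ ∫ v : Sph n, (2 * max (s * |inner ℝ (e : E n) (v : E n)| - c * |inner ℝ w (v : E n)|) 0) *
        g (inner ℝ (e : E n) (v : E n)) ∂(sig n) := by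
    have hl : Tendsto (fun ε : ℝ => -(ε * (2 + 2 * c) * ∫ v : Sph n, |g (inner ℝ (e : E n) (v : E n))| ∂(sig n)))
        (𝓝[>] 0) (𝓝 0) := by
      have hcont : Continuous (fun ε : ℝ => -(ε * (2 + 2 * c) * ∫ v : Sph n, |g (inner ℝ (e : E n) (v : E n))| ∂(sig n))) := by
        fun_prop
      have h1 := hcont.tendsto 0
      simp only [zero_mul, neg_zero] at h1
      exact h1.mono_left nhdsWithin_le_nhds
    refine le_of_tendsto hl ?_
    filter_upwards [self_mem_nhdsWithin] with ε hε
    exact hell ε hε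
  have h1 : (fun v : Sph n => (2 * max (s * |inner ℝ (e : E n) (v : E n)| - c * |inner ℝ w (v : E n)|) 0) *
        g (inner ℝ (e : E n) (v : E n))) = fun v : Sph n => (2 * c) *
        (max (z * |inner ℝ (e : E n) (v : E n)| - |inner ℝ w (v : E n)|) 0 * g (inner ℝ (e : E n) (v : E n))) := by
    funext v
    have h2 : max (s * |inner ℝ (e : E n) (v : E n)| - c * |inner ℝ w (v : E n)|) 0 =
        c * max (z * |inner ℝ (e : E n) (v : E n)| - |inner ℝ w (v : E n)|) 0 := by
      rw [mul_max_of_nonneg _ _ hcpos.le, mul_zero, hsz]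
      congr 1
      ring
    rw [h2]; ring
  rw [h1, integral_const_mul] at h0
  exact nonneg_of_mul_nonneg_right h0 (by positivity)

end

end Pool.Agent.Helper115_ME
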