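import Mathlib
import Pool.Agent.Helper115_ME.CC.Nec

/-!
# Concave densities on the open interval, possibly unbounded below
-/

set_option autoImplicit false

namespace Pool.Agent.Helper115_ME

open MeasureTheory Metric Set Filter Topology
open scoped ContDiff

noncomputable section

variable {n : ℕ}

/-- the weight `t² (1-t²)^((n-4)/2)` -/
def wgt (n : ℕ) (t : ℝ) : ℝ := t ^ 2 * (1 - t ^ 2) ^ (((n : ℝ) - 4) / 2)

theorem wgt_nonneg {t : ℝ} (ht : t ∈ Icc (-1 : ℝ) 1) : 0 ≤ wgt n t :=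
  mul_nonneg (sq_nonneg t) (Real.rpow_nonneg (by nlinarith [ht.1, ht.2]) _)

theorem integrableOn_wgt (hn : 3 ≤ n) : IntegrableOn (wgt n) (Ioo (-1) 1) :=
  (C04.w_mul_int hn (continuous_pow 2)).mono_set Ioo_subset_Icc_self

theorem Wt_eq (g : ℝ → ℝ) : Wt n g = ∫ t in Ioo (-1 : ℝ) 1, g t * wgt n t := by
  unfold Wt
  rw [intervalIntegral.integral_of_le (by norm_num), integral_Ioc_eq_integral_Ioo]
  refine setIntegral_congr_fun measurableSet_Ioo fun t _ => ?_
  simp only [wgt]
  ring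

theorem W1_eq : W1 n = ∫ t in Ioo (-1 : ℝ) 1, wgt n t := by
  unfold W1
  rw [intervalIntegral.integral_of_le (by norm_num), integral_Ioc_eq_integral_Ioo]
  rfl

theorem measurable_wgt : Measurable (wgt n) := by
  unfold wgt; fun_prop

/-- upper bound of a concave function on `(-1,1)` -/
theorem exists_upper {g : ℝ → ℝ} (hg : ConcaveOn ℝ (Ioo (-1) 1) g) :
    ∃ M : ℝ, 0 ≤ M ∧ ∀ t ∈ Ioo (-1 : ℝ) 1, g t ≤ M := by
  have h0 : (0 : ℝ) ∈ Ioo (-1 : ℝ) 1 := by constructor <;> norm_num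
  have hp : (1 / 2 : ℝ) ∈ Ioo (-1 : ℝ) 1 := by constructor <;> norm_num
  have hm : (-(1 / 2) : ℝ) ∈ Ioo (-1 : ℝ) 1 := by constructor <;> norm_num
  refine ⟨|g 0| + 2 * (|g (1 / 2)| + |g (-(1 / 2))| + |g 0|) + |g (1 / 2)| + |g (-(1 / 2))|, by positivity, fun t ht => ?_⟩
  have a1 := neg_abs_le (g (1 / 2))
  have a2 := neg_abs_le (g (-(1 / 2)))
  have a3 := le_abs_self (g 0)
  have b1 := abs_nonneg (g (1 / 2))
  have b2 := abs_nonneg (g (-(1 / 2)))
  have b3 := abs_nonneg (g 0)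
  rcases le_total 0 t with ht0 | ht0
  · -- 0 is between -1/2 and t
    have h1 := hg.2 hm ht (show (0 : ℝ) ≤ t / (t + 1 / 2) by positivity)
      (show (0 : ℝ) ≤ (1 / 2) / (t + 1 / 2) by positivity) (by field_simp)
    have h2 : (t / (t + 1 / 2)) • (-(1 / 2) : ℝ) + ((1 / 2) / (t + 1 / 2)) • t = 0 := by
      simp only [smul_eq_mul]; field_simp; ring
    rw [h2] at h1
    simp only [smul_eq_mul] at h1
    have h3 : 0 < t + 1 / 2 := by linarith
    have h4 : t * g (-(1 / 2)) + 1 / 2 * g t ≤ g 0 * (t + 1 / 2) := by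
      have h5 := mul_le_mul_of_nonneg_right h1 h3.le
      have h6 : (t / (t + 1 / 2) * g (-(1 / 2)) + 1 / 2 / (t + 1 / 2) * g t) * (t + 1 / 2) =
          t * g (-(1 / 2)) + 1 / 2 * g t := by field_simp
      rw [h6] at h5
      exact h5
    nlinarith [ht.2, mul_le_mul_of_nonneg_left a2 ht0, mul_nonneg ht0 b2, mul_nonneg ht0 b3,
      mul_le_mul_of_nonneg_right a3 h3.le]
  · obtain ⟨r, rfl⟩ : ∃ r, t = -r := ⟨-t, by ring⟩
    have hr : 0 ≤ r := by linarith
    have h1 := hg.2 hp ht (show (0 : ℝ) ≤ r / (r + 1 / 2) by positivity)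
      (show (0 : ℝ) ≤ (1 / 2) / (r + 1 / 2) by positivity) (by field_simp)
    have h3 : 0 < r + 1 / 2 := by linarith
    have h2 : (r / (r + 1 / 2)) • (1 / 2 : ℝ) + ((1 / 2) / (r + 1 / 2)) • (-r) = 0 := by
      simp only [smul_eq_mul]; field_simp; ring
    rw [h2] at h1
    simp only [smul_eq_mul] at h1
    have h4 : r * g (1 / 2) + 1 / 2 * g (-r) ≤ g 0 * (r + 1 / 2) := by
      have h5 := mul_le_mul_of_nonneg_right h1 h3.le
      have h6 : (r / (r + 1 / 2) * g (1 / 2) + 1 / 2 / (r + 1 / 2) * g (-r)) * (r + 1 / 2) =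
          r * g (1 / 2) + 1 / 2 * g (-r) := by field_simp
      rw [h6] at h5
      exact h5
    have hr1 : r < 1 := by linarith [ht.1]
    nlinarith [mul_le_mul_of_nonneg_left a1 hr, mul_nonneg hr b1, mul_nonneg hr b3,
      mul_le_mul_of_nonneg_right a3 h3.le]

/-- necessity: integrability and nonnegativity of the weighted integral -/
theorem necessity_open (hn : 3 ≤ n) (e : Sph n) {g : ℝ → ℝ} (hg : ConcaveOn ℝ (Ioo (-1) 1) g)
    (hgint : Integrable (fun v : Sph n => g (inner ℝ (e : E n) (v : E n))) (sig n)) {μ : Distr n}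
    (hμ : ∀ f : SmoothFun n, val μ f = ∫ v : Sph n, f.1 v * g (inner ℝ (e : E n) (v : E n)) ∂(sig n))
    {T : Body n → Body n} (hT : Generates e μ T) :
    IntegrableOn (fun t => g t * wgt n t) (Ioo (-1) 1) ∧ 0 ≤ Wt n g := by
  obtain ⟨w, hw⟩ := exists_perp_one hn e
  have hgc : ContinuousOn g (Ioo (-1) 1) := hg.continuousOn isOpen_Ioo
  obtain ⟨M, hM0, hM⟩ := exists_upper hg
  have hmem : ∀ᵐ v : Sph n ∂(sig n), (inner ℝ (e : E n) (v : E n) : ℝ) ∈ Ioo (-1 : ℝ) 1 :=
    ae_mem_Ioo (by omega) (norm_coe_sph e)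
  -- truncations
  set gN : ℕ → ℝ → ℝ := fun N t => if t ∈ Ioo (-1 : ℝ) 1 then max (g t) (-(N : ℝ)) else 0 with hgN
  have hgN1 : ∀ N, ∀ t ∈ Ioo (-1 : ℝ) 1, gN N t = max (g t) (-(N : ℝ)) := fun N t ht => by
    simp only [hgN, ht, if_true]
  have hgNb : ∀ N, ∀ t, |gN N t| ≤ M + N := by
    intro N t
    have hN : (0 : ℝ) ≤ N := Nat.cast_nonneg N
    by_cases ht : t ∈ Ioo (-1 : ℝ) 1
    · rw [hgN1 N t ht, abs_le]
      refine ⟨?_, ?_⟩
      · have := le_max_right (g t) (-(N : ℝ))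
        linarith
      · refine max_le ?_ ?_
        · linarith [hM t ht]
        · linarith
    · simp only [hgN, ht, if_false, abs_zero]; positivity
  have hgNc : ∀ N, ContinuousOn (gN N) (Ioo (-1) 1) := fun N =>
    (hgc.sup continuousOn_const).congr fun t ht => hgN1 N t ht
  have hWN : ∀ N, 0 ≤ Wt n (gN N) := by
    intro N
    refine C09.weight_nonneg hn (gN N) ⟨M + N, fun t _ => hgNb N t⟩ (hgNc N) (e : E n) w hw fun z hz => ?_
    refine (segment_test e hw hgint hμ hT hz).trans ?_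
    have hcm : Continuous fun v : Sph n => max (z * |inner ℝ (e : E n) (v : E n)| - |inner ℝ w (v : E n)|) 0 := by
      have h1 : Continuous fun v : Sph n => |(inner ℝ (e : E n) (v : E n) : ℝ)| := by fun_prop
      have h2 : Continuous fun v : Sph n => |(inner ℝ w (v : E n) : ℝ)| := by fun_prop
      exact ((continuous_const.mul h1).sub h2).max continuous_const
    refine integral_mono_ae (integrable_mul_density hgint hcm)
      (integrable_density ⟨M + N, by positivity, fun t _ => hgNb N t⟩ (hgNc N) (norm_coe_sph e) hcm) ?_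
    filter_upwards [hmem] with v hv
    refine mul_le_mul_of_nonneg_left ?_ (le_max_right _ _)
    rw [hgN1 N _ hv]
    exact le_max_left _ _
  -- monotone limit
  set F : ℕ → ℝ → ℝ := fun N t => (M - gN N t) * wgt n t with hF
  have hwi := integrableOn_wgt (n := n) hn
  have hgNm : ∀ N, AEStronglyMeasurable (gN N) (volume.restrict (Ioo (-1 : ℝ) 1)) := fun N =>
    (hgNc N).aestronglyMeasurable measurableSet_Ioo
  have hgNi : ∀ N, IntegrableOn (fun t => gN N t * wgt n t) (Ioo (-1) 1) := fun N =>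
    hwi.bdd_mul (hgNm N) (Eventually.of_forall fun t => by rw [Real.norm_eq_abs]; exact hgNb N t)
  have hFi : ∀ N, IntegrableOn (F N) (Ioo (-1) 1) := fun N => by
    have h1 : F N = fun t => M * wgt n t - gN N t * wgt n t := by
      funext t; simp only [hF]; ring
    rw [h1]
    exact (hwi.const_mul M).sub (hgNi N)
  have hFint : ∀ N, ∫ t in Ioo (-1 : ℝ) 1, F N t ≤ M * W1 n := by
    intro N
    have h1 : ∀ t, F N t = M * wgt n t - gN N t * wgt n t := by
      intro t; simp only [hF]; ring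
    simp_rw [h1]
    rw [integral_sub (hwi.const_mul M) (hgNi N), integral_const_mul, ← W1_eq, ← Wt_eq]
    linarith [hWN N]
  have hFnn : ∀ N, ∀ t ∈ Ioo (-1 : ℝ) 1, 0 ≤ F N t := by
    intro N t ht
    refine mul_nonneg ?_ (wgt_nonneg ⟨ht.1.le, ht.2.le⟩)
    rw [hgN1 N t ht]
    have hN : (0 : ℝ) ≤ N := Nat.cast_nonneg N
    have : max (g t) (-(N : ℝ)) ≤ M := max_le (hM t ht) (by linarith)
    linarith
  have hlim : ∀ t ∈ Ioo (-1 : ℝ) 1, ∀ᶠ N in atTop, F N t = (M - g t) * wgt n t := by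
    intro t ht
    obtain ⟨N₀, hN₀⟩ := exists_nat_ge (-(g t))
    filter_upwards [eventually_ge_atTop N₀] with N hN
    have h1 : -(N : ℝ) ≤ g t := by
      have : (N₀ : ℝ) ≤ N := by exact_mod_cast hN
      linarith
    simp only [hF]
    rw [hgN1 N t ht, max_eq_left h1]
  have hgm : AEStronglyMeasurable (fun t => (M - g t) * wgt n t) (volume.restrict (Ioo (-1 : ℝ) 1)) :=
    ((continuousOn_const.sub hgc).aestronglyMeasurable measurableSet_Ioo).mul
      measurable_wgt.aestronglyMeasurable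
  have hnn : ∀ᵐ t ∂(volume.restrict (Ioo (-1 : ℝ) 1)), 0 ≤ (M - g t) * wgt n t := by
    filter_upwards [ae_restrict_mem measurableSet_Ioo] with t ht
    exact mul_nonneg (by linarith [hM t ht]) (wgt_nonneg ⟨ht.1.le, ht.2.le⟩)
  have hlint : ∫⁻ t in Ioo (-1 : ℝ) 1, ENNReal.ofReal ((M - g t) * wgt n t) ≤ ENNReal.ofReal (M * W1 n) := by
    have h1 : ∫⁻ t in Ioo (-1 : ℝ) 1, ENNReal.ofReal ((M - g t) * wgt n t) =
        ∫⁻ t in Ioo (-1 : ℝ) 1, liminf (fun N => ENNReal.ofReal (F N t)) atTop := by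
      refine lintegral_congr_ae ?_
      filter_upwards [ae_restrict_mem measurableSet_Ioo] with t ht
      have h2 : Tendsto (fun N => ENNReal.ofReal (F N t)) atTop (𝓝 (ENNReal.ofReal ((M - g t) * wgt n t))) := by
        refine tendsto_const_nhds.congr' ?_
        filter_upwards [hlim t ht] with N hN
        rw [hN]
      exact h2.liminf_eq.symm
    rw [h1]
    refine (lintegral_liminf_le' fun N => (hFi N).aestronglyMeasurable.aemeasurable.ennreal_ofReal).trans ?_
    refine liminf_le_of_le (by isBoundedDefault) fun b hb => ?_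
    obtain ⟨N, hN⟩ := hb.exists
    refine hN.trans ?_
    rw [← ofReal_integral_eq_lintegral_ofReal (hFi N) ?_]
    · exact ENNReal.ofReal_le_ofReal (hFint N)
    · filter_upwards [ae_restrict_mem measurableSet_Ioo] with t ht
      exact hFnn N t ht
  have hint : IntegrableOn (fun t => (M - g t) * wgt n t) (Ioo (-1) 1) := by
    refine ⟨hgm, ?_⟩
    rw [hasFiniteIntegral_iff_ofReal hnn]
    exact hlint.trans_lt ENNReal.ofReal_lt_top
  have hgi : IntegrableOn (fun t => g t * wgt n t) (Ioo (-1) 1) := by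
    have h1 := (hwi.const_mul M).sub hint
    refine h1.congr (Eventually.of_forall fun t => ?_)
    simp only [Pi.sub_apply]
    ring
  refine ⟨hgi, ?_⟩
  have h3 : ∫ t in Ioo (-1 : ℝ) 1, (M - g t) * wgt n t ≤ M * W1 n := by
    have h4 : (0 : ℝ) ≤ M * W1 n := mul_nonneg hM0 (W1_pos hn).le
    rw [← ENNReal.ofReal_le_ofReal_iff h4, ofReal_integral_eq_lintegral_ofReal hint hnn]
    exact hlint
  have h5 : ∀ t, (M - g t) * wgt n t = M * wgt n t - g t * wgt n t := fun t => by ring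
  simp_rw [h5] at h3
  rw [integral_sub (hwi.const_mul M) hgi, integral_const_mul, ← W1_eq, ← Wt_eq] at h3
  linarith

end

end Pool.Agent.Helper115_ME
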