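import Mathlib
import Pool.Agent.Helper115_ME.CC.OpenCase

/-!
# Concave densities on the open interval: sufficiency
-/

set_option autoImplicit false

namespace Pool.Agent.Helper115_ME

open MeasureTheory Metric Set Filter Topology
open scoped ContDiff

noncomputable section

variable {n : ℕ}

theorem integrable_all_directions (hn : 2 ≤ n) (e : Sph n) {g : ℝ → ℝ}
    (hgint : Integrable (fun v : Sph n => g (inner ℝ (e : E n) (v : E n))) (sig n)) {u : E n} (hu : ‖u‖ = 1) :
    Integrable (fun v : Sph n => g (inner ℝ u (v : E n))) (sig n) := by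
  obtain ⟨ϑ, -, hϑ⟩ := exists_rot_one hn hu (norm_coe_sph e)
  have hmp : MeasurePreserving (act ϑ) (sig n) (sig n) := ⟨(continuous_act ϑ).measurable, map_act ϑ⟩
  have h1 := hmp.integrable_comp_of_integrable hgint
  refine h1.congr (Eventually.of_forall fun v => ?_)
  show g (inner ℝ (e : E n) (ϑ (v : E n))) = g (inner ℝ u (v : E n))
  rw [← hϑ, LinearIsometryEquiv.inner_map_map]

theorem general_open (hn : 3 ≤ n) (e : Sph n) {g : ℝ → ℝ} (hg : ConcaveOn ℝ (Ioo (-1) 1) g)
    (hgint : Integrable (fun v : Sph n => g (inner ℝ (e : E n) (v : E n))) (sig n))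
    (hgi : IntegrableOn (fun t => g t * wgt n t) (Ioo (-1) 1)) (hW : 0 ≤ Wt n g)
    {K : ConvexBody (E n)} (hK : IsSmooth (hS K)) :
    ∃ L : ConvexBody (E n), ∀ u : Sph n, hS L u = ∫ v : Sph n, hS K v * g (inner ℝ (u : E n) (v : E n)) ∂(sig n) := by
  have hgc : ContinuousOn g (Ioo (-1) 1) := hg.continuousOn isOpen_Ioo
  obtain ⟨M, hM0, hM⟩ := exists_upper hg
  have hW1 := W1_pos hn
  have h0 : (0 : ℝ) ∈ Ioo (-1 : ℝ) 1 := by constructor <;> norm_num
  set lam : ℕ → ℝ := fun j => 1 - 1 / ((j : ℝ) + 2) with hlam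
  have hl0 : ∀ j, 0 ≤ lam j := by
    intro j
    have h1 : (0 : ℝ) ≤ j := Nat.cast_nonneg j
    have h2 : 1 / ((j : ℝ) + 2) ≤ 1 := by
      rw [div_le_one (by linarith)]; linarith
    simp only [hlam]; linarith
  have hl1 : ∀ j, lam j < 1 := by
    intro j
    have h2 : 0 < 1 / ((j : ℝ) + 2) := by positivity
    simp only [hlam]; linarith
  have hllim : Tendsto lam atTop (𝓝 1) := by
    have h1 : Tendsto (fun j : ℕ => 1 / ((j : ℝ) + 2)) atTop (𝓝 0) := by
      have h2 : Tendsto (fun j : ℕ => (j : ℝ) + 2) atTop atTop :=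
        tendsto_atTop_add_const_right _ _ tendsto_natCast_atTop_atTop
      simpa using h2.const_div_atTop 1
    have h3 := (tendsto_const_nhds (x := (1 : ℝ)) (f := (atTop : Filter ℕ))).sub h1
    rw [sub_zero] at h3
    exact h3
  have hmem : ∀ j, ∀ t ∈ Icc (-1 : ℝ) 1, lam j * t ∈ Ioo (-1 : ℝ) 1 := by
    intro j t ht
    have h1 := hl0 j; have h2 := hl1 j
    constructor <;> nlinarith [ht.1, ht.2]
  set G : ℕ → ℝ → ℝ := fun j t => g (lam j * t) with hG
  have hGconc : ∀ j, ConcaveOn ℝ (Icc (-1) 1) (G j) := by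
    intro j
    refine ⟨convex_Icc _ _, fun x hx y hy a b ha hb hab => ?_⟩
    have h1 := hg.2 (hmem j x hx) (hmem j y hy) ha hb hab
    have h2 : a • (lam j * x) + b • (lam j * y) = lam j * (a • x + b • y) := by
      simp only [smul_eq_mul]; ring
    rw [h2] at h1
    exact h1
  have hGb : ∀ j, ∀ t ∈ Ioo (-1 : ℝ) 1, |G j t| ≤ M + |g 0| + |g t| := by
    intro j t ht
    have h1 := hg.2 h0 ht (show (0 : ℝ) ≤ 1 - lam j by linarith [hl1 j]) (hl0 j) (by ring)
    have h2 : (1 - lam j) • (0 : ℝ) + lam j • t = lam j * t := by simp only [smul_eq_mul]; ring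
    rw [h2] at h1
    simp only [smul_eq_mul] at h1
    have h3 : g (lam j * t) ≤ M := hM _ (hmem j t ⟨ht.1.le, ht.2.le⟩)
    have h4 := neg_abs_le (g 0)
    have h5 := neg_abs_le (g t)
    have h6 := hl0 j; have h7 := hl1 j
    have b1 := abs_nonneg (g 0); have b2 := abs_nonneg (g t)
    show |g (lam j * t)| ≤ _
    rw [abs_le]
    constructor
    · nlinarith [mul_le_mul_of_nonneg_left h4 (show (0 : ℝ) ≤ 1 - lam j by linarith),
        mul_le_mul_of_nonneg_left h5 h6]
    · linarith
  have hGlim : ∀ t ∈ Ioo (-1 : ℝ) 1, Tendsto (fun j => G j t) atTop (𝓝 (g t)) := by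
    intro t ht
    have h1 : Tendsto (fun j => lam j * t) atTop (𝓝 t) := by
      simpa using hllim.mul_const t
    exact ((hgc.continuousAt (isOpen_Ioo.mem_nhds ht)).tendsto).comp h1
  have hGc : ∀ j, ContinuousOn (G j) (Icc (-1) 1) := fun j =>
    hgc.comp (continuousOn_const.mul continuousOn_id) fun t ht => hmem j t ht
  have hwi := integrableOn_wgt (n := n) hn
  -- weights converge
  have hlimW : Tendsto (fun j => Wt n (G j)) atTop (𝓝 (Wt n g)) := by
    simp_rw [Wt_eq]
    refine tendsto_integral_of_dominated_convergence (fun t => (M + |g 0|) * wgt n t + ‖g t * wgt n t‖) ?_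
      ((hwi.const_mul _).add hgi.norm) ?_ ?_
    · intro j
      exact (((hGc j).mono Ioo_subset_Icc_self).aestronglyMeasurable measurableSet_Ioo).mul
        measurable_wgt.aestronglyMeasurable
    · intro j
      filter_upwards [ae_restrict_mem measurableSet_Ioo] with t ht
      have h1 := wgt_nonneg (n := n) (t := t) ⟨ht.1.le, ht.2.le⟩
      rw [norm_mul, norm_mul, Real.norm_of_nonneg h1, Real.norm_eq_abs, Real.norm_eq_abs, ← add_mul]
      exact mul_le_mul_of_nonneg_right (hGb j t ht) h1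
    · filter_upwards [ae_restrict_mem measurableSet_Ioo] with t ht
      exact (hGlim t ht).mul_const _
  set δ : ℕ → ℝ := fun j => max 0 (-(Wt n (G j) / W1 n)) with hδ
  have hδ0 : Tendsto δ atTop (𝓝 0) := by
    have h1 : Tendsto δ atTop (𝓝 (max 0 (-(Wt n g / W1 n)))) :=
      (tendsto_const_nhds).max ((hlimW.div_const _).neg)
    have h2 : max 0 (-(Wt n g / W1 n)) = 0 := by
      refine max_eq_left ?_
      have := div_nonneg hW hW1.le
      linarith
    rwa [h2] at h1
  set G' : ℕ → ℝ → ℝ := fun j t => G j t + δ j with hG'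
  have hG'1 : ∀ j, ConcaveOn ℝ (Icc (-1) 1) (G' j) := fun j => (hGconc j).add_const (δ j)
  have hGwi : ∀ j, IntegrableOn (fun t => G j t * wgt n t) (Ioo (-1) 1) := by
    intro j
    obtain ⟨C, -, hC⟩ := C08.bounded_of_concave (G j) (hGconc j)
    refine hwi.bdd_mul (c := C) (((hGc j).mono Ioo_subset_Icc_self).aestronglyMeasurable measurableSet_Ioo) ?_
    filter_upwards [ae_restrict_mem measurableSet_Ioo] with t ht
    rw [Real.norm_eq_abs]
    exact hC t ⟨ht.1.le, ht.2.le⟩
  have hG'3 : ∀ j, 0 ≤ Wt n (G' j) := by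
    intro j
    have h1 : Wt n (G' j) = Wt n (G j) + δ j * W1 n := by
      rw [Wt_eq, Wt_eq, W1_eq, ← integral_const_mul, ← integral_add (hGwi j) (hwi.const_mul _)]
      refine setIntegral_congr_fun measurableSet_Ioo fun t _ => ?_
      simp only [hG']
      ring
    rw [h1]
    have h2 : -(Wt n (G j) / W1 n) ≤ δ j := le_max_right _ _
    have h3 : -(Wt n (G j) / W1 n) * W1 n ≤ δ j * W1 n := mul_le_mul_of_nonneg_right h2 hW1.le
    have h4 : Wt n (G j) / W1 n * W1 n = Wt n (G j) := div_mul_cancel₀ _ hW1.ne'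
    linarith
  choose Lj hLj using fun j => general_case hn (hG'1 j) (hG'3 j) hK
  -- the limit
  set H : E n → ℝ := fun x => ∫ v : Sph n, hS K v * g (inner ℝ x (v : E n)) ∂(sig n) with hH
  have hlim : ∀ u : E n, ‖u‖ = 1 → Tendsto (fun j => supp (Lj j) u) atTop (𝓝 (H u)) := by
    intro u hu
    have hgu := integrable_all_directions (by omega) e hgint hu
    have hmemu := ae_mem_Ioo (n := n) (by omega) hu
    have hGjb : ∀ j, ∃ C, 0 ≤ C ∧ ∀ t ∈ Icc (-1 : ℝ) 1, |G j t| ≤ C := fun j =>
      C08.bounded_of_concave (G j) (hGconc j)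
    have hGju : ∀ j, Integrable (fun v : Sph n => hS K v * G j (inner ℝ u (v : E n))) (sig n) := fun j =>
      integrable_density (hGjb j) ((hGc j).mono Ioo_subset_Icc_self) hu (continuous_hS K)
    have h1 : ∀ j, supp (Lj j) u = (∫ v : Sph n, hS K v * G j (inner ℝ u (v : E n)) ∂(sig n)) +
        δ j * ∫ v : Sph n, hS K v ∂(sig n) := by
      intro j
      have h2 := hLj j ⟨u, by simpa using hu⟩
      change supp (Lj j) u = _ at h2
      rw [h2, ← integral_const_mul, ← integral_add (hGju j) ((integrable_sig (continuous_hS K)).const_mul _)]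
      congr 1
      funext v
      simp only [hG']
      ring
    simp_rw [h1]
    have h3 : H u = H u + 0 * ∫ v : Sph n, hS K v ∂(sig n) := by ring
    rw [h3]
    refine Tendsto.add ?_ (hδ0.mul_const _)
    obtain ⟨R, hR⟩ : ∃ R, ∀ v, |hS K v| ≤ R := by
      obtain ⟨R, hR⟩ := (isCompact_univ.image (continuous_hS K)).isBounded.subset_closedBall 0
      refine ⟨R, fun v => ?_⟩
      have := hR (mem_image_of_mem _ (mem_univ v))
      simpa using this
    refine tendsto_integral_of_dominated_convergence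
      (fun v : Sph n => R * (M + |g 0| + |g (inner ℝ u (v : E n))|)) (fun j => (hGju j).aestronglyMeasurable)
      (((integrable_const _).add hgu.norm).const_mul R) ?_ ?_
    · intro j
      filter_upwards [hmemu] with v hv
      rw [norm_mul, Real.norm_eq_abs, Real.norm_eq_abs]
      exact mul_le_mul (hR v) (hGb j _ hv) (abs_nonneg _) ((abs_nonneg _).trans (hR v))
    · filter_upwards [hmemu] with v hv
      exact (hGlim _ hv).const_mul _
  have hconv : ∀ x : E n, ∃ a, Tendsto (fun j => supp (Lj j) x) atTop (𝓝 a) := by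
    intro x
    by_cases hx : x = 0
    · refine ⟨0, ?_⟩
      have : ∀ j, supp (Lj j) x = 0 := fun j => by
        rw [hx]; simpa using supp_smul (Lj j) (le_refl (0 : ℝ)) 0
      simp [this]
    · have hx' : ‖‖x‖⁻¹ • x‖ = 1 := by simp [norm_smul, hx]
      refine ⟨‖x‖ * H (‖x‖⁻¹ • x), ?_⟩
      refine ((hlim _ hx').const_mul ‖x‖).congr fun j => ?_
      rw [supp_smul _ (by positivity), ← mul_assoc, mul_inv_cancel₀ (by simpa using hx), one_mul]
  choose p hp using hconv
  obtain ⟨L, hLp⟩ := exists_body p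
    (fun x y => le_of_tendsto_of_tendsto' (hp (x + y)) ((hp x).add (hp y))
      fun j => supp_add_le _ _ _)
    (fun c hc x => tendsto_nhds_unique (hp (c • x))
      (((hp x).const_mul c).congr fun j => (supp_smul _ hc x).symm))
  refine ⟨L, fun u => ?_⟩
  show supp L (u : E n) = H (u : E n)
  rw [hLp]
  exact tendsto_nhds_unique (hp _) (hlim _ (norm_coe_sph u))

/-- sufficiency -/
theorem sufficiency_open (hn : 3 ≤ n) (e : Sph n) {g : ℝ → ℝ} (hg : ConcaveOn ℝ (Ioo (-1) 1) g)
    (hgint : Integrable (fun v : Sph n => g (inner ℝ (e : E n) (v : E n))) (sig n)) {μ : Distr n}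
    (hμ : ∀ f : SmoothFun n, val μ f = ∫ v : Sph n, f.1 v * g (inner ℝ (e : E n) (v : E n)) ∂(sig n))
    (hgi : IntegrableOn (fun t => g t * wgt n t) (Ioo (-1) 1)) (hW : 0 ≤ Wt n g) :
    ∃ T : Body n → Body n, Admissible T ∧ Generates e μ T := by
  -- the functional
  set G : Sph n → ℝ := fun v => g (inner ℝ (e : E n) (v : E n)) with hG
  let Λ₀ : C(Sph n, ℝ) →ₗ[ℝ] ℝ :=
    { toFun := fun f => ∫ v, f v * G v ∂(sig n)
      map_add' := fun f f' => by
        rw [← integral_add (integrable_mul_density hgint f.continuous)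
          (integrable_mul_density hgint f'.continuous)]
        congr 1
        funext v
        show (f v + f' v) * G v = _
        ring
      map_smul' := fun c f => by
        rw [RingHom.id_apply, smul_eq_mul, ← integral_const_mul]
        congr 1
        funext v
        show (c * f v) * G v = _
        ring }
  let Λ : C(Sph n, ℝ) →L[ℝ] ℝ := Λ₀.mkContinuous (∫ v, |G v| ∂(sig n)) fun f => by
    show ‖∫ v, f v * G v ∂(sig n)‖ ≤ _
    refine (norm_integral_le_integral_norm _).trans ?_
    rw [← integral_mul_const]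
    refine integral_mono (integrable_mul_density hgint f.continuous).norm (hgint.norm.mul_const _) fun v => ?_
    show ‖f v * G v‖ ≤ |G v| * ‖f‖
    rw [norm_mul, mul_comm, Real.norm_eq_abs (G v)]
    exact mul_le_mul_of_nonneg_left (f.norm_coe_le_norm v) (abs_nonneg _)
  have hL : ∀ K : ConvexBody (E n), IsSmooth (hS K) →
      ∃ L : ConvexBody (E n), ∀ ϑ : E n ≃ₗᵢ[ℝ] E n, IsRot ϑ → hS L (act ϑ e) = Λ (hSC K ϑ) := by
    intro K hK
    obtain ⟨L, hL⟩ := general_open hn e hg hgint hgi hW hK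
    refine ⟨L, fun ϑ _ => ?_⟩
    rw [hL]
    show ∫ v : Sph n, hS K v * g (inner ℝ (ϑ (e : E n)) (v : E n)) ∂(sig n) = ∫ v, hS K (act ϑ v) * G v ∂(sig n)
    have hmp : MeasurePreserving (act ϑ) (sig n) (sig n) := ⟨(continuous_act ϑ).measurable, map_act ϑ⟩
    have hint : Integrable (fun v : Sph n => hS K v * g (inner ℝ (ϑ (e : E n)) (v : E n))) (sig n) :=
      integrable_mul_density (integrable_all_directions (by omega) e hgint
        (by rw [LinearIsometryEquiv.norm_map]; exact norm_coe_sph e)) (continuous_hS K)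
    have h1 : ∫ v : Sph n, hS K v * g (inner ℝ (ϑ (e : E n)) (v : E n)) ∂(sig n) =
        ∫ v : Sph n, hS K (act ϑ v) * g (inner ℝ (ϑ (e : E n)) (act ϑ v : E n)) ∂(sig n) := by
      conv_lhs => rw [← map_act ϑ]
      rw [integral_map (continuous_act ϑ).measurable.aemeasurable (by rw [map_act ϑ]; exact hint.aestronglyMeasurable)]
    rw [h1]
    congr 1
    funext v
    congr 2
    show inner ℝ (ϑ (e : E n)) (ϑ (v : E n)) = _
    rw [LinearIsometryEquiv.inner_map_map]
  obtain ⟨T, hT, hT2⟩ := construct (by omega) e Λ hL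
  refine ⟨T, hT, fun K hK ϑ hϑ => ?_⟩
  rw [hT2 K ϑ hϑ, hμ]
  rfl

end

end Pool.Agent.Helper115_ME
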