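import Mathlib
import Pool.Agent.Helper115_ME.CC.OpenSuff

/-!
# Concave densities: the criterion
-/

set_option autoImplicit false

namespace Pool.Agent.Helper115_ME

open MeasureTheory Metric Set

noncomputable section

variable {n : ℕ}

/-- `μ` is the zonal functional with density `v ↦ g(⟨e,v⟩)` with respect to the surface measure:
`μ(f) = ∫ f(v) g(⟨e,v⟩) dσ(v)` -/
def HasDensity (e : Sph n) (g : ℝ → ℝ) (μ : Distr n) : Prop :=
  ∀ f : SmoothFun n, val μ f = ∫ v : Sph n, f.1 v * g (inner ℝ (e : E n) (v : E n)) ∂(sig n)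

theorem concave_criterion (hn : 3 ≤ n) (e : Sph n) (g : ℝ → ℝ) (hg : ConcaveOn ℝ (Ioo (-1) 1) g)
    (hint : Integrable (fun v : Sph n => g (inner ℝ (e : E n) (v : E n))) (sig n))
    (μ : Distr n) (hμ : HasDensity e g μ) :
    (∃ T : Body n → Body n, Admissible T ∧ Generates e μ T) ↔
      (IntegrableOn (fun t : ℝ => g t * t ^ 2 * (1 - t ^ 2) ^ (((n : ℝ) - 4) / 2)) (Ioo (-1) 1) ∧
        0 ≤ ∫ t in Ioo (-1 : ℝ) 1, g t * t ^ 2 * (1 - t ^ 2) ^ (((n : ℝ) - 4) / 2)) := by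
  have e1 : (fun t : ℝ => g t * t ^ 2 * (1 - t ^ 2) ^ (((n : ℝ) - 4) / 2)) = fun t => g t * wgt n t := by
    funext t; simp only [wgt]; ring
  rw [e1, ← Wt_eq]
  constructor
  · rintro ⟨T, -, hT⟩
    exact necessity_open hn e hg hint hμ hT
  · rintro ⟨h1, h2⟩
    exact sufficiency_open hn e hg hint hμ h1 h2

end

end Pool.Agent.Helper115_ME
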